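import Mathlib

/-! Orbit closures in compact homogeneous spaces of nilpotent topological groups: distality. -/

set_option autoImplicit false
set_option linter.unusedSectionVars false

namespace Pool.Agent.K6.H55.NS

open Set Topology Pointwise Filter
open scoped commutatorElement

variable {N : Type*} [Group N] [TopologicalSpace N] [IsTopologicalGroup N]

/-- `N = Q Γ` with `Q` compact, `Γ` closed, and a central series `Fl`. -/
structure Ser (Γ : Subgroup N) (Q : Set N) (Fl : ℕ → Subgroup N) (L : ℕ) : Prop where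
  closed : IsClosed (Γ : Set N)
  comp : IsCompact Q
  cov : ∀ x, ∃ q ∈ Q, ∃ γ ∈ Γ, x = q * γ
  top : Fl 0 = ⊤
  anti : ∀ i, Fl (i + 1) ≤ Fl i
  comm : ∀ i, ∀ a ∈ Fl i, ∀ b, ⁅a, b⁆ ∈ Fl (i + 1)
  bot : Fl L = ⊥

/-- the closed subgroup generated by `Fl i` and `Γ` -/
def gg (Γ : Subgroup N) (Fl : ℕ → Subgroup N) (i : ℕ) : Subgroup N := (Fl i ⊔ Γ).topologicalClosure

variable {Γ : Subgroup N} {Q : Set N} {Fl : ℕ → Subgroup N} {L : ℕ}

theorem Ser.conj (h : Ser Γ Q Fl L) {i : ℕ} {x : N} (hx : x ∈ Fl i) (g : N) :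
    g * x * g⁻¹ ∈ Fl i := by
  have h1 : ⁅x⁻¹, g⁆ ∈ Fl i := h.anti i (h.comm i _ (inv_mem hx) g)
  have h2 : g * x * g⁻¹ = x * ⁅x⁻¹, g⁆ := by rw [commutatorElement_def]; group
  rw [h2]; exact mul_mem hx h1

theorem mul_comm_eq (a b : N) : a * b * a⁻¹ = ⁅a, b⁆ * b := by
  rw [commutatorElement_def]; group

theorem isClosed_gg (i : ℕ) : IsClosed (gg Γ Fl i : Set N) := Subgroup.isClosed_topologicalClosure _

theorem le_gg (i : ℕ) : Γ ≤ gg Γ Fl i := le_trans le_sup_right (Subgroup.le_topologicalClosure _)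

theorem fl_le_gg (i : ℕ) : Fl i ≤ gg Γ Fl i := le_trans le_sup_left (Subgroup.le_topologicalClosure _)

theorem Ser.gg_anti (h : Ser Γ Q Fl L) (i : ℕ) : gg Γ Fl (i + 1) ≤ gg Γ Fl i :=
  Subgroup.topologicalClosure_mono (sup_le_sup_right (h.anti i) _)

theorem Ser.gg_zero (h : Ser Γ Q Fl L) : gg Γ Fl 0 = ⊤ := by
  rw [eq_top_iff, gg, h.top]
  exact le_trans le_sup_left (Subgroup.le_topologicalClosure _)

theorem Ser.gg_last (h : Ser Γ Q Fl L) : gg Γ Fl L = Γ := by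
  refine le_antisymm ?_ (le_gg L)
  rw [gg, h.bot, bot_sup_eq]
  exact Subgroup.topologicalClosure_minimal _ le_rfl h.closed

theorem Ser.pre_conj (h : Ser Γ Q Fl L) (i : ℕ) {c x : N} (hc : c ∈ Fl i ⊔ Γ)
    (hx : x ∈ Fl (i + 1) ⊔ Γ) : c * x * c⁻¹ ∈ Fl (i + 1) ⊔ Γ := by
  have key : ∀ c : N, c ∈ (Fl i : Set N) ∪ (Γ : Set N) → ∀ x ∈ Fl (i + 1) ⊔ Γ, c * x * c⁻¹ ∈ Fl (i + 1) ⊔ Γ := by
    intro c hc x hx
    have h1 : Fl (i + 1) ⊔ Γ ≤ (Fl (i + 1) ⊔ Γ).comap (MulAut.conj c).toMonoidHom := by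
      refine sup_le (fun (y : N) hy => ?_) (fun (y : N) hy => ?_)
      · exact (le_sup_left : Fl (i + 1) ≤ Fl (i + 1) ⊔ Γ) (h.conj hy c)
      · show c * y * c⁻¹ ∈ Fl (i + 1) ⊔ Γ
        rcases hc with hc | hc
        · rw [mul_comm_eq]
          exact mul_mem ((le_sup_left : Fl (i + 1) ≤ Fl (i + 1) ⊔ Γ) (h.comm i c hc y))
            ((le_sup_right : Γ ≤ Fl (i + 1) ⊔ Γ) hy)
        · exact (le_sup_right : Γ ≤ Fl (i + 1) ⊔ Γ) (mul_mem (mul_mem hc hy) (inv_mem hc))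
    exact h1 hx
  have hc' : c ∈ Subgroup.closure ((Fl i : Set N) ∪ (Γ : Set N)) := by
    rw [Subgroup.closure_union, Subgroup.closure_eq, Subgroup.closure_eq]; exact hc
  clear hc
  induction hc' using Subgroup.closure_induction'' generalizing x with
  | mem y hy => exact key y hy x hx
  | inv_mem y hy =>
    refine key y⁻¹ ?_ x hx
    rcases hy with hy | hy
    · exact Or.inl (inv_mem (show y ∈ Fl i from hy))
    · exact Or.inr (inv_mem (show y ∈ Γ from hy))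
  | one => simpa using hx
  | mul a b _ _ ha hb =>
    have : a * b * x * (a * b)⁻¹ = a * (b * x * b⁻¹) * a⁻¹ := by group
    rw [this]; exact ha (hb hx)

theorem Ser.gg_conj (h : Ser Γ Q Fl L) (i : ℕ) {c x : N} (hc : c ∈ gg Γ Fl i)
    (hx : x ∈ gg Γ Fl (i + 1)) : c * x * c⁻¹ ∈ gg Γ Fl (i + 1) := by
  have h1 : ∀ x ∈ Fl (i + 1) ⊔ Γ, ∀ c ∈ gg Γ Fl i, c * x * c⁻¹ ∈ gg Γ Fl (i + 1) := by
    intro x hx c hc
    have hcl : IsClosed {c : N | c * x * c⁻¹ ∈ gg Γ Fl (i + 1)} :=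
      (isClosed_gg (i + 1)).preimage (by fun_prop)
    have : closure ((Fl i ⊔ Γ : Subgroup N) : Set N) ⊆ {c : N | c * x * c⁻¹ ∈ gg Γ Fl (i + 1)} :=
      closure_minimal (fun c hc => Subgroup.le_topologicalClosure _ (h.pre_conj i hc hx)) hcl
    exact this hc
  have hcl : IsClosed {x : N | c * x * c⁻¹ ∈ gg Γ Fl (i + 1)} :=
    (isClosed_gg (i + 1)).preimage (by fun_prop)
  have : closure ((Fl (i + 1) ⊔ Γ : Subgroup N) : Set N) ⊆ {x : N | c * x * c⁻¹ ∈ gg Γ Fl (i + 1)} :=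
    closure_minimal (fun x hx => h1 x hx c hc) hcl
  exact this hx

theorem Ser.gg_conj' (h : Ser Γ Q Fl L) (i : ℕ) {c x : N} (hc : c ∈ gg Γ Fl i)
    (hx : x ∈ gg Γ Fl (i + 1)) : c⁻¹ * x * c ∈ gg Γ Fl (i + 1) := by
  have := h.gg_conj i (inv_mem hc) hx
  rwa [inv_inv] at this

theorem Ser.pre_comm (h : Ser Γ Q Fl L) (i : ℕ) {c c' : N} (hc : c ∈ Fl i ⊔ Γ)
    (hc' : c' ∈ Fl i ⊔ Γ) : ⁅c, c'⁆ ∈ Fl (i + 1) ⊔ Γ := by
  have hn : (Fl i).Normal := ⟨fun x hx g => h.conj hx g⟩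
  have hn' : (Fl (i + 1)).Normal := ⟨fun x hx g => h.conj hx g⟩
  rw [← SetLike.mem_coe, Subgroup.normal_mul] at hc hc'
  obtain ⟨f, hf, γ, hγ, rfl⟩ := Set.mem_mul.1 hc
  obtain ⟨f', hf', γ', hγ', rfl⟩ := Set.mem_mul.1 hc'
  have hq : ∀ f ∈ Fl i, ∀ y : N, (QuotientGroup.mk' (Fl (i + 1))) f * (QuotientGroup.mk' (Fl (i + 1))) y =
      (QuotientGroup.mk' (Fl (i + 1))) y * (QuotientGroup.mk' (Fl (i + 1))) f := by
    intro f hf y
    rw [← map_mul, ← map_mul]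
    have h1 : f * y = ⁅f, y⁆ * (y * f) := by rw [commutatorElement_def]; group
    have h2 : (QuotientGroup.mk' (Fl (i + 1))) ⁅f, y⁆ = 1 := (QuotientGroup.eq_one_iff _).2 (h.comm i f hf y)
    rw [h1, map_mul, h2, one_mul]
  have h1 : ⁅f * γ, f' * γ'⁆ * ⁅γ, γ'⁆⁻¹ ∈ Fl (i + 1) := by
    rw [← QuotientGroup.eq_one_iff]
    have e : ((⁅f * γ, f' * γ'⁆ * ⁅γ, γ'⁆⁻¹ : N) : N ⧸ Fl (i + 1)) =
      (QuotientGroup.mk' (Fl (i + 1))) (⁅f * γ, f' * γ'⁆ * ⁅γ, γ'⁆⁻¹) := rfl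
    rw [e, map_mul, map_inv, mul_inv_eq_one]
    simp only [commutatorElement_def, map_mul, map_inv]
    obtain ⟨a, ha⟩ : ∃ a, a = (QuotientGroup.mk' (Fl (i + 1))) f := ⟨_, rfl⟩
    obtain ⟨b, hb⟩ : ∃ a, a = (QuotientGroup.mk' (Fl (i + 1))) f' := ⟨_, rfl⟩
    obtain ⟨u, hu⟩ : ∃ a, a = (QuotientGroup.mk' (Fl (i + 1))) γ := ⟨_, rfl⟩
    obtain ⟨v, hv⟩ : ∃ a, a = (QuotientGroup.mk' (Fl (i + 1))) γ' := ⟨_, rfl⟩
    have c1 : ∀ y, a * y = y * a := by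
      intro y
      obtain ⟨y, rfl⟩ := QuotientGroup.mk'_surjective _ y
      rw [ha]; exact hq f hf y
    have c2 : ∀ y, b * y = y * b := by
      intro y
      obtain ⟨y, rfl⟩ := QuotientGroup.mk'_surjective _ y
      rw [hb]; exact hq f' hf' y
    rw [← ha, ← hb, ← hu, ← hv]
    calc a * u * (b * v) * (a * u)⁻¹ * (b * v)⁻¹ = a * (u * b) * v * u⁻¹ * (a⁻¹ * v⁻¹) * b⁻¹ := by group
      _ = a * (b * u) * v * u⁻¹ * (v⁻¹ * a⁻¹) * b⁻¹ := by
        rw [← c2 u, (Commute.inv_left (c1 v⁻¹)).eq]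
      _ = (a * b) * (u * v * u⁻¹ * v⁻¹) * a⁻¹ * b⁻¹ := by group
      _ = (u * v * u⁻¹ * v⁻¹) * (a * b) * a⁻¹ * b⁻¹ := by
        rw [mul_assoc a b, c2 (u * v * u⁻¹ * v⁻¹), ← mul_assoc, c1 (u * v * u⁻¹ * v⁻¹)]
        group
      _ = u * v * u⁻¹ * v⁻¹ := by rw [c1 b]; group
  have h2 : ⁅f * γ, f' * γ'⁆ = (⁅f * γ, f' * γ'⁆ * ⁅γ, γ'⁆⁻¹) * ⁅γ, γ'⁆ := by group
  rw [h2]
  refine mul_mem ((le_sup_left : Fl (i + 1) ≤ Fl (i + 1) ⊔ Γ) h1) ((le_sup_right : Γ ≤ Fl (i + 1) ⊔ Γ) ?_)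
  rw [commutatorElement_def]
  exact mul_mem (mul_mem (mul_mem hγ hγ') (inv_mem hγ)) (inv_mem hγ')

theorem continuous_commutator_left (c : N) : Continuous (fun x : N => ⁅x, c⁆) := by
  simp only [commutatorElement_def]; fun_prop

theorem continuous_commutator_right (c : N) : Continuous (fun x : N => ⁅c, x⁆) := by
  simp only [commutatorElement_def]; fun_prop

theorem Ser.gg_comm (h : Ser Γ Q Fl L) (i : ℕ) {c c' : N} (hc : c ∈ gg Γ Fl i)
    (hc' : c' ∈ gg Γ Fl i) : ⁅c, c'⁆ ∈ gg Γ Fl (i + 1) := by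
  have h1 : ∀ x ∈ Fl i ⊔ Γ, ∀ c ∈ gg Γ Fl i, ⁅c, x⁆ ∈ gg Γ Fl (i + 1) := by
    intro x hx c hc
    have : closure ((Fl i ⊔ Γ : Subgroup N) : Set N) ⊆ {c : N | ⁅c, x⁆ ∈ gg Γ Fl (i + 1)} :=
      closure_minimal (fun c hc => Subgroup.le_topologicalClosure _ (h.pre_comm i hc hx))
        ((isClosed_gg (i + 1)).preimage (continuous_commutator_left x))
    exact this hc
  have : closure ((Fl i ⊔ Γ : Subgroup N) : Set N) ⊆ {x : N | ⁅c, x⁆ ∈ gg Γ Fl (i + 1)} :=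
    closure_minimal (fun x hx => h1 x hx c hc)
      ((isClosed_gg (i + 1)).preimage (continuous_commutator_right c))
  exact this hc'

/-- left invariant under `A`, right invariant under `G` -/
structure Inv (A G : Subgroup N) (Z : Set N) : Prop where
  left : ∀ a ∈ A, ∀ z ∈ Z, a * z ∈ Z
  right : ∀ z ∈ Z, ∀ g ∈ G, z * g ∈ Z

/-- the closure of `A G` -/
def cl (A G : Subgroup N) : Set N := closure ((A : Set N) * (G : Set N))

theorem inv_closure {A G : Subgroup N} {Z : Set N} (h : Inv A G Z) : Inv A G (closure Z) where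
  left := fun a ha z hz => map_mem_closure (continuous_const_mul a) hz (fun y hy => h.left a ha y hy)
  right := fun z hz g hg => map_mem_closure (f := fun x => x * g) (by fun_prop) hz
    (fun y hy => h.right y hy g hg)

theorem inv_mulset (A G : Subgroup N) (x : N) : Inv A G ((A : Set N) * {x} * (G : Set N)) where
  left := by
    rintro a ha _ ⟨_, ⟨b, hb, _, hx, rfl⟩, g, hg, rfl⟩
    rw [Set.mem_singleton_iff] at hx
    subst hx
    exact ⟨a * b * _, ⟨a * b, mul_mem ha hb, _, rfl, rfl⟩, g, hg, by simp [mul_assoc]⟩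
  right := by
    rintro _ ⟨_, ⟨b, hb, _, hx, rfl⟩, g, hg, rfl⟩ g' hg'
    rw [Set.mem_singleton_iff] at hx
    subst hx
    exact ⟨b * _, ⟨b, hb, _, rfl, rfl⟩, g * g', mul_mem hg hg', by simp [mul_assoc]⟩

theorem inv_cl (A G : Subgroup N) : Inv A G (cl A G) := by
  have h := inv_mulset A G 1
  have e : (A : Set N) * {1} * (G : Set N) = (A : Set N) * (G : Set N) := by
    simp
  rw [e] at h
  exact inv_closure h

theorem one_mem_cl (A G : Subgroup N) : (1 : N) ∈ cl A G :=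
  subset_closure ⟨1, one_mem _, 1, one_mem _, by simp⟩

theorem cl_subset {A G : Subgroup N} {Z : Set N} (hc : IsClosed Z) (h : Inv A G Z)
    (h1 : (1 : N) ∈ Z) : cl A G ⊆ Z := by
  refine closure_minimal ?_ hc
  rintro _ ⟨a, ha, g, hg, rfl⟩
  have := h.left a ha 1 h1
  rw [mul_one] at this
  exact h.right a this g hg

theorem cl_mono {A A' G G' : Subgroup N} (h : A ≤ A') (h' : G ≤ G') : cl A G ⊆ cl A' G' :=
  closure_mono (Set.mul_subset_mul h h')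

/-- closed right-invariant sets times a larger closed subgroup are closed -/
theorem Ser.closed_mul [T2Space N] (h : Ser Γ Q Fl L) {Z W : Set N} (hZ : IsClosed Z)
    (hZr : ∀ z ∈ Z, ∀ g ∈ Γ, z * g ∈ Z) (hW : IsClosed W) (hWr : ∀ g ∈ Γ, ∀ w ∈ W, g * w ∈ W) :
    IsClosed (Z * W) := by
  have e : Z * W = (Z ∩ Q) * W := by
    apply Set.Subset.antisymm
    · rintro _ ⟨z, hz, w, hw, rfl⟩
      obtain ⟨q, hq, γ, hγ, rfl⟩ := h.cov z
      refine ⟨q, ⟨?_, hq⟩, γ * w, hWr γ hγ w hw, by simp [mul_assoc]⟩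
      have := hZr _ hz γ⁻¹ (inv_mem hγ)
      rwa [mul_inv_cancel_right] at this
    · exact Set.mul_subset_mul_right Set.inter_subset_left
  rw [e]
  exact hW.mul_left_of_isCompact (h.comp.inter_left hZ)

end Pool.Agent.K6.H55.NS
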