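import Pool.Agent.K6.H55.NS.A1

/-! Distality of orbit closures. -/

set_option autoImplicit false
set_option linter.unusedSectionVars false

namespace Pool.Agent.K6.H55.NS

open Set Topology Pointwise Filter
open scoped commutatorElement

variable {N : Type*} [Group N] [TopologicalSpace N] [IsTopologicalGroup N] [T2Space N]
variable {Γ : Subgroup N} {Q : Set N} {Fl : ℕ → Subgroup N} {L : ℕ}

/-- minimal invariant sets exist -/
theorem Ser.exists_min (h : Ser Γ Q Fl L) {A G : Subgroup N} (hG : Γ ≤ G) {Z₀ : Set N}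
    (hZ₀ : IsClosed Z₀) (hi : Inv A G Z₀) (hne : Z₀.Nonempty) :
    ∃ Z ⊆ Z₀, IsClosed Z ∧ Inv A G Z ∧ Z.Nonempty ∧
      ∀ W ⊆ Z, IsClosed W → Inv A G W → W.Nonempty → W = Z := by
  obtain ⟨Z, hZ1, hZ2⟩ := zorn_superset_nonempty
    {Z : Set N | IsClosed Z ∧ Inv A G Z ∧ Z.Nonempty} (by
      intro c hc hchain hcne
      refine ⟨⋂₀ c, ⟨isClosed_sInter fun s hs => (hc hs).1,
        ⟨fun a ha z hz s hs => (hc hs).2.1.left a ha z (hz s hs),
         fun z hz g hg s hs => (hc hs).2.1.right z (hz s hs) g hg⟩, ?_⟩,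
        fun s hs => Set.sInter_subset_of_mem hs⟩
      have hne' : Nonempty c := hcne.to_subtype
      have h1 : (⋂ s : c, (s : Set N) ∩ Q).Nonempty := by
        refine IsCompact.nonempty_iInter_of_directed_nonempty_isCompact_isClosed _ ?_ ?_ ?_ ?_
        · intro s t
          rcases hchain.total s.2 t.2 with hst | hst
          · exact ⟨s, le_rfl, Set.inter_subset_inter_left _ hst⟩
          · exact ⟨t, Set.inter_subset_inter_left _ hst, le_rfl⟩
        · intro s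
          obtain ⟨z, hz⟩ := (hc s.2).2.2
          obtain ⟨q, hq, γ, hγ, rfl⟩ := h.cov z
          refine ⟨q, ?_, hq⟩
          have := (hc s.2).2.1.right _ hz γ⁻¹ (inv_mem (hG hγ))
          rwa [mul_inv_cancel_right] at this
        · exact fun s => h.comp.inter_left (hc s.2).1
        · exact fun s => (hc s.2).1.inter h.comp.isClosed
      obtain ⟨z, hz⟩ := h1
      refine ⟨z, fun s hs => ?_⟩
      exact (Set.mem_iInter.1 hz ⟨s, hs⟩).1) Z₀ ⟨hZ₀, hi, hne⟩
  refine ⟨Z, hZ1, hZ2.prop.1, hZ2.prop.2.1, hZ2.prop.2.2, fun W hW h1 h2 h3 => ?_⟩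
  exact hZ2.eq_of_subset ⟨h1, h2, h3⟩ hW

theorem inv_mul_right {A G : Subgroup N} {Z : Set N} (h : Inv A G Z) {c : N}
    (hc : ∀ g ∈ G, c * g * c⁻¹ ∈ G) : Inv A G ((fun z => z * c) '' Z) where
  left := by
    rintro a ha _ ⟨z, hz, rfl⟩
    exact ⟨a * z, h.left a ha z hz, by simp [mul_assoc]⟩
  right := by
    rintro _ ⟨z, hz, rfl⟩ g hg
    exact ⟨z * (c * g * c⁻¹), h.right z hz _ (hc g hg), by simp [mul_assoc]⟩

theorem closed_mul_right {Z : Set N} (h : IsClosed Z) (c : N) : IsClosed ((fun z => z * c) '' Z) :=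
  (Homeomorph.mulRight c).isClosedMap Z h

theorem Ser.cl_eq_mul (h : Ser Γ Q Fl L) (A : Subgroup N) (i : ℕ) :
    cl A (gg Γ Fl i) = cl A (gg Γ Fl (i + 1)) * (gg Γ Fl i : Set N) := by
  apply Set.Subset.antisymm
  · refine cl_subset ?_ ?_ ⟨1, one_mem_cl _ _, 1, one_mem _, by simp⟩
    · exact h.closed_mul isClosed_closure
        (fun z hz g hg => (inv_cl A (gg Γ Fl (i + 1))).right z hz g (le_gg _ hg)) (isClosed_gg i)
        (fun g hg w hw => mul_mem (le_gg i hg) hw)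
    · constructor
      · rintro a ha _ ⟨z, hz, w, hw, rfl⟩
        exact ⟨a * z, (inv_cl _ _).left a ha z hz, w, hw, by simp [mul_assoc]⟩
      · rintro _ ⟨z, hz, w, hw, rfl⟩ g hg
        exact ⟨z, hz, w * g, mul_mem hw hg, by simp [mul_assoc]⟩
  · rintro _ ⟨z, hz, w, hw, rfl⟩
    exact (inv_cl A (gg Γ Fl i)).right z (cl_mono le_rfl (h.gg_anti i) hz) w hw

/-- **Distality**: orbit closures are minimal. -/
theorem Ser.distal_aux (h : Ser Γ Q Fl L) (A : Subgroup N) (i : ℕ) :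
    ∀ Z ⊆ cl A (gg Γ Fl i), IsClosed Z → Inv A (gg Γ Fl i) Z → Z.Nonempty → (1 : N) ∈ Z := by
  induction i with
  | zero =>
    rintro Z - hZ hi ⟨z, hz⟩
    have := hi.right z hz z⁻¹ (by rw [h.gg_zero]; exact Subgroup.mem_top _)
    rwa [mul_inv_cancel] at this
  | succ i ih =>
    intro W hW hWc hWi hWne
    -- a minimal subset
    obtain ⟨Z, hZW, hZc, hZi, hZne, hZm⟩ := h.exists_min (A := A) (G := gg Γ Fl (i + 1)) (le_gg _)
      isClosed_closure (inv_cl A (gg Γ Fl (i + 1))) ⟨1, one_mem_cl _ _⟩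
    -- `Z G_i` is everything
    have h1 : (1 : N) ∈ Z * (gg Γ Fl i : Set N) := by
      refine ih _ ?_ ?_ ?_ ?_
      · rw [h.cl_eq_mul A i]
        exact Set.mul_subset_mul_right hZW
      · exact h.closed_mul hZc (fun z hz g hg => hZi.right z hz g (le_gg _ hg)) (isClosed_gg i)
          (fun g hg w hw => mul_mem (le_gg i hg) hw)
      · constructor
        · rintro a ha _ ⟨z, hz, w, hw, rfl⟩
          exact ⟨a * z, hZi.left a ha z hz, w, hw, by simp [mul_assoc]⟩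
        · rintro _ ⟨z, hz, w, hw, rfl⟩ g hg
          exact ⟨z, hz, w * g, mul_mem hw hg, by simp [mul_assoc]⟩
      · obtain ⟨z, hz⟩ := hZne
        exact ⟨z * 1, z, hz, 1, one_mem _, rfl⟩
    obtain ⟨z, hz, c, hc, hzc⟩ := h1
    simp only at hzc
    have hzc' : z = c⁻¹ := eq_inv_of_mul_eq_one_left hzc
    subst hzc'
    have hconj : ∀ g ∈ gg Γ Fl (i + 1), c * g * c⁻¹ ∈ gg Γ Fl (i + 1) := fun g hg =>
      h.gg_conj i hc hg
    have hsub : cl A (gg Γ Fl (i + 1)) ⊆ (fun z => z * c) '' Z :=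
      cl_subset (closed_mul_right hZc c) (inv_mul_right hZi hconj) ⟨c⁻¹, hz, by simp⟩
    -- `W c⁻¹` is contained in `Z`
    have hW' : (fun z => z * c⁻¹) '' W ⊆ Z := by
      rintro _ ⟨w, hw, rfl⟩
      obtain ⟨z, hz, rfl⟩ := hsub (hW hw)
      simpa using hz
    have hconj' : ∀ g ∈ gg Γ Fl (i + 1), c⁻¹ * g * c⁻¹⁻¹ ∈ gg Γ Fl (i + 1) := fun g hg =>
      h.gg_conj i (inv_mem hc) hg
    have hWZ := hZm _ hW' (closed_mul_right hWc c⁻¹) (inv_mul_right hWi hconj') (hWne.image _)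
    rw [← hWZ] at hz
    obtain ⟨w, hw, hwc⟩ := hz
    simp only [mul_eq_right] at hwc
    subst hwc
    exact hw

theorem Ser.distal (h : Ser Γ Q Fl L) (A : Subgroup N) {Z : Set N} (hZ : Z ⊆ cl A Γ)
    (hZc : IsClosed Z) (hZi : Inv A Γ Z) (hne : Z.Nonempty) : Z = cl A Γ := by
  have h1 : (1 : N) ∈ Z := by
    refine h.distal_aux A L Z ?_ hZc ?_ hne
    · rwa [h.gg_last]
    · rwa [h.gg_last]
  exact Set.Subset.antisymm hZ (cl_subset hZc hZi h1)

end Pool.Agent.K6.H55.NS
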