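import Pool.Agent.K6.H55.NS.A2

/-! Circle-valued functions on orbit closures. -/

set_option autoImplicit false
set_option linter.unusedSectionVars false

namespace Pool.Agent.K6.H55.NS

open Set Topology Pointwise Filter
open scoped commutatorElement

/-- the circle has no small subgroups -/
theorem circle_pow {d : Circle} (h : ∀ n : ℕ, ‖(d : ℂ) ^ n - 1‖ < 1) : d = 1 := by
  by_contra hd
  have hpos : 0 < ‖(d : ℂ) - 1‖ := by
    rw [norm_pos_iff, sub_ne_zero]
    intro h1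
    exact hd (Subtype.ext h1)
  have key : ∀ k : ℕ, (3 / 2 : ℝ) ^ k * ‖(d : ℂ) - 1‖ ≤ ‖(d : ℂ) ^ (2 ^ k) - 1‖ := by
    intro k
    induction k with
    | zero => simp
    | succ k ih =>
      obtain ⟨w, hw⟩ : ∃ w : ℂ, w = (d : ℂ) ^ (2 ^ k) := ⟨_, rfl⟩
      have h1 : ‖w - 1‖ < 1 := by rw [hw]; exact h _
      have hn : ‖w‖ = 1 := by rw [hw, norm_pow, Circle.norm_coe, one_pow]
      have e : (d : ℂ) ^ (2 ^ (k + 1)) - 1 = (w - 1) * (w + 1) := by
        rw [hw]; ring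
      rw [e, norm_mul, pow_succ]
      rw [← hw] at ih
      have h2 : (3 / 2 : ℝ) ≤ ‖w + 1‖ := by
        have h3 : ‖w - 1‖ ^ 2 = 2 - 2 * w.re := by
          rw [← Complex.normSq_eq_norm_sq, Complex.normSq_apply]
          have h4 : w.re * w.re + w.im * w.im = 1 := by
            rw [← Complex.normSq_apply, Complex.normSq_eq_norm_sq, hn, one_pow]
          simp only [Complex.sub_re, Complex.one_re, Complex.sub_im, Complex.one_im]
          nlinarith
        have h5 : ‖w + 1‖ ^ 2 = 2 + 2 * w.re := by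
          rw [← Complex.normSq_eq_norm_sq, Complex.normSq_apply]
          have h4 : w.re * w.re + w.im * w.im = 1 := by
            rw [← Complex.normSq_apply, Complex.normSq_eq_norm_sq, hn, one_pow]
          simp only [Complex.add_re, Complex.one_re, Complex.add_im, Complex.one_im]
          nlinarith
        have h6 : ‖w - 1‖ ^ 2 < 1 := by nlinarith [norm_nonneg (w - 1)]
        nlinarith [norm_nonneg (w + 1)]
      nlinarith [norm_nonneg (w - 1), norm_nonneg ((d : ℂ) - 1)]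
  obtain ⟨k, hk⟩ := pow_unbounded_of_one_lt (1 / ‖(d : ℂ) - 1‖) (by norm_num : (1 : ℝ) < 3 / 2)
  have h1 := key k
  have h2 := h (2 ^ k)
  rw [div_lt_iff₀ hpos] at hk
  linarith

/-- a neighbourhood in the circle -/
def nbd : Set Circle := {z | ‖(z : ℂ) - 1‖ < 1 / 2}

theorem nbd_mem : nbd ∈ 𝓝 (1 : Circle) := by
  have hc : Continuous (fun z : Circle => ‖(z : ℂ) - 1‖) := by fun_prop
  exact (isOpen_lt hc continuous_const).mem_nhds (by simp)

theorem nbd_pow {d z : Circle} (h : ∀ n : ℕ, d ^ n * z ∈ nbd) : d = 1 := by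
  apply circle_pow
  intro n
  have h1 := h n
  have h0 := h 0
  simp only [nbd, Set.mem_ofPred_eq, pow_zero, one_mul, Circle.coe_mul, Circle.coe_pow] at h1 h0
  have hz : ‖(z : ℂ)‖ = 1 := Circle.norm_coe z
  have e : ‖(d : ℂ) ^ n - 1‖ = ‖((d : ℂ) ^ n * z - 1) - ((z : ℂ) - 1)‖ := by
    have : ((d : ℂ) ^ n * z - 1) - ((z : ℂ) - 1) = ((d : ℂ) ^ n - 1) * z := by ring
    rw [this, norm_mul, hz, mul_one]
  rw [e]
  calc _ ≤ ‖(d : ℂ) ^ n * z - 1‖ + ‖(z : ℂ) - 1‖ := norm_sub_le _ _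
    _ < 1 := by linarith

variable {N : Type*} [Group N] [TopologicalSpace N] [IsTopologicalGroup N]

/-- a circle-valued function on the orbit closure `W` modulo `G` -/
structure PsiD (Q : Set N) (Γ G A : Subgroup N) (W : Set N) (ψ : G →* Circle) (Ψ : N → Circle) : Prop where
  mulr : ∀ y ∈ W, ∀ (c : N) (hc : c ∈ G), Ψ (y * c) = Ψ y * ψ ⟨c, hc⟩
  leftA : ∀ a ∈ A, ∀ y ∈ W, Ψ (a * y) = Ψ y
  cont : ContinuousOn Ψ W

/-- the displacement -/
noncomputable def DD (Ψ : N → Circle) (e y : N) : Circle := Ψ (e * y) * (Ψ y)⁻¹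

theorem DD_one (Ψ : N → Circle) (y : N) : DD Ψ 1 y = 1 := by simp [DD]

variable {Q : Set N} {Γ G A : Subgroup N} {W : Set N} {ψ : G →* Circle} {Ψ : N → Circle}

/-- uniform smallness of the displacement -/
theorem PsiD.small (h : PsiD Q Γ G A W ψ Ψ) (hQ : IsCompact Q)
    (hcov : ∀ x, ∃ q ∈ Q, ∃ γ ∈ Γ, x = q * γ) (hΓ : Γ ≤ G) (hW : IsClosed W)
    (hWr : ∀ y ∈ W, ∀ c ∈ G, y * c ∈ W) {K : Subgroup N} (hK : ∀ e ∈ K, ∀ y ∈ W, e * y ∈ W)
    {V : Set Circle} (hV : V ∈ 𝓝 (1 : Circle)) :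
    ∃ U ∈ 𝓝 (1 : N), ∀ e ∈ K, e ∈ U → ∀ y ∈ W, DD Ψ e y ∈ V := by
  have hS : IsCompact (Q ∩ W) := hQ.inter_right hW
  have h1 : ∀ᶠ e in 𝓝 (1 : N), ∀ y ∈ Q ∩ W, (e ∈ K → y ∈ W → DD Ψ e y ∈ V) := by
    refine hS.eventually_forall_of_forall_eventually (P := fun e y => e ∈ K → y ∈ W → DD Ψ e y ∈ V) ?_
    intro y hy
    have hc : ContinuousWithinAt (fun p : N × N => DD Ψ p.1 p.2) ((K : Set N) ×ˢ W) (1, y) := by
      have h2 : ContinuousWithinAt (fun p : N × N => Ψ p.2) ((K : Set N) ×ˢ W) (1, y) :=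
        (h.cont y hy.2).comp continuous_snd.continuousWithinAt (fun p hp => hp.2)
      have h3 : ContinuousWithinAt (fun p : N × N => Ψ (p.1 * p.2)) ((K : Set N) ×ˢ W) (1, y) := by
        have h4 := h.cont ((fun p : N × N => p.1 * p.2) (1, y)) (by simpa using hy.2)
        exact ContinuousWithinAt.comp (f := fun p : N × N => p.1 * p.2) (x := ((1 : N), y))
          (s := (K : Set N) ×ˢ W) h4 (continuous_mul.continuousWithinAt)
          (fun p hp => hK _ hp.1 _ hp.2)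
      exact h3.mul h2.inv
    have h0 : DD Ψ (1, y).1 (1, y).2 = 1 := DD_one Ψ y
    have h5 : V ∈ 𝓝 (DD Ψ (1, y).1 (1, y).2) := by rwa [h0]
    have h6 := hc h5
    rw [mem_map, mem_nhdsWithin_iff_eventually] at h6
    filter_upwards [h6] with p hp hp1 hp2
    exact hp ⟨hp1, hp2⟩
  refine ⟨_, h1, fun e he heU y hy => ?_⟩
  obtain ⟨q, hq, γ, hγ, rfl⟩ := hcov y
  have hqW : q ∈ W := by
    have := hWr _ hy γ⁻¹ (hΓ (inv_mem hγ))
    rwa [mul_inv_cancel_right] at this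
  have h2 := heU q ⟨hq, hqW⟩ he hqW
  have h3 : DD Ψ e (q * γ) = DD Ψ e q := by
    unfold DD
    rw [← mul_assoc, h.mulr q hqW γ (hΓ hγ), h.mulr (e * q) (hK e he q hqW) γ (hΓ hγ), mul_inv_rev]
    rw [mul_assoc, mul_inv_cancel_left]
  rwa [h3]

/-- displacements with `A`-invariance are constant -/
theorem PsiD.const (h : PsiD Q Γ G A W ψ Ψ) (hW : W = cl A G) {e : N} (he : ∀ y ∈ W, e * y ∈ W)
    (hinv : ∀ a ∈ A, ∀ y ∈ W, DD Ψ e (a * y) = DD Ψ e y) : ∀ y ∈ W, DD Ψ e y = DD Ψ e 1 := by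
  have h1W : (1 : N) ∈ W := by rw [hW]; exact one_mem_cl _ _
  have hA : ((A : Set N) * (G : Set N)) ⊆ W := by rw [hW]; exact subset_closure
  have hc1 : ContinuousOn (fun y => DD Ψ e y) W := by
    have h2 : ContinuousOn (fun y => Ψ (e * y)) W :=
      h.cont.comp (continuous_const_mul e).continuousOn he
    exact h2.mul h.cont.inv
  have key : Set.EqOn (fun y => DD Ψ e y) (fun _ => DD Ψ e 1) ((A : Set N) * (G : Set N)) := by
    rintro _ ⟨a, ha, c, hc, rfl⟩
    have haW : a ∈ W := hA ⟨a, ha, 1, one_mem _, by simp⟩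
    simp only
    have h3 : DD Ψ e (a * c) = DD Ψ e a := by
      unfold DD
      rw [← mul_assoc, h.mulr a haW c hc, h.mulr (e * a) (he a haW) c hc, mul_inv_rev,
        mul_assoc, mul_inv_cancel_left]
    rw [h3]
    have := hinv a ha 1 h1W
    rwa [mul_one] at this
  intro y hy
  exact (key.of_subset_closure hc1 continuousOn_const hA (by rw [hW]; exact le_rfl)) hy


theorem DD_mul (Ψ : N → Circle) (e e' y : N) : DD Ψ (e * e') y = DD Ψ e (e' * y) * DD Ψ e' y := by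
  simp [DD, mul_assoc]

end Pool.Agent.K6.H55.NS
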