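import Pool.Agent.K6.H55.NS.A3

/-! Displacements are homomorphisms. -/

set_option autoImplicit false
set_option linter.unusedSectionVars false

namespace Pool.Agent.K6.H55.NS

open Set Topology Pointwise Filter
open scoped commutatorElement

variable {N : Type*} [Group N] [TopologicalSpace N] [IsTopologicalGroup N] [T2Space N]
variable {Γ : Subgroup N} {Q : Set N} {Fl : ℕ → Subgroup N} {L : ℕ}

/-- the data of the invariance theorem -/
structure Dat (Γ : Subgroup N) (Q : Set N) (Fl : ℕ → Subgroup N) (L : ℕ) (A K E : Subgroup N) :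
    Prop where
  ser : Ser Γ Q Fl L
  hA : A ≤ K
  hE : E ≤ K
  norm : ∀ v ∈ K, ∀ e ∈ E, v * e * v⁻¹ ∈ E
  gen : K ≤ E ⊔ A
  small : ∀ H' : Subgroup N, (∃ U ∈ 𝓝 (1 : N), ∀ e ∈ E, e ∈ U → e ∈ H') → E ≤ H'

/-- the descending series of `E` -/
def Es (E K : Subgroup N) : ℕ → Subgroup N
  | 0 => E
  | j + 1 => ⁅Es E K j, K⁆

variable {A K E : Subgroup N}

theorem Dat.es_norm (h : Dat Γ Q Fl L A K E) (j : ℕ) :
    ∀ v ∈ K, ∀ e ∈ Es E K j, v * e * v⁻¹ ∈ Es E K j := by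
  induction j with
  | zero => exact h.norm
  | succ j ih =>
    intro v hv e he
    have h1 : ⁅Es E K j, K⁆ ≤ (⁅Es E K j, K⁆).comap (MulAut.conj v).toMonoidHom := by
      rw [Subgroup.commutator_le]
      intro a ha b hb
      show v * ⁅a, b⁆ * v⁻¹ ∈ ⁅Es E K j, K⁆
      have e1 : v * ⁅a, b⁆ * v⁻¹ = ⁅v * a * v⁻¹, v * b * v⁻¹⁆ := by
        simp only [commutatorElement_def]; group
      rw [e1]
      exact Subgroup.commutator_mem_commutator (ih v hv a ha) (mul_mem (mul_mem hv hb) (inv_mem hv))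
    exact h1 he

theorem Dat.es_anti (h : Dat Γ Q Fl L A K E) (j : ℕ) : Es E K (j + 1) ≤ Es E K j := by
  show ⁅Es E K j, K⁆ ≤ _
  rw [Subgroup.commutator_le]
  intro a ha b hb
  have e1 : ⁅a, b⁆ = a * (b * a⁻¹ * b⁻¹) := by rw [commutatorElement_def]; group
  rw [e1]
  exact mul_mem ha (h.es_norm j b hb _ (inv_mem ha))

theorem Dat.es_le (h : Dat Γ Q Fl L A K E) (j : ℕ) : Es E K j ≤ K := by
  induction j with
  | zero => exact h.hE
  | succ j ih => exact (h.es_anti j).trans ih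

theorem Dat.es_fl (h : Dat Γ Q Fl L A K E) (j : ℕ) : Es E K j ≤ Fl j := by
  induction j with
  | zero => rw [h.ser.top]; exact le_top
  | succ j ih =>
    show ⁅Es E K j, K⁆ ≤ _
    rw [Subgroup.commutator_le]
    intro a ha b _
    exact h.ser.comm j a (ih ha) b

theorem comm_mem_es {j : ℕ} {e v : N} (he : e ∈ Es E K j) (hv : v ∈ K) : ⁅e, v⁆ ∈ Es E K (j + 1) :=
  Subgroup.commutator_mem_commutator he hv

theorem comm_mem_es' {j : ℕ} {e v : N} (he : e ∈ Es E K j) (hv : v ∈ K) : ⁅v, e⁆ ∈ Es E K (j + 1) := by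
  rw [← commutatorElement_inv]; exact inv_mem (comm_mem_es he hv)

/-- generation by small elements -/
theorem Dat.gen_small (h : Dat Γ Q Fl L A K E) (j : ℕ) : ∀ H' : Subgroup N, Es E K (j + 1) ≤ H' →
    (∃ U ∈ 𝓝 (1 : N), ∀ e ∈ Es E K j, e ∈ U → e ∈ H') → Es E K j ≤ H' := by
  induction j with
  | zero => intro H' _ h2; exact h.small H' h2
  | succ j ih =>
    intro H' h1 h2
    show ⁅Es E K j, K⁆ ≤ _
    rw [Subgroup.commutator_le]
    intro e he v hv
    let H'' : Subgroup N :=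
      { carrier := {e | e ∈ Es E K j ∧ ⁅e, v⁆ ∈ H'}
        mul_mem' := by
          rintro a b ⟨ha, ha'⟩ ⟨hb, hb'⟩
          refine ⟨mul_mem ha hb, ?_⟩
          have e1 : ⁅a * b, v⁆ = ⁅a, ⁅b, v⁆⁆ * ⁅b, v⁆ * ⁅a, v⁆ := by
            simp only [commutatorElement_def]; group
          rw [e1]
          exact mul_mem (mul_mem (h1 (comm_mem_es' (comm_mem_es hb hv) (h.es_le j ha))) hb') ha'
        one_mem' := ⟨one_mem _, by simp⟩
        inv_mem' := by
          rintro a ⟨ha, ha'⟩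
          refine ⟨inv_mem ha, ?_⟩
          have e1 : ⁅a⁻¹, v⁆ = ⁅a⁻¹, ⁅a, v⁆⁻¹⁆ * ⁅a, v⁆⁻¹ := by
            simp only [commutatorElement_def]; group
          rw [e1]
          exact mul_mem (h1 (comm_mem_es' (inv_mem (comm_mem_es ha hv))
            (inv_mem (h.es_le j ha)))) (inv_mem ha') }
    have h3 : Es E K j ≤ H'' := by
      refine ih H'' ?_ ?_
      · intro a ha
        exact ⟨h.es_anti j ha, h1 (comm_mem_es ha hv)⟩
      · obtain ⟨U, hU, hU2⟩ := h2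
        have hc : Tendsto (fun a : N => ⁅a, v⁆) (𝓝 1) (𝓝 1) := by
          have := (continuous_commutator_left v).tendsto 1
          simpa using this
        refine ⟨_, hc hU, fun a ha haU => ⟨ha, hU2 _ (comm_mem_es ha hv) haU⟩⟩
    exact (h3 he).2

variable {G : Subgroup N} {W : Set N} {ψ : G →* Circle} {Ψ : N → Circle}

/-- the set up at one level -/
structure Lev (h : Dat Γ Q Fl L A K E) (G : Subgroup N) (W : Set N) (ψ : G →* Circle)
    (Ψ : N → Circle) : Prop where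
  psi : PsiD Q Γ G A W ψ Ψ
  hG : Γ ≤ G
  hW : W = cl A G
  inv : ∀ e ∈ K, ∀ y ∈ W, e * y ∈ W

theorem Lev.one_in {h : Dat Γ Q Fl L A K E} (l : Lev h G W ψ Ψ) : (1 : N) ∈ W := by
  rw [l.hW]; exact one_mem_cl _ _

theorem Lev.small_nbd {h : Dat Γ Q Fl L A K E} (l : Lev h G W ψ Ψ) {V : Set Circle} (hV : V ∈ 𝓝 (1 : Circle)) :
    ∃ U ∈ 𝓝 (1 : N), ∀ e ∈ K, e ∈ U → ∀ y ∈ W, DD Ψ e y ∈ V := by
  refine l.psi.small h.ser.comp h.ser.cov l.hG ?_ ?_ l.inv hV
  · rw [l.hW]; exact isClosed_closure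
  · rw [l.hW]; exact (inv_cl A G).right

theorem Lev.DA {h : Dat Γ Q Fl L A K E} (l : Lev h G W ψ Ψ) {a : N} (ha : a ∈ A) {y : N}
    (hy : y ∈ W) : DD Ψ a y = 1 := by
  unfold DD; rw [l.psi.leftA a ha y hy, mul_inv_cancel]

/-- the cocycle identity for commutators -/
theorem Lev.D_comm {h : Dat Γ Q Fl L A K E} (l : Lev h G W ψ Ψ) {e a : N} (he : e ∈ K) (ha : a ∈ A)
    {y : N} (hy : y ∈ W) : DD Ψ e (a * y) = DD Ψ ⁅e, a⁆ (a * (e * y)) * DD Ψ e y := by
  have h1 : e * a = ⁅e, a⁆ * (a * e) := by rw [commutatorElement_def]; group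
  have h2 : DD Ψ (e * a) y = DD Ψ e (a * y) := by
    rw [DD_mul, l.DA ha hy, mul_one]
  rw [← h2, h1, DD_mul, DD_mul, l.DA ha (l.inv e he y hy), one_mul, mul_assoc]

theorem Lev.const {h : Dat Γ Q Fl L A K E} (l : Lev h G W ψ Ψ) {e : N} (he : e ∈ K)
    (hc : ∀ a ∈ A, ∀ y ∈ W, DD Ψ ⁅e, a⁆ y = 1) : ∀ y ∈ W, DD Ψ e y = DD Ψ e 1 := by
  refine l.psi.const l.hW (l.inv e he) ?_
  intro a ha y hy
  rw [l.D_comm he ha hy, hc a ha _ (l.inv a (h.hA ha) _ (l.inv e he y hy)), one_mul]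

/-- iterating a multiplier -/
theorem nbd_iter {f : N → Circle} {x : N} {d : Circle} {W : Set N} (hx : ∀ y ∈ W, x * y ∈ W)
    (hf : ∀ y ∈ W, f (x * y) = d * f y) (hV : ∀ y ∈ W, f y ∈ nbd) {y : N} (hy : y ∈ W) : d = 1 := by
  refine nbd_pow (z := f y) (fun n => ?_)
  have h1 : x ^ n * y ∈ W ∧ f (x ^ n * y) = d ^ n * f y := by
    induction n with
    | zero => simpa using hy
    | succ n ih =>
      rw [pow_succ', mul_assoc]
      exact ⟨hx _ ih.1, by rw [hf _ ih.1, ih.2, pow_succ', mul_assoc]⟩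
  rw [← h1.2]
  exact hV _ h1.1

/-- **main step** of the descending induction -/
theorem Lev.step {h : Dat Γ Q Fl L A K E} (l : Lev h G W ψ Ψ) (j : ℕ)
    (ih : ∀ e ∈ Es E K (j + 2), ∀ y ∈ W, DD Ψ e y = 1) :
    ∀ e ∈ Es E K (j + 1), ∀ y ∈ W, DD Ψ e y = 1 := by
  have h1W := l.one_in
  obtain ⟨U, hU, hUD⟩ := l.small_nbd nbd_mem
  -- (a)
  have ha : ∀ e ∈ Es E K (j + 1), ∀ y ∈ W, DD Ψ e y = DD Ψ e 1 := fun e he =>
    l.const (h.es_le _ he) (fun a ha y hy => ih _ (comm_mem_es he (h.hA ha)) y hy)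
  have hmul : ∀ x ∈ Es E K (j + 1), ∀ x' ∈ Es E K (j + 1), DD Ψ (x * x') 1 = DD Ψ x 1 * DD Ψ x' 1 := by
    intro x hx x' hx'
    rw [DD_mul, ha x hx _ (l.inv x' (h.es_le _ hx') 1 h1W)]
  have hinv : ∀ x ∈ Es E K (j + 1), DD Ψ x 1 = 1 → DD Ψ x⁻¹ 1 = 1 := by
    intro x hx h1
    have := hmul x hx x⁻¹ (inv_mem hx)
    rw [mul_inv_cancel, DD_one, h1, one_mul] at this
    exact this.symm
  have hih : ∀ x ∈ Es E K (j + 2), DD Ψ x 1 = 1 := fun x hx => ih x hx 1 h1W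
  -- (b)
  have hb : ∀ a ∈ A, ∀ e ∈ Es E K j, DD Ψ ⁅e, a⁆ 1 = 1 := by
    intro a haA
    have haK := h.hA haA
    let H' : Subgroup N :=
      { carrier := {e | e ∈ Es E K j ∧ DD Ψ ⁅e, a⁆ 1 = 1}
        mul_mem' := by
          rintro x y ⟨hx, hx'⟩ ⟨hy, hy'⟩
          refine ⟨mul_mem hx hy, ?_⟩
          have e1 : ⁅x * y, a⁆ = ⁅x, ⁅y, a⁆⁆ * ⁅y, a⁆ * ⁅x, a⁆ := by
            simp only [commutatorElement_def]; group
          have m1 : ⁅x, ⁅y, a⁆⁆ ∈ Es E K (j + 2) := comm_mem_es' (comm_mem_es hy haK) (h.es_le j hx)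
          have m1' := h.es_anti _ m1
          rw [e1, hmul _ (mul_mem m1' (comm_mem_es hy haK)) _ (comm_mem_es hx haK),
            hmul _ m1' _ (comm_mem_es hy haK), hih _ m1, hx', hy', mul_one, mul_one]
        one_mem' := ⟨one_mem _, by simp [DD_one]⟩
        inv_mem' := by
          rintro x ⟨hx, hx'⟩
          refine ⟨inv_mem hx, ?_⟩
          have e1 : ⁅x⁻¹, a⁆ = ⁅x⁻¹, ⁅x, a⁆⁻¹⁆ * ⁅x, a⁆⁻¹ := by
            simp only [commutatorElement_def]; group
          have m1 : ⁅x⁻¹, ⁅x, a⁆⁻¹⁆ ∈ Es E K (j + 2) :=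
            comm_mem_es' (inv_mem (comm_mem_es hx haK)) (inv_mem (h.es_le j hx))
          rw [e1, hmul _ (h.es_anti _ m1) _ (inv_mem (comm_mem_es hx haK)), hih _ m1, one_mul]
          exact hinv _ (comm_mem_es hx haK) hx' }
    have hle : Es E K j ≤ H' := by
      refine h.gen_small j H' ?_ ⟨U, hU, ?_⟩
      · intro x hx
        exact ⟨h.es_anti j hx, hih _ (comm_mem_es hx haK)⟩
      · intro e he heU
        refine ⟨he, ?_⟩
        refine nbd_iter (f := fun y => DD Ψ e y) (x := a) (W := W) (l.inv a haK) ?_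
          (hUD e (h.es_le j he) heU) h1W
        intro y hy
        have heK := h.es_le j he
        rw [l.D_comm heK haA hy, ha _ (comm_mem_es he haK) _ (l.inv a haK _ (l.inv e heK y hy))]
    exact fun e he => (hle he).2
  -- (c)
  have hc : ∀ e ∈ Es E K j, ∀ y ∈ W, DD Ψ e y = DD Ψ e 1 := fun e he =>
    l.const (h.es_le _ he) (fun a haA y hy => by
      rw [ha _ (comm_mem_es he (h.hA haA)) y hy, hb a haA e he])
  -- (d)
  have hd : ∀ e ∈ Es E K j, ∀ v ∈ K, DD Ψ ⁅e, v⁆ 1 = 1 := by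
    intro e he
    let H' : Subgroup N :=
      { carrier := {v | v ∈ K ∧ DD Ψ ⁅e, v⁆ 1 = 1}
        mul_mem' := by
          rintro x y ⟨hx, hx'⟩ ⟨hy, hy'⟩
          refine ⟨mul_mem hx hy, ?_⟩
          have e1 : ⁅e, x * y⁆ = ⁅e, x⁆ * (⁅x, ⁅e, y⁆⁆ * ⁅e, y⁆) := by
            simp only [commutatorElement_def]; group
          have m1 : ⁅x, ⁅e, y⁆⁆ ∈ Es E K (j + 2) := comm_mem_es' (comm_mem_es he hy) hx
          have m1' := h.es_anti _ m1
          rw [e1, hmul _ (comm_mem_es he hx) _ (mul_mem m1' (comm_mem_es he hy)),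
            hmul _ m1' _ (comm_mem_es he hy), hih _ m1, hx', hy', mul_one, mul_one]
        one_mem' := ⟨one_mem _, by simp [DD_one]⟩
        inv_mem' := by
          rintro x ⟨hx, hx'⟩
          refine ⟨inv_mem hx, ?_⟩
          have e1 : ⁅e, x⁻¹⁆ = ⁅x⁻¹, ⁅e, x⁆⁻¹⁆ * ⁅e, x⁆⁻¹ := by
            simp only [commutatorElement_def]; group
          have m1 : ⁅x⁻¹, ⁅e, x⁆⁻¹⁆ ∈ Es E K (j + 2) :=
            comm_mem_es' (inv_mem (comm_mem_es he hx)) (inv_mem hx)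
          rw [e1, hmul _ (h.es_anti _ m1) _ (inv_mem (comm_mem_es he hx)), hih _ m1, one_mul]
          exact hinv _ (comm_mem_es he hx) hx' }
    have hAH : A ≤ H' := fun a haA => ⟨h.hA haA, hb a haA e he⟩
    have hEH : E ≤ H' := by
      refine h.small H' ⟨U, hU, fun v hv hvU => ⟨h.hE hv, ?_⟩⟩
      have hvK := h.hE hv
      have heK := h.es_le j he
      have h2 : ∀ y ∈ W, DD Ψ v (e * y) = (DD Ψ ⁅e, v⁆ 1)⁻¹ * DD Ψ v y := by
        intro y hy
        have e1 : e * v = ⁅e, v⁆ * (v * e) := by rw [commutatorElement_def]; group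
        have e2 : DD Ψ (e * v) y = DD Ψ e 1 * DD Ψ v y := by
          rw [DD_mul, hc e he _ (l.inv v hvK y hy)]
        have e3 : DD Ψ (e * v) y = DD Ψ ⁅e, v⁆ 1 * (DD Ψ v (e * y) * DD Ψ e 1) := by
          rw [e1, DD_mul, DD_mul, hc e he y hy,
            ha _ (comm_mem_es he hvK) _ (l.inv _ (mul_mem hvK heK) y hy)]
        have e4 := e2.symm.trans e3
        have e5 : DD Ψ v y = DD Ψ ⁅e, v⁆ 1 * DD Ψ v (e * y) := by
          have : DD Ψ e 1 * DD Ψ v y = DD Ψ e 1 * (DD Ψ ⁅e, v⁆ 1 * DD Ψ v (e * y)) := by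
            rw [e4, ← mul_assoc, mul_comm]
          exact mul_left_cancel this
        rw [e5, inv_mul_cancel_left]
      have h3 := nbd_iter (f := fun y => DD Ψ v y) (x := e) (W := W) (l.inv e heK) h2
        (hUD v hvK hvU) h1W
      exact inv_eq_one.1 h3
    intro v hv
    have h4 : K ≤ H' := h.gen.trans (sup_le hEH hAH)
    exact (h4 hv).2
  -- (e)
  let H' : Subgroup N :=
    { carrier := {x | x ∈ Es E K (j + 1) ∧ DD Ψ x 1 = 1}
      mul_mem' := by
        rintro x y ⟨hx, hx'⟩ ⟨hy, hy'⟩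
        exact ⟨mul_mem hx hy, by rw [hmul x hx y hy, hx', hy', mul_one]⟩
      one_mem' := ⟨one_mem _, DD_one _ _⟩
      inv_mem' := by
        rintro x ⟨hx, hx'⟩
        exact ⟨inv_mem hx, hinv x hx hx'⟩ }
  have hle : Es E K (j + 1) ≤ H' := by
    show ⁅Es E K j, K⁆ ≤ H'
    rw [Subgroup.commutator_le]
    intro e he v hv
    exact ⟨comm_mem_es he hv, hd e he v hv⟩
  intro e he y hy
  rw [ha e he y hy]
  exact (hle he).2

theorem Lev.all {h : Dat Γ Q Fl L A K E} (l : Lev h G W ψ Ψ) :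
    ∀ e ∈ Es E K 1, ∀ y ∈ W, DD Ψ e y = 1 := by
  have key : ∀ m j, m + j = L → ∀ e ∈ Es E K (j + 1), ∀ y ∈ W, DD Ψ e y = 1 := by
    intro m
    induction m with
    | zero =>
      intro j hj e he y _
      have h1 := h.es_fl _ (h.es_anti _ he)
      rw [show j = L by omega, h.ser.bot, Subgroup.mem_bot] at h1
      rw [h1, DD_one]
    | succ m ih =>
      intro j hj
      exact l.step j (ih (j + 1) (by omega))
  exact key L 0 (by omega)

end Pool.Agent.K6.H55.NS
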