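import Pool.Agent.K6.H55.NS.A4
import Pool.Agent.TH264.Bridge.PW

/-! The invariance theorem. -/

set_option autoImplicit false
set_option linter.unusedSectionVars false

namespace Pool.Agent.K6.H55.NS

open Set Topology Pointwise Filter
open scoped commutatorElement

variable {N : Type*} [Group N] [TopologicalSpace N] [IsTopologicalGroup N] [T2Space N]
variable {Γ : Subgroup N} {Q : Set N} {Fl : ℕ → Subgroup N} {L : ℕ}

/-- the stabilizer of the next orbit closure -/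
def Ser.J (h : Ser Γ Q Fl L) (A : Subgroup N) (i : ℕ) : Subgroup N where
  carrier := {c | c ∈ gg Γ Fl i ∧ c ∈ cl A (gg Γ Fl (i + 1))}
  mul_mem' := by
    rintro c c' ⟨hc, hc1⟩ ⟨hc', hc1'⟩
    refine ⟨mul_mem hc hc', ?_⟩
    have h1 : cl A (gg Γ Fl (i + 1)) ⊆ (fun z => z * c'⁻¹) '' cl A (gg Γ Fl (i + 1)) := by
      refine cl_subset (closed_mul_right isClosed_closure _) (inv_mul_right (inv_cl _ _) ?_)
        ⟨c', hc1', by simp⟩
      intro g hg
      have := h.gg_conj i (inv_mem hc') hg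
      exact this
    obtain ⟨z, hz, hzc⟩ := h1 hc1
    simp only at hzc
    rw [← hzc, inv_mul_cancel_right]; exact hz
  one_mem' := ⟨one_mem _, one_mem_cl _ _⟩
  inv_mem' := by
    rintro c ⟨hc, hc1⟩
    refine ⟨inv_mem hc, ?_⟩
    have hconj : ∀ g ∈ gg Γ Fl (i + 1), c * g * c⁻¹ ∈ gg Γ Fl (i + 1) := fun g hg =>
      h.gg_conj i hc hg
    have hsub : (fun z => z * c) '' cl A (gg Γ Fl (i + 1)) ⊆ cl A (gg Γ Fl (i + 1)) := by
      have h1 : cl A (gg Γ Fl (i + 1)) ⊆ (fun z => z * c⁻¹) '' cl A (gg Γ Fl (i + 1)) := by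
        refine cl_subset (closed_mul_right isClosed_closure _) (inv_mul_right (inv_cl _ _) ?_)
          ⟨c, hc1, by simp⟩
        intro g hg
        have := h.gg_conj i (inv_mem hc) hg
        exact this
      rintro _ ⟨z, hz, rfl⟩
      obtain ⟨z', hz', e⟩ := h1 hz
      simp only at e
      show z * c ∈ _
      rw [← e, inv_mul_cancel_right]; exact hz'
    have h2 := h.distal_aux A (i + 1) _ hsub (closed_mul_right isClosed_closure c)
      (inv_mul_right (inv_cl _ _) hconj) ⟨1 * c, 1, one_mem_cl _ _, rfl⟩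
    obtain ⟨z, hz, e⟩ := h2
    simp only at e
    rwa [eq_inv_of_mul_eq_one_left e] at hz

theorem Ser.mem_J (h : Ser Γ Q Fl L) {A : Subgroup N} {i : ℕ} {c : N} :
    c ∈ h.J A i ↔ c ∈ gg Γ Fl i ∧ c ∈ cl A (gg Γ Fl (i + 1)) := Iff.rfl

theorem Ser.gg_le_J (h : Ser Γ Q Fl L) (A : Subgroup N) (i : ℕ) : gg Γ Fl (i + 1) ≤ h.J A i := by
  intro c hc
  refine ⟨h.gg_anti i hc, ?_⟩
  have := (inv_cl A (gg Γ Fl (i + 1))).right 1 (one_mem_cl _ _) c hc
  rwa [one_mul] at this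

theorem Ser.J_closed (h : Ser Γ Q Fl L) (A : Subgroup N) (i : ℕ) : IsClosed (h.J A i : Set N) :=
  (isClosed_gg i).inter isClosed_closure

theorem Ser.mul_J (h : Ser Γ Q Fl L) {A : Subgroup N} {i : ℕ} {m c : N}
    (hm : m ∈ cl A (gg Γ Fl (i + 1))) (hc : c ∈ h.J A i) : m * c ∈ cl A (gg Γ Fl (i + 1)) := by
  have h1 : cl A (gg Γ Fl (i + 1)) ⊆ (fun z => z * c⁻¹) '' cl A (gg Γ Fl (i + 1)) := by
    refine cl_subset (closed_mul_right isClosed_closure _) (inv_mul_right (inv_cl _ _) ?_)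
      ⟨c, hc.2, by simp⟩
    intro g hg
    exact h.gg_conj i (inv_mem hc.1) hg
  obtain ⟨z, hz, e⟩ := h1 hm
  simp only at e
  rw [← e, inv_mul_cancel_right]; exact hz

theorem Ser.div_J (h : Ser Γ Q Fl L) {A : Subgroup N} {i : ℕ} {m m' d : N}
    (hm : m ∈ cl A (gg Γ Fl (i + 1))) (hm' : m' ∈ cl A (gg Γ Fl (i + 1))) (hd : d ∈ gg Γ Fl i)
    (e : m = m' * d) : d ∈ h.J A i := by
  have hconj : ∀ g ∈ gg Γ Fl (i + 1), d * g * d⁻¹ ∈ gg Γ Fl (i + 1) := fun g hg =>
    h.gg_conj i hd hg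
  have hi := inv_mul_right (inv_cl A (gg Γ Fl (i + 1))) hconj
  have h2 := h.distal_aux A (i + 1) (cl A (gg Γ Fl (i + 1)) ∩ (fun z => z * d) '' cl A (gg Γ Fl (i + 1)))
    Set.inter_subset_left (isClosed_closure.inter (closed_mul_right isClosed_closure d))
    ⟨fun a ha z hz => ⟨(inv_cl _ _).left a ha z hz.1, hi.left a ha z hz.2⟩,
     fun z hz g hg => ⟨(inv_cl _ _).right z hz.1 g hg, hi.right z hz.2 g hg⟩⟩ ⟨m, hm, m', hm', e.symm⟩
  obtain ⟨z, hz, e'⟩ := h2.2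
  simp only at e'
  have h3 : d⁻¹ ∈ h.J A i := ⟨inv_mem hd, by rwa [eq_inv_of_mul_eq_one_left e'] at hz⟩
  have := inv_mem h3
  rwa [inv_inv] at this

/-- characters separate points modulo `J` -/
theorem Ser.char_sep (h : Ser Γ Q Fl L) (A : Subgroup N) (i : ℕ) {c : N} (hc : c ∈ gg Γ Fl i)
    (hcJ : c ∉ h.J A i) : ∃ ψ : gg Γ Fl i →* Circle, Continuous ψ ∧
      (∀ x (hx : x ∈ gg Γ Fl i), x ∈ h.J A i → ψ ⟨x, hx⟩ = 1) ∧ ψ ⟨c, hc⟩ ≠ 1 := by
  let H := gg Γ Fl i
  let J' : Subgroup H := (h.J A i).subgroupOf H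
  have hmem : ∀ x : H, x ∈ J' ↔ (x : N) ∈ h.J A i := fun x => Subgroup.mem_subgroupOf
  have hcomm : ∀ x y : H, ⁅x, y⁆ ∈ J' := by
    intro x y
    rw [hmem]
    exact h.gg_le_J A i (h.gg_comm i x.2 y.2)
  have hn : J'.Normal := by
    constructor
    intro x hx g
    have e : g * x * g⁻¹ = ⁅g, x⁆ * x := by rw [commutatorElement_def]; group
    rw [e]
    exact mul_mem (hcomm g x) hx
  have hcl : IsClosed (J' : Set H) := by
    have : (J' : Set H) = (Subtype.val : H → N) ⁻¹' (h.J A i : Set N) := by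
      ext x; exact hmem x
    rw [this]
    exact (h.J_closed A i).preimage continuous_subtype_val
  letI : CommGroup (H ⧸ J') :=
    { (inferInstance : Group (H ⧸ J')) with
      mul_comm := by
        intro a b
        obtain ⟨a, rfl⟩ := QuotientGroup.mk_surjective a
        obtain ⟨b, rfl⟩ := QuotientGroup.mk_surjective b
        rw [← QuotientGroup.mk_mul, ← QuotientGroup.mk_mul, QuotientGroup.eq]
        have e : (a * b)⁻¹ * (b * a) = ⁅b⁻¹, a⁻¹⁆ := by rw [commutatorElement_def]; group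
        rw [e]
        exact hcomm _ _ }
  have hT3 : T3Space (H ⧸ J') := inferInstance
  have hcomp : CompactSpace (H ⧸ J') := by
    have h1 : IsCompact ((Subtype.val : H → N) ⁻¹' Q) :=
      ((isClosed_gg i).isClosedEmbedding_subtypeVal).isCompact_preimage h.comp
    have h2 := h1.image (QuotientGroup.continuous_mk (N := J'))
    refine ⟨?_⟩
    convert h2
    symm
    rw [Set.eq_univ_iff_forall]
    intro y
    obtain ⟨x, rfl⟩ := QuotientGroup.mk_surjective y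
    obtain ⟨q, hq, γ, hγ, e⟩ := h.cov (x : N)
    have hqH : q ∈ H := by
      have : q = (x : N) * γ⁻¹ := by rw [e, mul_inv_cancel_right]
      rw [this]
      exact mul_mem x.2 (le_gg i (inv_mem hγ))
    refine ⟨⟨q, hqH⟩, hq, ?_⟩
    rw [QuotientGroup.eq, hmem]
    have : ((⟨q, hqH⟩⁻¹ * x : H) : N) = γ := by
      show q⁻¹ * (x : N) = γ
      rw [e, inv_mul_cancel_left]
    rw [this]
    exact h.gg_le_J A i (le_gg _ hγ)
  have hne : (QuotientGroup.mk (⟨c, hc⟩ : H) : H ⧸ J') ≠ 1 := by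
    intro h1
    rw [QuotientGroup.eq_one_iff, hmem] at h1
    exact hcJ h1
  obtain ⟨χ, hχ, hχc⟩ := Pool.Agent.TH264.Bridge.char_sep_mul (H ⧸ J') _ hne
  refine ⟨χ.comp (QuotientGroup.mk' J'), hχ.comp QuotientGroup.continuous_mk, ?_, hχc⟩
  intro x hx hxJ
  have : (QuotientGroup.mk' J') ⟨x, hx⟩ = 1 := (QuotientGroup.eq_one_iff _).2 ((hmem _).2 hxJ)
  rw [MonoidHom.comp_apply, this, map_one]

end Pool.Agent.K6.H55.NS
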