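import Pool.Agent.K6.H55.NS.A5

/-! The invariance theorem: conclusion. -/

set_option autoImplicit false
set_option linter.unusedSectionVars false

namespace Pool.Agent.K6.H55.NS

open Set Topology Pointwise Filter
open scoped commutatorElement

variable {N : Type*} [Group N] [TopologicalSpace N] [IsTopologicalGroup N] [T2Space N]
variable {Γ : Subgroup N} {Q : Set N} {Fl : ℕ → Subgroup N} {L : ℕ}

open Classical in
/-- the function on the orbit closure attached to a character trivial on `J` -/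
noncomputable def mkPsi (A : Subgroup N) (i : ℕ) (ψ : gg Γ Fl i →* Circle) (y : N) : Circle :=
  if hy : ∃ c : gg Γ Fl i, ∃ m ∈ cl A (gg Γ Fl (i + 1)), y = m * c then ψ hy.choose else 1

theorem Ser.mkPsi_eq (h : Ser Γ Q Fl L) {A : Subgroup N} {i : ℕ} {ψ : gg Γ Fl i →* Circle}
    (hJ : ∀ x (hx : x ∈ gg Γ Fl i), x ∈ h.J A i → ψ ⟨x, hx⟩ = 1) {m : N}
    (hm : m ∈ cl A (gg Γ Fl (i + 1))) (c : gg Γ Fl i) : mkPsi A i ψ (m * c) = ψ c := by
  have hy : ∃ c' : gg Γ Fl i, ∃ m' ∈ cl A (gg Γ Fl (i + 1)), m * (c : N) = m' * c' := ⟨c, m, hm, rfl⟩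
  rw [mkPsi, dif_pos hy]
  obtain ⟨m', hm', e⟩ := hy.choose_spec
  obtain ⟨c', hc'⟩ : ∃ c', c' = hy.choose := ⟨_, rfl⟩
  rw [← hc'] at e ⊢
  have e1 : m = m' * ((c' * c⁻¹ : gg Γ Fl i) : N) := by
    rw [Subgroup.coe_mul, Subgroup.coe_inv, ← mul_assoc, ← e, mul_inv_cancel_right]
  have h1 := hJ _ (c' * c⁻¹).2 (h.div_J hm hm' (c' * c⁻¹).2 e1)
  have h2 : ψ (c' * c⁻¹) = 1 := h1
  rw [map_mul, map_inv, mul_inv_eq_one] at h2
  exact h2

theorem Ser.mkPsi_psiD (h : Ser Γ Q Fl L) {A : Subgroup N} {i : ℕ} {ψ : gg Γ Fl i →* Circle}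
    (hψ : Continuous ψ) (hJ : ∀ x (hx : x ∈ gg Γ Fl i), x ∈ h.J A i → ψ ⟨x, hx⟩ = 1) :
    PsiD Q Γ (gg Γ Fl i) A (cl A (gg Γ Fl i)) ψ (mkPsi A i ψ) where
  mulr := by
    intro y hy c hc
    rw [h.cl_eq_mul A i] at hy
    obtain ⟨m, hm, c', hc', rfl⟩ := hy
    show mkPsi A i ψ (m * c' * c) = mkPsi A i ψ (m * c') * _
    have e1 := h.mkPsi_eq hJ hm ⟨c', hc'⟩
    have e2 := h.mkPsi_eq hJ hm (⟨c', hc'⟩ * ⟨c, hc⟩)
    rw [map_mul] at e2
    simp only [Subgroup.coe_mul] at e1 e2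
    rw [e1, mul_assoc, e2]
  leftA := by
    intro a ha y hy
    rw [h.cl_eq_mul A i] at hy
    obtain ⟨m, hm, c', hc', rfl⟩ := hy
    show mkPsi A i ψ (a * (m * c')) = mkPsi A i ψ (m * c')
    have e1 := h.mkPsi_eq hJ hm ⟨c', hc'⟩
    have e2 := h.mkPsi_eq hJ ((inv_cl A (gg Γ Fl (i + 1))).left a ha m hm) ⟨c', hc'⟩
    simp only at e1 e2
    rw [e1, ← mul_assoc, e2]
  cont := by
    rw [continuousOn_iff_isClosed]
    intro t ht
    refine ⟨cl A (gg Γ Fl (i + 1)) * (Subtype.val '' (ψ ⁻¹' t)), ?_, ?_⟩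
    · refine h.closed_mul isClosed_closure
        (fun z hz g hg => (inv_cl A (gg Γ Fl (i + 1))).right z hz g (le_gg _ hg))
        ((isClosed_gg i).isClosedEmbedding_subtypeVal.isClosedMap _ (ht.preimage hψ)) ?_
      rintro g hg _ ⟨w, hw, rfl⟩
      refine ⟨⟨g, le_gg i hg⟩ * w, ?_, rfl⟩
      rw [Set.mem_preimage, map_mul, hJ g (le_gg i hg) (h.gg_le_J A i (le_gg _ hg)), one_mul]
      exact hw
    · ext y
      constructor
      · rintro ⟨hy, hyW⟩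
        refine ⟨?_, hyW⟩
        rw [h.cl_eq_mul A i] at hyW
        obtain ⟨m, hm, c', hc', rfl⟩ := hyW
        refine ⟨m, hm, c', ⟨⟨c', hc'⟩, ?_, rfl⟩, rfl⟩
        have e1 := h.mkPsi_eq hJ hm ⟨c', hc'⟩
        rw [Set.mem_preimage, ← e1]
        exact hy
      · rintro ⟨hy, hyW⟩
        refine ⟨?_, hyW⟩
        obtain ⟨m, hm, _, ⟨c, hc, rfl⟩, rfl⟩ := hy
        have e1 := h.mkPsi_eq hJ hm c
        show mkPsi A i ψ (m * c) ∈ t
        rw [e1]; exact hc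

/-- **The invariance theorem**: if no character of `K` lives on `E`, then the orbit closure is
invariant under `K`. -/
theorem Dat.invariant {A K E : Subgroup N} (h : Dat Γ Q Fl L A K E)
    (char : ∀ β : K →* Circle, (∀ a (ha : a ∈ A), β ⟨a, h.hA ha⟩ = 1) →
      (∀ V ∈ 𝓝 (1 : Circle), ∃ U ∈ 𝓝 (1 : N), ∀ e (he : e ∈ E), e ∈ U → β ⟨e, h.hE he⟩ ∈ V) →
      (∀ κ (hκ : κ ∈ K), κ ∈ cl A Γ → β ⟨κ, hκ⟩ = 1) → ∀ e (he : e ∈ E), β ⟨e, h.hE he⟩ = 1) :
    ∀ κ ∈ K, ∀ y ∈ cl A Γ, κ * y ∈ cl A Γ := by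
  have key : ∀ i, ∀ κ ∈ K, ∀ y ∈ cl A (gg Γ Fl i), κ * y ∈ cl A (gg Γ Fl i) := by
    intro i
    induction i with
    | zero =>
      intro κ _ y _
      refine subset_closure ⟨1, one_mem _, κ * y, ?_, by simp⟩
      rw [h.ser.gg_zero]; exact Subgroup.mem_top _
    | succ i ih =>
      intro κ hκ y hy
      have hyW : y ∈ cl A (gg Γ Fl i) := cl_mono le_rfl (h.ser.gg_anti i) hy
      have hκy := ih κ hκ y hyW
      rw [h.ser.cl_eq_mul A i] at hκy
      obtain ⟨m, hm, c, hc, e⟩ := hκy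
      simp only at e
      by_cases hcJ : c ∈ h.ser.J A i
      · rw [← e]; exact h.ser.mul_J hm hcJ
      exfalso
      obtain ⟨ψ, hψ, hψJ, hψc⟩ := h.ser.char_sep A i hc hcJ
      obtain ⟨Ψ, hΨ⟩ : ∃ Ψ, Ψ = mkPsi A i ψ := ⟨_, rfl⟩
      have hD : PsiD Q Γ (gg Γ Fl i) A (cl A (gg Γ Fl i)) ψ Ψ := by
        rw [hΨ]; exact h.ser.mkPsi_psiD hψ hψJ
      have hM : ∀ m ∈ cl A (gg Γ Fl (i + 1)), Ψ m = 1 := by
        intro m hm
        have := h.ser.mkPsi_eq hψJ hm 1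
        rw [map_one] at this
        rw [hΨ, ← this]
        simp
      have l : Lev h (gg Γ Fl i) (cl A (gg Γ Fl i)) ψ Ψ := ⟨hD, le_gg i, rfl, ih⟩
      have h1W := l.one_in
      have hE : ∀ e ∈ E, ∀ y ∈ cl A (gg Γ Fl i), DD Ψ e y = DD Ψ e 1 := fun e he =>
        l.const (h.hE he) (fun a ha y hy => l.all _ (comm_mem_es (j := 0) he (h.hA ha)) y hy)
      let KK : Subgroup N :=
        { carrier := {κ | κ ∈ K ∧ ∀ y ∈ cl A (gg Γ Fl i), DD Ψ κ y = DD Ψ κ 1}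
          mul_mem' := by
            rintro a b ⟨ha, ha'⟩ ⟨hb, hb'⟩
            refine ⟨mul_mem ha hb, fun y hy => ?_⟩
            rw [DD_mul, DD_mul, ha' _ (ih b hb y hy), ha' _ (ih b hb 1 h1W), hb' y hy]
          one_mem' := ⟨one_mem _, fun y _ => by rw [DD_one, DD_one]⟩
          inv_mem' := by
            rintro a ⟨ha, ha'⟩
            have h2 : ∀ y ∈ cl A (gg Γ Fl i), DD Ψ a⁻¹ y = (DD Ψ a 1)⁻¹ := by
              intro y hy
              have h3 := DD_mul Ψ a a⁻¹ y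
              rw [mul_inv_cancel, DD_one, ha' _ (ih a⁻¹ (inv_mem ha) y hy)] at h3
              exact eq_inv_of_mul_eq_one_right h3.symm
            exact ⟨inv_mem ha, fun y hy => by rw [h2 y hy, h2 1 h1W]⟩ }
      have hKK : K ≤ KK := h.gen.trans (sup_le (fun e he => ⟨h.hE he, hE e he⟩)
        (fun a ha => ⟨h.hA ha, fun y hy => by rw [l.DA ha hy, l.DA ha h1W]⟩))
      let β : K →* Circle :=
        { toFun := fun κ => DD Ψ κ 1
          map_one' := by simp [DD_one]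
          map_mul' := by
            intro a b
            show DD Ψ ((a : N) * b) 1 = _
            rw [DD_mul, (hKK a.2).2 _ (ih b b.2 1 h1W)] }
      have hβE := char β (fun a ha => l.DA ha h1W)
        (fun V hV => by
          obtain ⟨U, hU, hU2⟩ := l.small_nbd hV
          exact ⟨U, hU, fun e he heU => hU2 e (h.hE he) heU 1 h1W⟩)
        (fun κ hκ hκ1 => by
          show Ψ (κ * 1) * (Ψ 1)⁻¹ = 1
          have h4 : κ ∈ cl A (gg Γ Fl (i + 1)) := cl_mono le_rfl (le_gg _) hκ1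
          rw [mul_one, hM κ h4, hM 1 (one_mem_cl _ _), inv_one, mul_one])
      let K1 : Subgroup N :=
        { carrier := {κ | ∃ hκ : κ ∈ K, β ⟨κ, hκ⟩ = 1}
          mul_mem' := by
            rintro a b ⟨ha, ha'⟩ ⟨hb, hb'⟩
            refine ⟨mul_mem ha hb, ?_⟩
            have : (⟨a * b, mul_mem ha hb⟩ : K) = ⟨a, ha⟩ * ⟨b, hb⟩ := rfl
            rw [this, map_mul, ha', hb', mul_one]
          one_mem' := ⟨one_mem _, map_one β⟩
          inv_mem' := by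
            rintro a ⟨ha, ha'⟩
            refine ⟨inv_mem ha, ?_⟩
            have : (⟨a⁻¹, inv_mem ha⟩ : K) = ⟨a, ha⟩⁻¹ := rfl
            rw [this, map_inv, ha', inv_one] }
      have hK1 : K ≤ K1 := h.gen.trans (sup_le (fun e he => ⟨h.hE he, hβE e he⟩)
        (fun a ha => ⟨h.hA ha, l.DA ha h1W⟩))
      obtain ⟨_, h5⟩ := hK1 hκ
      have h5' : DD Ψ κ 1 = 1 := h5
      have h6 : DD Ψ κ y = 1 := by rw [(hKK hκ).2 y hyW, h5']
      have h7 : Ψ (κ * y) = ψ ⟨c, hc⟩ := by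
        rw [← e, hΨ]; exact h.ser.mkPsi_eq hψJ hm ⟨c, hc⟩
      rw [DD, h7, hM y hy, inv_one, mul_one] at h6
      exact hψc h6
  intro κ hκ y hy
  have := key L κ hκ y
  rw [h.ser.gg_last] at this
  exact this hy

end Pool.Agent.K6.H55.NS
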