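import Pool.Agent.K6.H55.NS.A6

/-! Orbit closures along progressions. -/

set_option autoImplicit false
set_option linter.unusedSectionVars false

namespace Pool.Agent.K6.H55.NS

open Set Topology Pointwise Filter
open scoped commutatorElement

variable {N : Type*} [Group N]

/-- the group generated by `σ ^ k` and `τ` -/
def AA {σ τ : N} (hc : Commute σ τ) (k : ℤ) : Subgroup N where
  carrier := {x | ∃ n l : ℤ, x = σ ^ (k * n) * τ ^ l}
  mul_mem' := by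
    rintro _ _ ⟨n, l, rfl⟩ ⟨n', l', rfl⟩
    refine ⟨n + n', l + l', ?_⟩
    rw [mul_add, zpow_add, zpow_add, mul_assoc, mul_assoc, ← mul_assoc (τ ^ l),
      ← (hc.zpow_zpow (k * n') l).eq, mul_assoc]
  one_mem' := ⟨0, 0, by simp⟩
  inv_mem' := by
    rintro _ ⟨n, l, rfl⟩
    refine ⟨-n, -l, ?_⟩
    rw [mul_neg, zpow_neg, zpow_neg, mul_inv_rev, ((hc.zpow_zpow (k * n) l).inv_inv).eq]

variable [TopologicalSpace N] [IsTopologicalGroup N] [T2Space N]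
variable {Γ : Subgroup N} {Q : Set N} {Fl : ℕ → Subgroup N} {L : ℕ} {K E : Subgroup N}

section
variable {σ τ : N} (hc : Commute σ τ)

/-- the translates of the orbit closure -/
def TT (Γ : Subgroup N) (k : ℤ) (i : ℤ) : Set N := (fun z => σ ^ i * z) '' cl (AA hc k) Γ

theorem TT_closed (k i : ℤ) : IsClosed (TT hc Γ k i) :=
  (Homeomorph.mulLeft (σ ^ i)).isClosedMap _ isClosed_closure

theorem AA_comm {k i : ℤ} {a : N} (ha : a ∈ AA hc k) : a * σ ^ i = σ ^ i * a := by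
  obtain ⟨n, l, rfl⟩ := ha
  rw [mul_assoc, ← (hc.zpow_zpow i l).eq, ← mul_assoc, ← mul_assoc, ← zpow_add, ← zpow_add,
    add_comm]

theorem TT_inv (k i : ℤ) : Inv (AA hc k) Γ (TT hc Γ k i) where
  left := by
    rintro a ha _ ⟨z, hz, rfl⟩
    refine ⟨a * z, (inv_cl _ _).left a ha z hz, ?_⟩
    show σ ^ i * (a * z) = a * (σ ^ i * z)
    rw [← mul_assoc, ← mul_assoc, AA_comm hc ha]
  right := by
    rintro _ ⟨z, hz, rfl⟩ g hg
    exact ⟨z * g, (inv_cl _ _).right z hz g hg, (mul_assoc _ _ _).symm⟩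

theorem Ser.TT_sub (h : Ser Γ Q Fl L) (k i : ℤ) (hs : TT hc Γ k i ⊆ cl (AA hc k) Γ) :
    TT hc Γ k i = cl (AA hc k) Γ :=
  h.distal _ hs (TT_closed hc k i) (TT_inv hc k i) ⟨_, 1, one_mem_cl _ _, rfl⟩

theorem Ser.TT_eq (h : Ser Γ Q Fl L) (k i : ℤ) (hne : (cl (AA hc k) Γ ∩ TT hc Γ k i).Nonempty) :
    TT hc Γ k i = cl (AA hc k) Γ := by
  have h1 : cl (AA hc k) Γ ∩ TT hc Γ k i = cl (AA hc k) Γ := by
    refine h.distal _ Set.inter_subset_left (isClosed_closure.inter (TT_closed hc k i)) ?_ hne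
    exact ⟨fun a ha z hz => ⟨(inv_cl _ _).left a ha z hz.1, (TT_inv hc k i).left a ha z hz.2⟩,
      fun z hz g hg => ⟨(inv_cl _ _).right z hz.1 g hg, (TT_inv hc k i).right z hz.2 g hg⟩⟩
  have h2 : TT hc Γ k (-i) ⊆ cl (AA hc k) Γ := by
    rintro _ ⟨z, hz, rfl⟩
    rw [← h1] at hz
    obtain ⟨z', hz', e⟩ := hz.2
    simp only at e
    show σ ^ (-i) * z ∈ _
    rw [← e, ← mul_assoc, ← zpow_add, neg_add_cancel, zpow_zero, one_mul]; exact hz'
  have h3 := h.TT_sub hc k (-i) h2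
  apply Set.Subset.antisymm
  · rintro _ ⟨z, hz, rfl⟩
    rw [← h3] at hz
    obtain ⟨z', hz', e⟩ := hz
    simp only at e
    show σ ^ i * z ∈ _
    rw [← e, ← mul_assoc, ← zpow_add, add_neg_cancel, zpow_zero, one_mul]; exact hz'
  · intro z hz
    rw [← h1] at hz
    exact hz.2

theorem cl_AA_one (k : ℤ) (hk : 0 < k) :
    ∀ y ∈ cl (AA hc 1) Γ, ∃ r : ℤ, 0 ≤ r ∧ r < k ∧ y ∈ TT hc Γ k r := by
  have h1 : cl (AA hc 1) Γ ⊆ ⋃ r ∈ Finset.Ico (0 : ℤ) k, TT hc Γ k r := by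
    refine cl_subset ?_ ?_ ?_
    · exact (Finset.Ico (0 : ℤ) k).finite_toSet.isClosed_biUnion (fun r _ => TT_closed hc k r)
    · constructor
      · rintro _ ⟨n, l, rfl⟩ y hy
        simp only [Set.mem_iUnion] at hy ⊢
        obtain ⟨r, hr, z, hz, rfl⟩ := hy
        refine ⟨(n + r) % k, Finset.mem_Ico.2 ⟨Int.emod_nonneg _ hk.ne', Int.emod_lt_of_pos _ hk⟩,
          σ ^ (k * ((n + r) / k)) * τ ^ l * z,
          (inv_cl (AA hc k) Γ).left _ ⟨(n + r) / k, l, rfl⟩ z hz, ?_⟩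
        show σ ^ ((n + r) % k) * (σ ^ (k * ((n + r) / k)) * τ ^ l * z) = _ * (σ ^ r * z)
        rw [one_mul, ← mul_assoc, ← mul_assoc, ← zpow_add, Int.emod_add_mul_ediv, zpow_add,
          mul_assoc (σ ^ n), (hc.zpow_zpow r l).eq]
        simp only [mul_assoc]
      · intro z hz g hg
        simp only [Set.mem_iUnion] at hz ⊢
        obtain ⟨r, hr, hz⟩ := hz
        exact ⟨r, hr, (TT_inv hc k r).right z hz g hg⟩
    · simp only [Set.mem_iUnion]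
      exact ⟨0, Finset.mem_Ico.2 ⟨le_rfl, hk⟩, 1, one_mem_cl _ _, by simp⟩
  intro y hy
  have := h1 hy
  simp only [Set.mem_iUnion] at this
  obtain ⟨r, hr, h2⟩ := this
  exact ⟨r, (Finset.mem_Ico.1 hr).1, (Finset.mem_Ico.1 hr).2, h2⟩

/-- small elements preserve the orbit closure of `σ ^ k` -/
theorem Dat.small_pres (h : Dat Γ Q Fl L (AA hc 1) K E)
    (inv : ∀ κ ∈ K, ∀ y ∈ cl (AA hc 1) Γ, κ * y ∈ cl (AA hc 1) Γ) (k : ℤ) (hk : 0 < k) :
    ∀ e ∈ E, ∀ y ∈ cl (AA hc k) Γ, e * y ∈ cl (AA hc k) Γ := by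
  have hle : cl (AA hc k) Γ ⊆ cl (AA hc 1) Γ := by
    refine cl_mono ?_ le_rfl
    rintro _ ⟨n, l, rfl⟩
    exact ⟨k * n, l, by rw [one_mul]⟩
  obtain ⟨S, hS⟩ : ∃ S : Set N, S = ⋃ r ∈ (Finset.Ico (0 : ℤ) k : Set ℤ) ∩ {r | TT hc Γ k r ≠ cl (AA hc k) Γ},
    TT hc Γ k r := ⟨_, rfl⟩
  have hSc : IsClosed S := by
    rw [hS]
    exact ((Finset.Ico (0 : ℤ) k).finite_toSet.inter_of_left _).isClosed_biUnion
      (fun r _ => TT_closed hc k r)
  have hSd : ∀ y ∈ cl (AA hc k) Γ, y ∉ S := by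
    intro y hy hyS
    rw [hS] at hyS
    simp only [Set.mem_iUnion] at hyS
    obtain ⟨r, hr, hyr⟩ := hyS
    exact hr.2 (h.ser.TT_eq hc k r ⟨y, hy, hyr⟩)
  have hev : ∀ᶠ e in 𝓝 (1 : N), ∀ q ∈ Q ∩ cl (AA hc k) Γ, e * q ∉ S := by
    refine (h.ser.comp.inter_right isClosed_closure).eventually_forall_of_forall_eventually
      (P := fun e q => e * q ∉ S) ?_
    intro q hq
    have h1 : Tendsto (fun p : N × N => p.1 * p.2) (𝓝 (1, q)) (𝓝 q) := by
      have := (continuous_mul (M := N)).tendsto (1, q)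
      simpa using this
    exact h1 (hSc.isOpen_compl.mem_nhds (hSd q hq.2))
  have hP : ∀ e ∈ K, (∀ q ∈ Q ∩ cl (AA hc k) Γ, e * q ∉ S) → ∀ y ∈ cl (AA hc k) Γ,
      e * y ∈ cl (AA hc k) Γ := by
    intro e he hq y hy
    obtain ⟨q, hqQ, γ, hγ, rfl⟩ := h.ser.cov y
    have hqM : q ∈ cl (AA hc k) Γ := by
      have := (inv_cl (AA hc k) Γ).right _ hy γ⁻¹ (inv_mem hγ)
      rwa [mul_inv_cancel_right] at this
    have h2 := hq q ⟨hqQ, hqM⟩
    obtain ⟨r, hr0, hr1, hr2⟩ := cl_AA_one hc k hk _ (inv e he q (hle hqM))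
    have h3 : e * q ∈ cl (AA hc k) Γ := by
      by_contra h4
      apply h2
      rw [hS]
      simp only [Set.mem_iUnion]
      refine ⟨r, ⟨by simpa using ⟨hr0, hr1⟩, ?_⟩, hr2⟩
      intro h5
      rw [h5] at hr2
      exact h4 hr2
    rw [← mul_assoc]
    exact (inv_cl _ _).right _ h3 γ hγ
  let H' : Subgroup N :=
    { carrier := {e | (∀ y ∈ cl (AA hc k) Γ, e * y ∈ cl (AA hc k) Γ) ∧
        (∀ y ∈ cl (AA hc k) Γ, e⁻¹ * y ∈ cl (AA hc k) Γ)}
      mul_mem' := by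
        rintro a b ⟨ha, ha'⟩ ⟨hb, hb'⟩
        exact ⟨fun y hy => by rw [mul_assoc]; exact ha _ (hb y hy),
          fun y hy => by rw [mul_inv_rev, mul_assoc]; exact hb' _ (ha' y hy)⟩
      one_mem' := ⟨fun y hy => by rwa [one_mul], fun y hy => by rwa [inv_one, one_mul]⟩
      inv_mem' := by
        rintro a ⟨ha, ha'⟩
        exact ⟨ha', by rwa [inv_inv]⟩ }
  have hEH : E ≤ H' := by
    refine h.small H' ?_
    have hinv : Tendsto (fun e : N => e⁻¹) (𝓝 1) (𝓝 1) := by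
      have := (continuous_inv (G := N)).tendsto 1
      simpa using this
    have h6 := hinv.eventually hev
    refine ⟨_, hev.and h6, fun e he heU => ⟨hP e (h.hE he) heU.1, hP e⁻¹ (inv_mem (h.hE he)) heU.2⟩⟩
  exact fun e he => (hEH he).1

/-- the forward orbit is dense -/
theorem Ser.forward (h : Ser Γ Q Fl L) (k : ℤ) (m : ℤ) :
    cl (AA hc k) Γ ⊆ closure {x | ∃ n l : ℤ, m ≤ n ∧ ∃ γ ∈ Γ, x = σ ^ (k * n) * τ ^ l * γ} := by
  obtain ⟨Z, hZ⟩ : ∃ Z : ℤ → Set N, Z = fun m => closure {x | ∃ n l : ℤ, m ≤ n ∧ ∃ γ ∈ Γ,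
    x = σ ^ (k * n) * τ ^ l * γ} := ⟨_, rfl⟩
  have hmono : ∀ m m', m ≤ m' → Z m' ⊆ Z m := by
    intro m m' hm
    rw [hZ]
    refine closure_mono ?_
    rintro x ⟨n, l, hn, γ, hγ, rfl⟩
    exact ⟨n, l, hm.trans hn, γ, hγ, rfl⟩
  have hr : ∀ m, ∀ z ∈ Z m, ∀ g ∈ Γ, z * g ∈ Z m := by
    intro m z hz g hg
    rw [hZ] at hz ⊢
    refine map_mem_closure (f := fun x => x * g) (by fun_prop) hz ?_
    rintro _ ⟨n, l, hn, γ, hγ, rfl⟩
    exact ⟨n, l, hn, γ * g, mul_mem hγ hg, by simp [mul_assoc]⟩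
  have hl : ∀ m, ∀ n' l' : ℤ, ∀ z ∈ Z m, σ ^ (k * n') * τ ^ l' * z ∈ Z (m + n') := by
    intro m n' l' z hz
    rw [hZ] at hz ⊢
    refine map_mem_closure (f := fun x => σ ^ (k * n') * τ ^ l' * x) (by fun_prop) hz ?_
    rintro _ ⟨n, l, hn, γ, hγ, rfl⟩
    refine ⟨n' + n, l' + l, by omega, γ, hγ, ?_⟩
    show σ ^ (k * n') * τ ^ l' * (σ ^ (k * n) * τ ^ l * γ) = _
    rw [mul_add, zpow_add, zpow_add, ← mul_assoc, ← mul_assoc, mul_assoc (σ ^ (k * n')),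
      ← (hc.zpow_zpow (k * n) l').eq]
    simp only [mul_assoc]
  have hne : (⋂ m : ℤ, Z m ∩ Q).Nonempty := by
    refine IsCompact.nonempty_iInter_of_directed_nonempty_isCompact_isClosed _ ?_ ?_ ?_ ?_
    · intro s t
      exact ⟨max s t, Set.inter_subset_inter_left _ (hmono _ _ (le_max_left _ _)),
        Set.inter_subset_inter_left _ (hmono _ _ (le_max_right _ _))⟩
    · intro s
      have hz : σ ^ (k * s) ∈ Z s := by
        rw [hZ]
        exact subset_closure ⟨s, 0, le_rfl, 1, one_mem _, by simp⟩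
      obtain ⟨q, hq, γ, hγ, e⟩ := h.cov (σ ^ (k * s))
      refine ⟨q, ?_, hq⟩
      have := hr s _ hz γ⁻¹ (inv_mem hγ)
      rwa [e, mul_inv_cancel_right] at this
    · intro s
      refine h.comp.inter_left ?_
      rw [hZ]; exact isClosed_closure
    · intro s
      refine IsClosed.inter ?_ h.comp.isClosed
      rw [hZ]; exact isClosed_closure
  have hsub : ∀ m, Z m ⊆ cl (AA hc k) Γ := by
    intro m
    rw [hZ]
    refine closure_minimal ?_ isClosed_closure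
    rintro _ ⟨n, l, hn, γ, hγ, rfl⟩
    exact subset_closure ⟨_, ⟨n, l, rfl⟩, γ, hγ, rfl⟩
  have heq := h.distal (AA hc k) (Z := ⋂ m : ℤ, Z m) ((Set.iInter_subset _ 0).trans (hsub 0))
    (isClosed_iInter fun m => by rw [hZ]; exact isClosed_closure)
    ⟨by
      rintro _ ⟨n, l, rfl⟩ z hz
      rw [Set.mem_iInter] at hz ⊢
      intro m
      have := hl (m - n) n l z (hz (m - n))
      rwa [sub_add_cancel] at this, fun z hz g hg => by
      rw [Set.mem_iInter] at hz ⊢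
      exact fun m => hr m z (hz m) g hg⟩
    (by
      obtain ⟨z, hz⟩ := hne
      rw [Set.mem_iInter] at hz
      exact ⟨z, Set.mem_iInter.2 fun m => (hz m).1⟩)
  rw [← heq]
  refine (Set.iInter_subset _ m).trans ?_
  rw [hZ]

/-- **Returns along progressions.** -/
theorem Dat.final (h : Dat Γ Q Fl L (AA hc 1) K E)
    (inv : ∀ κ ∈ K, ∀ y ∈ cl (AA hc 1) Γ, κ * y ∈ cl (AA hc 1) Γ)
    (hσ : ∃ ε ∈ E, ∃ γ ∈ Γ, σ = ε * γ) (k : ℤ) (hk : 0 < k) (j : ℤ) {U : Set N} (hU : U ∈ 𝓝 (1 : N)) :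
    ∃ n l : ℤ, 1 ≤ n ∧ ∃ γ ∈ Γ, σ ^ (k * n + j) * τ ^ l * γ ∈ U := by
  have h1 : ∀ i : ℤ, TT hc Γ k i = cl (AA hc k) Γ := by
    have h0 : TT hc Γ k 1 = cl (AA hc k) Γ := by
      refine h.ser.TT_eq hc k 1 ⟨σ, ?_, 1, one_mem_cl _ _, by simp⟩
      obtain ⟨ε, hε, γ, hγ, e⟩ := hσ
      have h6 : ε * γ ∈ cl (AA hc k) Γ := by
        refine h.small_pres hc inv k hk ε hε γ ?_
        have := (inv_cl (AA hc k) Γ).right 1 (one_mem_cl _ _) γ hγ
        rwa [one_mul] at this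
      rwa [← e] at h6
    have hs : ∀ z, z ∈ cl (AA hc k) Γ → σ * z ∈ cl (AA hc k) Γ := by
      intro z hz
      rw [← h0]
      exact ⟨z, hz, by simp⟩
    have hs' : ∀ z, z ∈ cl (AA hc k) Γ → σ⁻¹ * z ∈ cl (AA hc k) Γ := by
      intro z hz
      rw [← h0] at hz
      obtain ⟨z', hz', e⟩ := hz
      simp only [zpow_one] at e
      rwa [← e, inv_mul_cancel_left]
    intro i
    refine h.ser.TT_sub hc k i ?_
    rintro _ ⟨z, hz, rfl⟩
    show σ ^ i * z ∈ _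
    induction i using Int.induction_on with
    | zero => simpa using hz
    | succ i ih =>
      rw [add_comm, zpow_add, zpow_one, mul_assoc]; exact hs _ ih
    | pred i ih =>
      rw [sub_eq_add_neg, add_comm, zpow_add, zpow_neg, zpow_one, mul_assoc]; exact hs' _ ih
  have h2 : σ ^ (-j) ∈ cl (AA hc k) Γ := by
    rw [← h1 (-j)]
    exact ⟨1, one_mem_cl _ _, by simp⟩
  have h3 := h.ser.forward hc k 1 h2
  have h4 : {x : N | σ ^ j * x ∈ U} ∈ 𝓝 (σ ^ (-j)) := by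
    have h5 : Tendsto (fun x : N => σ ^ j * x) (𝓝 (σ ^ (-j))) (𝓝 1) := by
      have := (continuous_const_mul (σ ^ j)).tendsto (σ ^ (-j))
      rwa [← zpow_add, add_neg_cancel, zpow_zero] at this
    exact h5 hU
  obtain ⟨x, hx, n, l, hn, γ, hγ, rfl⟩ := mem_closure_iff_nhds.1 h3 _ h4
  refine ⟨n, l, hn, γ, hγ, ?_⟩
  have hx' : σ ^ j * (σ ^ (k * n) * τ ^ l * γ) ∈ U := hx
  rwa [← mul_assoc, ← mul_assoc, ← zpow_add, add_comm] at hx'

end

end Pool.Agent.K6.H55.NS
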