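import Mathlib
import Pool.Agent.Helper28.LCN.Seq

/-! Polynomial sequences with values in a filtered group. -/

set_option autoImplicit false
set_option linter.unusedSectionVars false

namespace Pool.Agent.K6.H55.NS

open Pool.Agent.Helper28.LCN
open scoped commutatorElement

/-- integer sequences all of whose `k`-fold differences vanish -/
def DegLT : ℕ → (ℤ → ℤ) → Prop
  | 0, u => ∀ t, u t = 0
  | k + 1, u => ∀ s, DegLT k (fun t => u (t + s) - u t)

theorem DegLT.div {c : ℤ} (hc : c ≠ 0) : ∀ (k : ℕ) (u : ℤ → ℤ), DegLT k (fun t => c * u t) → DegLT k u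
  | 0, u, h => fun t => (mul_eq_zero.1 (h t)).resolve_left hc
  | k + 1, u, h => fun s => by
    refine DegLT.div hc k _ ?_
    have := h s
    simp only [← mul_sub] at this
    exact this

theorem degLT_poly : ∀ (k : ℕ) (p : Polynomial ℤ), (p = 0 ∨ p.natDegree < k) → DegLT k (fun t => p.eval t)
  | 0, p, h => fun t => by
    rcases h with h | h
    · simp [h]
    · omega
  | k + 1, p, h => fun s => by
    have e : (fun t => p.eval (t + s) - p.eval t) = fun t => (Polynomial.taylor s p - p).eval t := by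
      funext t
      rw [Polynomial.eval_sub, Polynomial.taylor_eval]
    rw [e]
    refine degLT_poly k _ ?_
    rcases h with h | h
    · left; simp [h]
    by_cases hp : p = 0
    · left; simp [hp]
    by_cases hz : Polynomial.taylor s p - p = 0
    · exact Or.inl hz
    right
    have h1 : (Polynomial.taylor s p - p).degree < (Polynomial.taylor s p).degree := by
      refine Polynomial.degree_sub_lt_left ?_ ?_ ?_
      · rw [Polynomial.degree_taylor]
      · exact (Polynomial.taylor_eq_zero (r := s) (f := p)).not.2 hp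
      · rw [Polynomial.leadingCoeff_taylor]
    rw [Polynomial.degree_taylor] at h1
    have h2 := Polynomial.natDegree_lt_natDegree hz h1
    omega

theorem degLT_choose (l : ℕ) : DegLT (l + 1) (fun t => Ring.choose t l) := by
  refine DegLT.div (c := (l.factorial : ℤ)) (by positivity) _ _ ?_
  have e : (fun t : ℤ => (l.factorial : ℤ) * Ring.choose t l) = fun t => (descPochhammer ℤ l).eval t := by
    funext t
    rw [Polynomial.eval_eq_smeval, Ring.descPochhammer_eq_factorial_smul_choose, nsmul_eq_mul]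
  rw [e]
  exact degLT_poly _ _ (Or.inr (by rw [descPochhammer_natDegree]; omega))

theorem degLT_mono {k : ℕ} : ∀ {u : ℤ → ℤ}, DegLT k u → DegLT (k + 1) u := by
  induction k with
  | zero => intro u h s t; simp [h _]
  | succ k ih => intro u h s; exact ih (h s)

variable {G : Type} [Group G]

/-- polynomial sequences -/
def PP (Φ : ℕ → Subgroup G) (i : ℕ) (f : ℤ → G) : Prop := ∀ m, Q Φ m i f

/-- a filtration -/
structure Fil0 (Φ : ℕ → Subgroup G) : Prop where
  anti : ∀ i, Φ (i + 1) ≤ Φ i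
  comm : ∀ i j, ∀ a ∈ Φ i, ∀ b ∈ Φ j, ⁅a, b⁆ ∈ Φ (i + j)

variable {Φ : ℕ → Subgroup G}

theorem PP.val {i : ℕ} {f : ℤ → G} (h : PP Φ i f) (n : ℤ) : f n ∈ Φ i := h 0 n

theorem PP.dd {i : ℕ} {f : ℤ → G} (h : PP Φ i f) (s : ℤ) : PP Φ (i + 1) (dd s f) :=
  fun m => (h (m + 1)).2 s

theorem PP_iff {i : ℕ} {f : ℤ → G} :
    PP Φ i f ↔ (∀ n, f n ∈ Φ i) ∧ ∀ s, PP Φ (i + 1) (Pool.Agent.Helper28.LCN.dd s f) := by
  refine ⟨fun h => ⟨h.val, fun s => h.dd s⟩, fun h m => ?_⟩
  cases m with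
  | zero => exact h.1
  | succ m => exact ⟨h.1, fun s => h.2 s m⟩

section
variable (hΦ : Fil0 Φ)
include hΦ

theorem Fil0.PP_mul {i : ℕ} {f g : ℤ → G} (hf : PP Φ i f) (hg : PP Φ i g) :
    PP Φ i (fun n => f n * g n) := fun m => (Q_all Φ hΦ.anti hΦ.comm m).1 i f g (hf m) (hg m)

theorem Fil0.PP_inv {i : ℕ} {f : ℤ → G} (hf : PP Φ i f) : PP Φ i (fun n => (f n)⁻¹) :=
  fun m => (Q_all Φ hΦ.anti hΦ.comm m).2.1 i f (hf m)

theorem Fil0.PP_le {i j : ℕ} (h : i ≤ j) {f : ℤ → G} (hf : PP Φ j f) : PP Φ i f :=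
  fun m => Q_le Φ hΦ.anti m h f (hf m)

theorem Fil0.PP_comm {i j : ℕ} {f g : ℤ → G} (hf : PP Φ i f) (hg : PP Φ j g) :
    PP Φ (i + j) (fun n => ⁅f n, g n⁆) := fun m => (Q_all Φ hΦ.anti hΦ.comm m).2.2 i j f g (hf m) (hg m)

theorem Fil0.PP_conj {i j : ℕ} {f g : ℤ → G} (hf : PP Φ i f) (hg : PP Φ j g) :
    PP Φ j (fun n => f n * g n * (f n)⁻¹) := by
  have e : (fun n => f n * g n * (f n)⁻¹) = fun n => ⁅f n, g n⁆ * g n := by
    funext n; rw [commutatorElement_def]; group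
  rw [e]
  exact hΦ.PP_mul (hΦ.PP_le (by omega) (hΦ.PP_comm hf hg)) hg

theorem Fil0.PP_shift {i : ℕ} {f : ℤ → G} (hf : PP Φ i f) (s : ℤ) : PP Φ i (fun n => f (n + s)) := by
  have e : (fun n => f (n + s)) = fun n => dd s f n * f n := by
    funext n; simp [Pool.Agent.Helper28.LCN.dd]
  rw [e]
  exact hΦ.PP_mul (hΦ.PP_le (by omega) (hf.dd s)) hf

omit hΦ in
theorem PP_one {i : ℕ} : PP Φ i (fun _ => 1) := by
  intro m
  induction m generalizing i with
  | zero => exact fun _ => one_mem _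
  | succ m ih =>
    refine ⟨fun _ => one_mem _, fun s => ?_⟩
    have e : Pool.Agent.Helper28.LCN.dd s (fun _ => (1 : G)) = fun _ => 1 := by
      funext n; simp [Pool.Agent.Helper28.LCN.dd]
    rw [e]; exact ih

theorem Fil0.le {i j : ℕ} (h : i ≤ j) : Φ j ≤ Φ i := by
  obtain ⟨k, rfl⟩ := Nat.exists_eq_add_of_le h
  induction k with
  | zero => exact le_rfl
  | succ k ih => exact (hΦ.anti (i + k)).trans (ih (by omega))

/-- powers of a fixed element -/
theorem Fil0.PP_pow (k : ℕ) : ∀ {i : ℕ} {a : G} (_ : a ∈ Φ (i + k)) {u : ℤ → ℤ}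
    (_ : DegLT (k + 1) u), PP Φ i (fun t => a ^ u t) := by
  induction k with
  | zero =>
    intro i a ha u hu
    rw [PP_iff]
    refine ⟨fun n => zpow_mem ha _, fun s => ?_⟩
    have e : Pool.Agent.Helper28.LCN.dd s (fun t => a ^ u t) = fun _ => 1 := by
      funext t
      have h1 : u (t + s) - u t = 0 := hu s t
      simp only [Pool.Agent.Helper28.LCN.dd]
      rw [← zpow_neg, ← zpow_add, ← sub_eq_add_neg, h1, zpow_zero]
    rw [e]; exact PP_one
  | succ k ih =>
    intro i a ha u hu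
    rw [PP_iff]
    refine ⟨fun n => zpow_mem (hΦ.le (by omega) ha) _, fun s => ?_⟩
    have e : Pool.Agent.Helper28.LCN.dd s (fun t => a ^ u t) = fun t => a ^ (u (t + s) - u t) := by
      funext t
      simp only [Pool.Agent.Helper28.LCN.dd]
      rw [← zpow_neg, ← zpow_add, ← sub_eq_add_neg]
    rw [e]
    exact ih (i := i + 1) (by rwa [show i + 1 + k = i + (k + 1) by ring]) (hu s)

omit hΦ in
theorem PP_RR (D : ℕ) : ∀ {i : ℕ} {f : ℤ → G}, PP Φ i f → Φ (i + D) = ⊥ → RR D f := by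
  induction D with
  | zero =>
    intro i f h hb n
    have := h.val n
    rw [add_zero] at hb
    rwa [hb, Subgroup.mem_bot] at this
  | succ D ih =>
    intro i f h hb s
    exact ih (h.dd s) (by rwa [show i + 1 + D = i + (D + 1) by ring])

omit hΦ in
/-- a polynomial sequence that vanishes at `0, …, j - 1` has a small value at `j` -/
theorem PP_vanish (j : ℕ) : ∀ {i : ℕ} {f : ℤ → G}, PP Φ i f → (∀ l : ℕ, l < j → f l = 1) →
    f j ∈ Φ (i + j) := by
  induction j with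
  | zero => intro i f h _; exact h.val _
  | succ j ih =>
    intro i f h h0
    have h1 := ih (h.dd 1) (fun l hl => by
      have e1 := h0 l (by omega)
      have e2 := h0 (l + 1) (by omega)
      push_cast at e2
      simp [Pool.Agent.Helper28.LCN.dd, e1, e2])
    have e1 := h0 j (by omega)
    simp only [Pool.Agent.Helper28.LCN.dd, e1, inv_one, mul_one] at h1
    rw [show i + 1 + j = i + (j + 1) by ring] at h1
    push_cast
    exact h1

end

variable [TopologicalSpace G] [IsTopologicalGroup G]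

/-- the data of a rational filtration -/
structure Fil (Φ : ℕ → Subgroup G) (Γ : Subgroup G) (Qs : ℕ → Set G) (D : ℕ) : Prop extends Fil0 Φ where
  bot : Φ (1 + D) = ⊥
  closed : ∀ i, IsClosed (Φ i : Set G)
  comp : ∀ i, IsCompact (Qs i)
  cov : ∀ i, ∀ x ∈ Φ i, ∃ q ∈ Qs i, ∃ γ ∈ Γ, γ ∈ Φ i ∧ x = q * γ
  gclosed : IsClosed (Γ : Set G)

/-- the compact sets of Taylor polynomials -/
def KK (Qs : ℕ → Set G) : ℕ → Set (ℤ → G)
  | 0 => {fun _ => 1}
  | j + 1 => (fun p : (ℤ → G) × G => fun t : ℤ => p.1 t * p.2 ^ (Ring.choose t j)) '' (KK Qs j ×ˢ Qs (1 + j))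

theorem isCompact_KK {Qs : ℕ → Set G} (h : ∀ i, IsCompact (Qs i)) (j : ℕ) : IsCompact (KK Qs j) := by
  induction j with
  | zero => exact isCompact_singleton
  | succ j ih => exact (ih.prod (h (1 + j))).image (by fun_prop)

variable {Γ : Subgroup G} {Qs : ℕ → Set G} {D : ℕ}

theorem Fil.taylor (h : Fil Φ Γ Qs D) (j : ℕ) {f : ℤ → G} (hf : PP Φ 1 f) :
    ∃ κ ∈ KK Qs j, ∃ g, PP Φ 1 g ∧ (∀ l : ℕ, l < j → g l = 1) ∧ ∃ γ : ℤ → G, PP Φ 1 γ ∧
      (∀ t, γ t ∈ Γ) ∧ ∀ t, f t = κ t * g t * γ t := by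
  induction j with
  | zero =>
    exact ⟨_, rfl, f, hf, fun l hl => by omega, _, PP_one, fun _ => one_mem _, fun t => by simp⟩
  | succ j ih =>
    obtain ⟨κ, hκ, g, hg, hg0, γ, hγ, hγΓ, e⟩ := ih
    obtain ⟨q, hq, δ, hδ, hδΦ, e1⟩ := h.cov (1 + j) (g j) (PP_vanish j hg hg0)
    have hqΦ : q ∈ Φ (1 + j) := by
      have : q = g j * δ⁻¹ := by rw [e1, mul_inv_cancel_right]
      rw [this]
      exact mul_mem (PP_vanish j hg hg0) (inv_mem hδΦ)
    have hb := degLT_choose j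
    have hqp := h.toFil0.PP_pow j hqΦ hb
    have hδp := h.toFil0.PP_pow j hδΦ hb
    refine ⟨fun t => κ t * q ^ (Ring.choose t j), ⟨(κ, q), ⟨hκ, hq⟩, rfl⟩,
      fun t => ((q ^ (Ring.choose t j))⁻¹ * g t) * (δ ^ (Ring.choose t j))⁻¹,
      h.toFil0.PP_mul (h.toFil0.PP_mul (h.toFil0.PP_inv hqp) hg) (h.toFil0.PP_inv hδp), ?_,
      fun t => δ ^ (Ring.choose t j) * γ t, h.toFil0.PP_mul hδp hγ,
      fun t => mul_mem (zpow_mem hδ _) (hγΓ t), ?_⟩
    · intro l hl
      simp only [Ring.choose_natCast]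
      rcases Nat.lt_succ_iff_lt_or_eq.1 hl with hl | rfl
      · rw [Nat.choose_eq_zero_of_lt hl, hg0 l hl]; simp
      · rw [Nat.choose_self, e1]; simp
    · intro t
      rw [e t]; group

theorem Fil.factor (h : Fil Φ Γ Qs D) {f : ℤ → G} (hf : PP Φ 1 f) :
    ∃ κ ∈ KK Qs D, ∃ γ : ℤ → G, PP Φ 1 γ ∧ (∀ t, γ t ∈ Γ) ∧ ∀ t, f t = κ t * γ t := by
  obtain ⟨κ, hκ, g, hg, hg0, γ, hγ, hγΓ, e⟩ := h.taylor D hf
  have h1 := zeros_init D g (PP_RR D hg h.bot) hg0
  exact ⟨κ, hκ, γ, hγ, hγΓ, fun t => by rw [e t, h1 t, mul_one]⟩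

theorem isClosed_PP (hc : ∀ i, IsClosed (Φ i : Set G)) (i : ℕ) : IsClosed {f : ℤ → G | PP Φ i f} := by
  have h1 : ∀ m i, IsClosed {f : ℤ → G | Q Φ m i f} := by
    intro m
    induction m with
    | zero =>
      intro i
      have : {f : ℤ → G | Q Φ 0 i f} = ⋂ n : ℤ, {f | f n ∈ Φ i} := by
        ext f; simp [Q]
      rw [this]
      exact isClosed_iInter fun n => (hc i).preimage (continuous_apply n)
    | succ m ih =>
      intro i
      have : {f : ℤ → G | Q Φ (m + 1) i f} = (⋂ n : ℤ, {f | f n ∈ Φ i}) ∩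
          ⋂ s : ℤ, (dd s) ⁻¹' {f | Q Φ m (i + 1) f} := by
        ext f; simp [Q]
      rw [this]
      refine (isClosed_iInter fun n => (hc i).preimage (continuous_apply n)).inter
        (isClosed_iInter fun s => (ih (i + 1)).preimage ?_)
      unfold dd
      fun_prop
  have : {f : ℤ → G | PP Φ i f} = ⋂ m, {f | Q Φ m i f} := by
    ext f; simp [PP]
  rw [this]
  exact isClosed_iInter fun m => h1 m i

end Pool.Agent.K6.H55.NS
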