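import Pool.Agent.K6.H55.NS.B1
import Pool.Agent.K6.H55.NS.A7

/-! The nilmanifold of polynomial sequences. -/

set_option autoImplicit false
set_option linter.unusedSectionVars false

namespace Pool.Agent.K6.H55.NS

open Set Topology Pointwise Filter
open Pool.Agent.Helper28.LCN
open scoped commutatorElement

/-- sequences with a shift -/
@[ext] structure Sg (ι : Type) (G : Type) where
  f : ι → ℤ → G
  n : ℤ

variable {ι G : Type} [Group G]

namespace Sg

instance : Mul (Sg ι G) := ⟨fun a b => ⟨fun i t => a.f i t * b.f i (t + a.n), a.n + b.n⟩⟩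
instance : One (Sg ι G) := ⟨⟨fun _ _ => 1, 0⟩⟩
instance : _root_.Inv (Sg ι G) := ⟨fun a => ⟨fun i t => (a.f i (t - a.n))⁻¹, -a.n⟩⟩

@[simp] theorem mul_f (a b : Sg ι G) (i : ι) (t : ℤ) : (a * b).f i t = a.f i t * b.f i (t + a.n) := rfl
@[simp] theorem mul_n (a b : Sg ι G) : (a * b).n = a.n + b.n := rfl
@[simp] theorem one_f (i : ι) (t : ℤ) : (1 : Sg ι G).f i t = 1 := rfl
@[simp] theorem one_n : (1 : Sg ι G).n = 0 := rfl
@[simp] theorem inv_f (a : Sg ι G) (i : ι) (t : ℤ) : (a⁻¹).f i t = (a.f i (t - a.n))⁻¹ := rfl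
@[simp] theorem inv_n (a : Sg ι G) : (a⁻¹).n = -a.n := rfl

theorem ext' {a b : Sg ι G} (h : ∀ i t, a.f i t = b.f i t) (h' : a.n = b.n) : a = b :=
  Sg.ext (by funext i t; exact h i t) h'

instance : Group (Sg ι G) where
  mul_assoc a b c := ext' (fun i t => by simp [mul_assoc, add_assoc]) (by simp [add_assoc])
  one_mul a := ext' (fun i t => by simp) (by simp)
  mul_one a := ext' (fun i t => by simp) (by simp)
  inv_mul_cancel a := ext' (fun i t => by simp [← sub_eq_add_neg]) (by simp)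

variable [TopologicalSpace G]

/-- the underlying pair -/
def pr (a : Sg ι G) : (ι → ℤ → G) × ℤ := (a.f, a.n)

instance : TopologicalSpace (Sg ι G) := TopologicalSpace.induced pr inferInstance

theorem isEmbedding_pr : IsEmbedding (pr : Sg ι G → _) :=
  ⟨⟨rfl⟩, fun a b h => Sg.ext (congrArg Prod.fst h) (congrArg Prod.snd h)⟩

theorem continuous_f (i : ι) (t : ℤ) : Continuous fun a : Sg ι G => a.f i t :=
  (continuous_apply t).comp ((continuous_apply i).comp
    (continuous_fst.comp isEmbedding_pr.continuous))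

theorem continuous_n : Continuous fun a : Sg ι G => a.n :=
  continuous_snd.comp isEmbedding_pr.continuous

theorem continuous_iff {Y : Type*} [TopologicalSpace Y] {φ : Y → Sg ι G} :
    Continuous φ ↔ (∀ i t, Continuous fun y => (φ y).f i t) ∧ Continuous fun y => (φ y).n := by
  constructor
  · exact fun h => ⟨fun i t => (continuous_f i t).comp h, continuous_n.comp h⟩
  · rintro ⟨h1, h2⟩
    rw [isEmbedding_pr.continuous_iff]
    exact (continuous_pi fun i => continuous_pi fun t => h1 i t).prodMk h2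

theorem continuous_eval_shift {Y : Type*} [TopologicalSpace Y] {φ : Y → Sg ι G} (h : Continuous φ)
    {u : Y → ℤ} (hu : Continuous u) (i : ι) : Continuous fun y => (φ y).f i (u y) := by
  rw [continuous_iff_continuousAt]
  intro y
  have h1 : ∀ᶠ z in 𝓝 y, u z = u y := hu.tendsto y (by simp : {u y} ∈ 𝓝 (u y))
  have h2 : ContinuousAt (fun z => (φ z).f i (u y)) y := ((continuous_f i (u y)).comp h).continuousAt
  refine h2.congr ?_
  filter_upwards [h1] with z hz
  rw [hz]

instance [T2Space G] : T2Space (Sg ι G) := isEmbedding_pr.t2Space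

instance [IsTopologicalGroup G] : IsTopologicalGroup (Sg ι G) where
  continuous_mul := by
    rw [continuous_iff]
    refine ⟨fun i t => ?_, ?_⟩
    · refine ((continuous_f i t).comp continuous_fst).mul ?_
      exact continuous_eval_shift continuous_snd
        (continuous_const.add (continuous_n.comp continuous_fst)) i
    · exact (continuous_n.comp continuous_fst).add (continuous_n.comp continuous_snd)
  continuous_inv := by
    rw [continuous_iff]
    refine ⟨fun i t => ?_, ?_⟩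
    · exact (continuous_eval_shift (φ := fun a : Sg ι G => a) continuous_id (u := fun a => t - a.n) (continuous_const.sub continuous_n) i).inv
    · exact (continuous_n (ι := ι) (G := G)).neg

end Sg

variable {Φ : ℕ → Subgroup G}

/-- the group of polynomial sequences with shift -/
def NN (ι : Type) (hΦ : Fil0 Φ) : Subgroup (Sg ι G) where
  carrier := {a | ∀ i, PP Φ 1 (a.f i)}
  mul_mem' := fun {a b} ha hb i => hΦ.PP_mul (ha i) (hΦ.PP_shift (hb i) a.n)
  one_mem' := fun _ => PP_one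
  inv_mem' := fun {a} ha i => hΦ.PP_inv (hΦ.PP_shift (ha i) (-a.n))

/-- the filtration -/
def FF (ι : Type) (hΦ : Fil0 Φ) : ℕ → Subgroup (NN ι hΦ)
  | 0 => ⊤
  | j + 1 =>
    { carrier := {a | a.1.n = 0 ∧ ∀ i, PP Φ (j + 2) (a.1.f i)}
      mul_mem' := by
        rintro a b ⟨ha, ha'⟩ ⟨hb, hb'⟩
        exact ⟨by simp [ha, hb], fun i => hΦ.PP_mul (ha' i) (hΦ.PP_shift (hb' i) a.1.n)⟩
      one_mem' := ⟨rfl, fun _ => PP_one⟩
      inv_mem' := by
        rintro a ⟨ha, ha'⟩
        exact ⟨by simp [ha], fun i => hΦ.PP_inv (hΦ.PP_shift (ha' i) (-a.1.n))⟩ }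

theorem comm_formula (a b : Sg ι G) (i : ι) (t : ℤ) : ⁅a, b⁆.f i t =
    (a.f i t * dd a.n (b.f i) t * (a.f i t)⁻¹) * ⁅a.f i t, b.f i t⁆ *
      (b.f i t * (dd b.n (a.f i) t)⁻¹ * (b.f i t)⁻¹) := by
  simp only [commutatorElement_def, Sg.mul_f, Sg.mul_n, Sg.inv_f, dd, Sg.inv_n]
  have e1 : t + (a.n + b.n) - a.n = t + b.n := by ring
  have e2 : t + (a.n + b.n + -a.n) - b.n = t := by ring
  rw [e1, e2]
  group

theorem comm_n (a b : Sg ι G) : ⁅a, b⁆.n = 0 := by
  simp only [commutatorElement_def, Sg.mul_n, Sg.inv_n]; ring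

variable [TopologicalSpace G] [IsTopologicalGroup G] [T2Space G]
variable {Γ : Subgroup G} {Qs : ℕ → Set G} {D : ℕ}

/-- the `Γ`-valued sequences -/
def GN (ι : Type) (hΦ : Fil0 Φ) (Γ : Subgroup G) : Subgroup (NN ι hΦ) where
  carrier := {a | ∀ i t, a.1.f i t ∈ Γ}
  mul_mem' := fun {a b} ha hb i t => mul_mem (ha i t) (hb i _)
  one_mem' := fun _ _ => one_mem _
  inv_mem' := fun {a} ha i t => inv_mem (ha i _)

theorem continuous_nf {hΦ : Fil0 Φ} (i : ι) (t : ℤ) : Continuous fun a : NN ι hΦ => a.1.f i t :=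
  (Sg.continuous_f i t).comp continuous_subtype_val

/-- **The nilmanifold of polynomial sequences is compact.** -/
theorem Fil.ser (h : Fil Φ Γ Qs D) (ι : Type) : Ser (GN ι h.toFil0 Γ)
    {a : NN ι h.toFil0 | a.1.n = 0 ∧ ∀ i, a.1.f i ∈ KK Qs D} (FF ι h.toFil0) (D + 1) where
  closed := by
    have : (GN ι h.toFil0 Γ : Set (NN ι h.toFil0)) = ⋂ i : ι, ⋂ t : ℤ, {a | a.1.f i t ∈ Γ} := by
      ext a; simp [GN]
    rw [this]
    exact isClosed_iInter fun i => isClosed_iInter fun t => h.gclosed.preimage (continuous_nf i t)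
  comp := by
    have h1 : IsClosed (NN ι h.toFil0 : Set (Sg ι G)) := by
      have : (NN ι h.toFil0 : Set (Sg ι G)) = ⋂ i : ι, {a | PP Φ 1 (a.f i)} := by
        ext a; simp [NN]
      rw [this]
      exact isClosed_iInter fun i => (isClosed_PP h.closed 1).preimage
        (continuous_pi fun t => Sg.continuous_f i t)
    have h2 : IsCompact {a : Sg ι G | a.n = 0 ∧ ∀ i, a.f i ∈ KK Qs D} := by
      have h3 : IsCompact ((Set.univ.pi fun _ : ι => KK Qs D) ×ˢ ({0} : Set ℤ)) :=
        (isCompact_univ_pi fun _ => isCompact_KK h.comp D).prod isCompact_singleton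
      have hc : Continuous (fun p : (ι → ℤ → G) × ℤ => (⟨p.1, p.2⟩ : Sg ι G)) := by
        rw [Sg.continuous_iff]
        refine ⟨fun i t => ?_, continuous_snd⟩
        exact (continuous_apply t).comp ((continuous_apply i).comp continuous_fst)
      have h4 := h3.image hc
      convert h4 using 1
      ext a
      constructor
      · rintro ⟨h5, h6⟩
        exact ⟨(a.f, a.n), ⟨fun i _ => h6 i, h5⟩, rfl⟩
      · rintro ⟨p, ⟨h5, h6⟩, rfl⟩
        exact ⟨h6, fun i => h5 i (Set.mem_univ _)⟩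
    exact h1.isClosedEmbedding_subtypeVal.isCompact_preimage h2
  cov := by
    intro a
    have h1 : ∀ i, ∃ κ ∈ KK Qs D, ∃ γ : ℤ → G, PP Φ 1 γ ∧ (∀ t, γ t ∈ Γ) ∧ ∀ t, a.1.f i t = κ t * γ t :=
      fun i => h.factor (a.2 i)
    choose κ hκ γ hγ hγΓ e using h1
    have hκP : ∀ i, PP Φ 1 (κ i) := by
      intro i
      have e1 : κ i = fun t => a.1.f i t * (γ i t)⁻¹ := by
        funext t; rw [e i t, mul_inv_cancel_right]
      rw [e1]
      exact h.toFil0.PP_mul (a.2 i) (h.toFil0.PP_inv (hγ i))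
    refine ⟨⟨⟨κ, 0⟩, hκP⟩, ⟨rfl, hκ⟩, ⟨⟨γ, a.1.n⟩, hγ⟩, hγΓ, ?_⟩
    refine Subtype.ext (Sg.ext' (fun i t => ?_) ?_)
    · show a.1.f i t = κ i t * γ i (t + 0)
      rw [add_zero]; exact e i t
    · show a.1.n = 0 + a.1.n
      rw [zero_add]
  top := rfl
  anti := by
    intro i
    cases i with
    | zero => exact le_top
    | succ i =>
      rintro a ⟨ha, ha'⟩
      exact ⟨ha, fun j => h.toFil0.PP_le (by omega) (ha' j)⟩
  comm := by
    intro i a ha b
    refine ⟨?_, fun j => ?_⟩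
    · exact comm_n a.1 b.1
    have e : ((⁅a, b⁆ : NN ι h.toFil0) : Sg ι G).f j = fun t =>
      (a.1.f j t * dd a.1.n (b.1.f j) t * (a.1.f j t)⁻¹) * ⁅a.1.f j t, b.1.f j t⁆ *
      (b.1.f j t * (dd b.1.n (a.1.f j) t)⁻¹ * (b.1.f j t)⁻¹) := by
      funext t; exact comm_formula a.1 b.1 j t
    rw [e]
    have hb := b.2 j
    have key : ∀ k, PP Φ k (a.1.f j) → PP Φ (i + 2) (dd a.1.n (b.1.f j)) → i + 2 ≤ k + 1 →
        PP Φ (i + 2) fun t =>
          (a.1.f j t * dd a.1.n (b.1.f j) t * (a.1.f j t)⁻¹) * ⁅a.1.f j t, b.1.f j t⁆ *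
          (b.1.f j t * (dd b.1.n (a.1.f j) t)⁻¹ * (b.1.f j t)⁻¹) := by
      intro k hk h2 hki
      refine h.toFil0.PP_mul (h.toFil0.PP_mul (h.toFil0.PP_conj hk h2) ?_) ?_
      · exact h.toFil0.PP_le hki (h.toFil0.PP_comm hk hb)
      · exact h.toFil0.PP_conj hb (h.toFil0.PP_inv (h.toFil0.PP_le hki (hk.dd _)))
    cases i with
    | zero => exact key 1 (a.2 j) (hb.dd _) le_rfl
    | succ i =>
      refine key (i + 2) (ha.2 j) ?_ le_rfl
      have e0 : a.1.n = 0 := ha.1
      have e1 : dd a.1.n (b.1.f j) = fun _ => 1 := by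
        funext t; simp [dd, e0]
      rw [e1]; exact PP_one
  bot := by
    rw [eq_bot_iff]
    rintro a ⟨ha, ha'⟩
    rw [Subgroup.mem_bot]
    refine Subtype.ext (Sg.ext' (fun i t => ?_) ha)
    have h1 := (ha' i).val t
    have h2 := h.toFil0.le (show 1 + D ≤ D + 2 by omega) h1
    rwa [h.bot, Subgroup.mem_bot] at h2

end Pool.Agent.K6.H55.NS
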