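import Pool.Agent.V11106.Nil2

/-! Rationality of the lower central series. -/

set_option autoImplicit false
set_option linter.unusedSectionVars false

namespace Pool.Agent.K6.H55.NS

open Pool.Agent.V11106 (LC Rooted comm_mem comm_mem' LC_anti LC_succ)
open Set Topology Pointwise Filter
open scoped commutatorElement

/-- the closed lower central series -/
def CC (G : Type*) [Group G] [TopologicalSpace G] [IsTopologicalGroup G] (m : ℕ) : Subgroup G :=
  (LC G m).topologicalClosure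

variable {G : Type*} [Group G] [TopologicalSpace G] [IsTopologicalGroup G]

instance (m : ℕ) : (CC G m).Normal := Subgroup.is_normal_topologicalClosure _

theorem isClosed_CC (m : ℕ) : IsClosed (CC G m : Set G) := Subgroup.isClosed_topologicalClosure _

theorem CC_anti (m : ℕ) : CC G (m + 1) ≤ CC G m :=
  Subgroup.topologicalClosure_mono (LC_anti (Nat.le_succ m))

theorem CC_zero : CC G 0 = ⊤ := by
  rw [eq_top_iff]; exact Subgroup.le_topologicalClosure _

theorem cont_comm_r (g : G) : Continuous fun u : G => ⁅g, u⁆ := by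
  have : (fun u : G => ⁅g, u⁆) = fun u => g * u * g⁻¹ * u⁻¹ := rfl
  rw [this]; fun_prop

theorem CC_comm {m : ℕ} {u : G} (hu : u ∈ CC G m) (g : G) : ⁅g, u⁆ ∈ CC G (m + 1) := by
  have hc : IsClosed {u : G | ⁅g, u⁆ ∈ CC G (m + 1)} :=
    (isClosed_CC (m + 1)).preimage (cont_comm_r g)
  have : closure (LC G m : Set G) ⊆ {u : G | ⁅g, u⁆ ∈ CC G (m + 1)} :=
    closure_minimal (fun u hu => Subgroup.le_topologicalClosure _ (comm_mem hu g)) hc
  exact this hu

theorem CC_comm' {m : ℕ} {u : G} (hu : u ∈ CC G m) (g : G) : ⁅u, g⁆ ∈ CC G (m + 1) := by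
  rw [← commutatorElement_inv]; exact inv_mem (CC_comm hu g)

/-- the quotient map -/
abbrev pq (m : ℕ) : G →* G ⧸ CC G m := QuotientGroup.mk' (CC G m)

theorem pq_one {m : ℕ} {x : G} : pq m x = 1 ↔ x ∈ CC G m := by
  rw [QuotientGroup.mk'_apply, QuotientGroup.eq_one_iff]

theorem pq_comm {m : ℕ} {x : G} (hx : x ∈ CC G m) (g : G) :
    pq (m + 1) g * pq (m + 1) x = pq (m + 1) x * pq (m + 1) g := by
  have h := pq_one.2 (CC_comm hx g)
  rw [commutatorElement_def, map_mul, map_mul, map_mul, map_inv, map_inv, mul_inv_eq_one,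
    mul_inv_eq_iff_eq_mul] at h
  exact h

theorem pq_left {m : ℕ} {u : G} (hu : u ∈ CC G m) (g g' : G) :
    pq (m + 2) ⁅g * g', u⁆ = pq (m + 2) ⁅g, u⁆ * pq (m + 2) ⁅g', u⁆ := by
  have e1 : ⁅g * g', u⁆ = ⁅g, ⁅g', u⁆⁆ * ⁅g', u⁆ * ⁅g, u⁆ := by
    simp only [commutatorElement_def]; group
  rw [e1, map_mul, map_mul, pq_one.2 (CC_comm (CC_comm hu g') g), one_mul,
    pq_comm (CC_comm hu g) ⁅g', u⁆]

theorem pq_right {m : ℕ} {x y : G} (hy : y ∈ CC G m) (g : G) :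
    pq (m + 2) ⁅g, x * y⁆ = pq (m + 2) ⁅g, x⁆ * pq (m + 2) ⁅g, y⁆ := by
  have e1 : ⁅g, x * y⁆ = ⁅g, x⁆ * ⁅x, ⁅g, y⁆⁆ * ⁅g, y⁆ := by
    simp only [commutatorElement_def]; group
  rw [e1, map_mul, map_mul, pq_one.2 (CC_comm (CC_comm hy g) x), mul_one]

/-- the commutator with a fixed element on the right -/
def hL (m : ℕ) {u : G} (hu : u ∈ CC G m) : G →* G ⧸ CC G (m + 2) where
  toFun g := pq (m + 2) ⁅g, u⁆
  map_one' := by rw [commutatorElement_one_left, map_one]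
  map_mul' g g' := pq_left hu g g'

/-- the commutator with a fixed element on the left -/
def hR (m : ℕ) (g : G) : CC G m →* G ⧸ CC G (m + 2) where
  toFun u := pq (m + 2) ⁅g, (u : G)⁆
  map_one' := by rw [Subgroup.coe_one, commutatorElement_one_right, map_one]
  map_mul' u v := pq_right v.2 g

theorem pq_eq_of_mem {m : ℕ} {P : Subgroup G} (hP : CC G m ≤ P) {x y : G} (h : pq m x = pq m y)
    (hy : y ∈ P) : x ∈ P := by
  have h1 : x * y⁻¹ ∈ CC G m := by rw [← pq_one, map_mul, map_inv, h, mul_inv_cancel]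
  have := mul_mem (hP h1) hy
  rwa [inv_mul_cancel_right] at this

/-- the set of `g` with `⁅g, u⁆ ∈ P` -/
def lsub {m : ℕ} {P : Subgroup G} (hP : CC G (m + 2) ≤ P) {u : G} (hu : u ∈ CC G m) : Subgroup G where
  carrier := {g | ⁅g, u⁆ ∈ P}
  mul_mem' := fun {a b} ha hb => pq_eq_of_mem hP (y := ⁅a, u⁆ * ⁅b, u⁆)
    (by rw [pq_left hu, map_mul]) (mul_mem ha hb)
  one_mem' := by
    show ⁅(1 : G), u⁆ ∈ P
    rw [commutatorElement_one_left]; exact one_mem _
  inv_mem' := fun {a} ha => pq_eq_of_mem hP (y := ⁅a, u⁆⁻¹)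
    (by rw [map_inv]; exact (hL m hu).map_inv a) (inv_mem ha)

/-- the set of `u` with `⁅g, u⁆ ∈ P` -/
def rsub {m : ℕ} {P : Subgroup G} (hP : CC G (m + 2) ≤ P) (g : G) : Subgroup G where
  carrier := {u | u ∈ CC G m ∧ ⁅g, u⁆ ∈ P}
  mul_mem' := fun {a b} ha hb => ⟨mul_mem ha.1 hb.1, pq_eq_of_mem hP (y := ⁅g, a⁆ * ⁅g, b⁆)
    (by rw [pq_right hb.1, map_mul]) (mul_mem ha.2 hb.2)⟩
  one_mem' := ⟨one_mem _, by rw [commutatorElement_one_right]; exact one_mem _⟩
  inv_mem' := fun {a} ha => ⟨inv_mem ha.1, pq_eq_of_mem hP (y := ⁅g, a⁆⁻¹)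
    (by rw [map_inv]; exact (hR m g).map_inv ⟨a, ha.1⟩) (inv_mem ha.2)⟩

/-- compactness modulo `Δ` -/
def CM (Δ P : Subgroup G) : Prop :=
  ∃ K : Set G, IsCompact K ∧ ∀ x ∈ P, ∃ k ∈ K, ∃ δ ∈ Δ, x = k * δ

theorem CM.closure {Δ P : Subgroup G} (hΔ : IsClosed (Δ : Set G)) (h : CM Δ P) :
    CM Δ P.topologicalClosure := by
  obtain ⟨K, hK, h1⟩ := h
  refine ⟨K, hK, fun x hx => ?_⟩
  have h2 : IsClosed (K * (Δ : Set G)) := hΔ.mul_left_of_isCompact hK
  have h3 : _root_.closure (P : Set G) ⊆ K * (Δ : Set G) := by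
    refine closure_minimal (fun x hx => ?_) h2
    obtain ⟨k, hk, δ, hδ, rfl⟩ := h1 x hx
    exact ⟨k, hk, δ, hδ, rfl⟩
  obtain ⟨k, hk, δ, hδ, e⟩ := h3 hx
  exact ⟨k, hk, δ, hδ, e.symm⟩

theorem CM.sup {m : ℕ} {Δ P P' : Subgroup G} (hΔ : CC G (m + 2) ≤ Δ) (hΔ' : Δ ≤ CC G (m + 1))
    (hP : P ≤ CC G (m + 1))
    (hP' : P' ≤ CC G (m + 1)) (h : CM Δ P) (h' : CM Δ P') : CM Δ (P ⊔ P') := by
  obtain ⟨K, hK, h1⟩ := h
  obtain ⟨K', hK', h1'⟩ := h'
  have hn : (P ⊔ CC G (m + 2)).Normal := by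
    refine ⟨fun x hx g => ?_⟩
    have e : g * x * g⁻¹ = ⁅g, x⁆ * x := by rw [commutatorElement_def]; group
    rw [e]
    refine mul_mem ?_ hx
    refine (le_sup_right : CC G (m + 2) ≤ P ⊔ CC G (m + 2)) (CC_comm ?_ g)
    exact (sup_le hP (CC_anti (m + 1))) hx
  refine ⟨K * K', hK.mul hK', fun x hx => ?_⟩
  have hx' : x ∈ (P ⊔ CC G (m + 2)) ⊔ P' :=
    (sup_le_sup_right le_sup_left _ : P ⊔ P' ≤ (P ⊔ CC G (m + 2)) ⊔ P') hx
  rw [← SetLike.mem_coe, Subgroup.normal_mul] at hx'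
  obtain ⟨y, hy, x', hx', rfl⟩ := hx'
  rw [Subgroup.mul_normal] at hy
  obtain ⟨x1, hx1, c, hc, rfl⟩ := hy
  obtain ⟨k, hk, δ, hδ, rfl⟩ := h1 x1 hx1
  obtain ⟨k', hk', δ', hδ', rfl⟩ := h1' x' hx'
  have hk'C : k' ∈ CC G (m + 1) := by
    have := mul_mem (hP' hx') (inv_mem (hΔ' hδ'))
    rwa [mul_inv_cancel_right] at this
  refine ⟨k * k', ⟨k, hk, k', hk', rfl⟩, ⁅k'⁻¹, δ * c⁆ * (δ * c) * δ', ?_, ?_⟩
  · exact mul_mem (mul_mem (hΔ (CC_comm' (inv_mem hk'C) _)) (mul_mem hδ (hΔ hc))) hδ'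
  · simp only [commutatorElement_def]; group

/-- the standing data -/
structure RD (Γ : Subgroup G) (Q : Set G) (S : Finset G) : Prop where
  closed : IsClosed (Γ : Set G)
  comp : IsCompact Q
  cov : ∀ x, ∃ q ∈ Q, ∃ γ ∈ Γ, x = q * γ
  fg : Subgroup.closure (S : Set G) = Γ
  gen : Subgroup.closure ((Γ : Set G) ∪ {c | Rooted c}) = ⊤

open Classical in
/-- iterated commutators of generators -/
noncomputable def Dm (S : Finset G) : ℕ → Finset G
  | 0 => S
  | m + 1 => Finset.image₂ (fun γ d => ⁅γ, d⁆) S (Dm S m)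

/-- the closed group generated by the iterated commutators modulo the next term -/
noncomputable def Del (S : Finset G) (m : ℕ) : Subgroup G :=
  (Subgroup.closure (Dm S m : Set G) ⊔ CC G (m + 1)).topologicalClosure

variable {Γ : Subgroup G} {Q : Set G} {S : Finset G}

theorem Dm_LC (m : ℕ) : ∀ d ∈ Dm S m, d ∈ LC G m := by
  induction m with
  | zero => exact fun d _ => Subgroup.mem_top d
  | succ m ih =>
    intro d hd
    simp only [Dm, Finset.mem_image₂] at hd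
    obtain ⟨γ, _, d', hd', rfl⟩ := hd
    exact comm_mem (ih d' hd') γ

theorem RD.Dm_mem (h : RD Γ Q S) (m : ℕ) : ∀ d ∈ Dm S m, d ∈ Γ := by
  induction m with
  | zero =>
    intro d hd
    rw [← h.fg]; exact Subgroup.subset_closure hd
  | succ m ih =>
    intro d hd
    simp only [Dm, Finset.mem_image₂] at hd
    obtain ⟨γ, hγ, d', hd', rfl⟩ := hd
    have hγΓ : γ ∈ Γ := by rw [← h.fg]; exact Subgroup.subset_closure hγ
    rw [commutatorElement_def]
    exact mul_mem (mul_mem (mul_mem hγΓ (ih d' hd')) (inv_mem hγΓ)) (inv_mem (ih d' hd'))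

theorem Dm_CC (m : ℕ) : ∀ d ∈ Dm S m, d ∈ CC G m :=
  fun d hd => Subgroup.le_topologicalClosure _ (Dm_LC m d hd)

theorem Del_le (m : ℕ) : Del S m ≤ CC G m := by
  refine Subgroup.topologicalClosure_minimal _ (sup_le ?_ (CC_anti m)) (isClosed_CC m)
  rw [Subgroup.closure_le]
  exact Dm_CC m

theorem CC_le_Del (m : ℕ) : CC G (m + 1) ≤ Del S m :=
  le_trans le_sup_right (Subgroup.le_topologicalClosure _)

theorem Dm_Del (m : ℕ) : ∀ d ∈ Dm S m, d ∈ Del S m := fun d hd =>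
  Subgroup.le_topologicalClosure _ ((le_sup_left : Subgroup.closure (Dm S m : Set G) ≤
    Subgroup.closure (Dm S m : Set G) ⊔ CC G (m + 1)) (Subgroup.subset_closure hd))

theorem isClosed_Del (m : ℕ) : IsClosed (Del S m : Set G) := Subgroup.isClosed_topologicalClosure _

/-- a closed set of `u` -/
theorem Del_sub {m : ℕ} {P : Subgroup G} (hP : CC G (m + 2) ≤ P) (hPc : IsClosed (P : Set G)) (g : G)
    (h : ∀ d ∈ Dm S m, ⁅g, d⁆ ∈ P) : ∀ δ ∈ Del S m, ⁅g, δ⁆ ∈ P := by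
  have h1 : Subgroup.closure (Dm S m : Set G) ⊔ CC G (m + 1) ≤ rsub hP g := by
    refine sup_le ?_ (fun c hc => ⟨CC_anti m hc, hP (CC_comm hc g)⟩)
    rw [Subgroup.closure_le]
    exact fun d hd => ⟨Dm_CC m d hd, h d hd⟩
  have hc : IsClosed {u : G | ⁅g, u⁆ ∈ P} := hPc.preimage (cont_comm_r g)
  intro δ hδ
  have : _root_.closure ((Subgroup.closure (Dm S m : Set G) ⊔ CC G (m + 1) : Subgroup G) : Set G) ⊆
    {u : G | ⁅g, u⁆ ∈ P} := closure_minimal (fun u hu => (h1 hu).2) hc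
  exact this hδ

theorem RD.Del_gen (_h : RD Γ Q S) (m : ℕ) {γ : G} (hγ : γ ∈ S) {δ : G} (hδ : δ ∈ Del S m) :
    ⁅γ, δ⁆ ∈ Del S (m + 1) := by
  refine Del_sub (CC_le_Del (m + 1)) (isClosed_Del _) γ (fun d hd => Dm_Del (m + 1) _ ?_) δ hδ
  simp only [Dm, Finset.mem_image₂]
  exact ⟨γ, hγ, d, hd, rfl⟩

theorem RD.Del_Γ (h : RD Γ Q S) (m : ℕ) {γ : G} (hγ : γ ∈ Γ) {d : G} (hd : d ∈ Dm S m) :
    ⁅γ, d⁆ ∈ Del S (m + 1) := by
  have h1 : Γ ≤ lsub (CC_le_Del (S := S) (m + 1)) (Dm_CC m d hd) := by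
    rw [← h.fg, Subgroup.closure_le]
    intro γ hγ
    exact h.Del_gen m hγ (Dm_Del m d hd)
  exact h1 hγ

theorem CM.bot (Δ : Subgroup G) : CM Δ ⊥ :=
  ⟨{1}, isCompact_singleton, fun x hx => ⟨1, rfl, 1, one_mem _, by
    rw [Subgroup.mem_bot] at hx; rw [hx, mul_one]⟩⟩

/-- the group generated by the commutators with a fixed element on the right -/
def PL (d : G) : Subgroup G := Subgroup.closure (Set.range fun g : G => ⁅g, d⁆)

/-- the group generated by the commutators with a fixed element on the left -/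
def PR (m : ℕ) (γ : G) : Subgroup G := Subgroup.closure ((fun u : G => ⁅γ, u⁆) '' (CC G m : Set G))

theorem mem_PL {m : ℕ} {d : G} (hd : d ∈ CC G m) {y : G} (hy : y ∈ PL d) :
    ∃ g : G, pq (m + 2) y = pq (m + 2) ⁅g, d⁆ := by
  have h1 : PL d ≤ (hL m hd).range.comap (pq (m + 2)) := by
    rw [PL, Subgroup.closure_le]
    rintro _ ⟨g, rfl⟩
    exact ⟨g, rfl⟩
  obtain ⟨g, hg⟩ := h1 hy
  exact ⟨g, hg.symm⟩

theorem mem_PR {m : ℕ} {γ : G} {y : G} (hy : y ∈ PR m γ) :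
    ∃ u ∈ CC G m, pq (m + 2) y = pq (m + 2) ⁅γ, u⁆ := by
  have h1 : PR m γ ≤ (hR m γ).range.comap (pq (m + 2)) := by
    rw [PR, Subgroup.closure_le]
    rintro _ ⟨u, hu, rfl⟩
    exact ⟨⟨u, hu⟩, rfl⟩
  obtain ⟨u, hu⟩ := h1 hy
  exact ⟨u, u.2, hu.symm⟩

theorem PL_le {m : ℕ} {d : G} (hd : d ∈ CC G m) : PL d ≤ CC G (m + 1) := by
  rw [PL, Subgroup.closure_le]
  rintro _ ⟨g, rfl⟩
  exact CC_comm hd g

theorem PR_le {m : ℕ} (γ : G) : PR m γ ≤ CC G (m + 1) := by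
  rw [PR, Subgroup.closure_le]
  rintro _ ⟨u, hu, rfl⟩
  exact CC_comm hu γ

theorem tendsto_comm_compact {K : Set G} (hK : IsCompact K) {f : ℕ → G} (hf : Tendsto f atTop (𝓝 1))
    {k : ℕ → G} (hk : ∀ n, k n ∈ K) : Tendsto (fun n => ⁅f n, k n⁆) atTop (𝓝 1) := by
  intro O hO
  have h1 : ∀ᶠ x in 𝓝 (1 : G), ∀ y ∈ K, ⁅x, y⁆ ∈ O := by
    refine hK.eventually_forall_of_forall_eventually (P := fun x y => ⁅x, y⁆ ∈ O) ?_
    intro y _
    have h2 : Tendsto (fun p : G × G => ⁅p.1, p.2⁆) (𝓝 (1, y)) (𝓝 1) := by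
      have h3 : Continuous (fun p : G × G => ⁅p.1, p.2⁆) := by
        have : (fun p : G × G => ⁅p.1, p.2⁆) = fun p => p.1 * p.2 * p.1⁻¹ * p.2⁻¹ := rfl
        rw [this]; fun_prop
      have h4 := h3.tendsto (1, y)
      rwa [commutatorElement_one_left] at h4
    exact h2 hO
  rw [mem_map]
  filter_upwards [hf.eventually h1] with n hn
  exact hn _ (hk n)

/-- `CC m` is compact modulo `Del m` -/
theorem RD.cm (h : RD Γ Q S) (m : ℕ) : CM (Del S m) (CC G m) := by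
  induction m with
  | zero =>
    refine ⟨Q, h.comp, fun x _ => ?_⟩
    obtain ⟨q, hq, γ, hγ, rfl⟩ := h.cov x
    refine ⟨q, hq, γ, ?_, rfl⟩
    have : Γ ≤ Del S 0 := by
      rw [← h.fg, Subgroup.closure_le]
      exact Dm_Del 0
    exact this hγ
  | succ m ih =>
    obtain ⟨K, hK, hcov⟩ := ih
    obtain ⟨B, hB⟩ : ∃ B : Subgroup G, B = ((Dm S m).sup PL ⊔ S.sup (PR m)) ⊔ CC G (m + 2) := ⟨_, rfl⟩
    have hBC : CC G (m + 2) ≤ B.topologicalClosure := by
      rw [hB]; exact le_trans le_sup_right (Subgroup.le_topologicalClosure _)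
    have hPLB : ∀ d ∈ Dm S m, PL d ≤ B.topologicalClosure := by
      intro d hd
      refine le_trans ?_ (Subgroup.le_topologicalClosure _)
      rw [hB]
      exact le_trans (le_trans (Finset.le_sup (f := PL) hd) le_sup_left) le_sup_left
    have hPRB : ∀ γ ∈ S, PR m γ ≤ B.topologicalClosure := by
      intro d hd
      refine le_trans ?_ (Subgroup.le_topologicalClosure _)
      rw [hB]
      exact le_trans (le_trans (Finset.le_sup (f := PR m) hd) le_sup_right) le_sup_left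
    have hBc : IsClosed (B.topologicalClosure : Set G) := Subgroup.isClosed_topologicalClosure _
    -- compactness of `B` modulo `Del (m + 1)`
    have hcm : CM (Del S (m + 1)) B.topologicalClosure := by
      refine CM.closure (isClosed_Del _) ?_
      have hΔ := CC_le_Del (S := S) (m + 1)
      have hΔ' := Del_le (S := S) (m + 1)
      have hPLs : ∀ d ∈ Dm S m, PL d ≤ CC G (m + 1) ∧ CM (Del S (m + 1)) (PL d) := by
        intro d hd
        have hdC := Dm_CC m d hd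
        refine ⟨PL_le hdC, (fun q : G => ⁅q, d⁆) '' Q, h.comp.image ?_, fun y hy => ?_⟩
        · have : (fun u : G => ⁅u, d⁆) = fun u => u * d * u⁻¹ * d⁻¹ := rfl
          rw [this]; fun_prop
        · obtain ⟨g, hg⟩ := mem_PL hdC hy
          obtain ⟨q, hq, γ, hγ, rfl⟩ := h.cov g
          refine ⟨_, ⟨q, hq, rfl⟩, ⁅q, d⁆⁻¹ * y, ?_, (mul_inv_cancel_left _ _).symm⟩
          refine pq_eq_of_mem hΔ (y := ⁅γ, d⁆) ?_ (h.Del_Γ m hγ hd)
          rw [map_mul, map_inv, hg, pq_left hdC, inv_mul_cancel_left]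
      have hPRs : ∀ γ ∈ S, PR m γ ≤ CC G (m + 1) ∧ CM (Del S (m + 1)) (PR m γ) := by
        intro γ hγ
        refine ⟨PR_le γ, (fun u : G => ⁅γ, u⁆) '' K, hK.image (cont_comm_r γ), fun y hy => ?_⟩
        obtain ⟨u, hu, hyu⟩ := mem_PR hy
        obtain ⟨k, hk, δ, hδ, rfl⟩ := hcov u hu
        refine ⟨_, ⟨k, hk, rfl⟩, ⁅γ, k⁆⁻¹ * y, ?_, (mul_inv_cancel_left _ _).symm⟩
        refine pq_eq_of_mem hΔ (y := ⁅γ, δ⁆) ?_ (h.Del_gen m hγ hδ)
        rw [map_mul, map_inv, hyu, pq_right (Del_le m hδ), inv_mul_cancel_left]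
      have h1 : (Dm S m).sup PL ≤ CC G (m + 1) ∧ CM (Del S (m + 1)) ((Dm S m).sup PL) :=
        Finset.sup_induction (p := fun P : Subgroup G => P ≤ CC G (m + 1) ∧ CM (Del S (m + 1)) P)
          ⟨bot_le, CM.bot _⟩ (fun P hP P' hP' => ⟨sup_le hP.1 hP'.1,
            CM.sup hΔ hΔ' hP.1 hP'.1 hP.2 hP'.2⟩) hPLs
      have h2 : S.sup (PR m) ≤ CC G (m + 1) ∧ CM (Del S (m + 1)) (S.sup (PR m)) :=
        Finset.sup_induction (p := fun P : Subgroup G => P ≤ CC G (m + 1) ∧ CM (Del S (m + 1)) P)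
          ⟨bot_le, CM.bot _⟩ (fun P hP P' hP' => ⟨sup_le hP.1 hP'.1,
            CM.sup hΔ hΔ' hP.1 hP'.1 hP.2 hP'.2⟩) hPRs
      rw [hB]
      refine CM.sup hΔ hΔ' (sup_le h1.1 h2.1) (CC_anti _)
        (CM.sup hΔ hΔ' h1.1 h2.1 h1.2 h2.2) ?_
      exact ⟨{1}, isCompact_singleton, fun x hx => ⟨1, rfl, x, hΔ hx, by rw [one_mul]⟩⟩
    -- everything is in `B`
    have hle : CC G (m + 1) ≤ B.topologicalClosure := by
      refine Subgroup.topologicalClosure_minimal _ ?_ hBc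
      rw [LC_succ, Subgroup.commutator_le]
      intro u hu g _
      have huC : u ∈ CC G m := Subgroup.le_topologicalClosure _ hu
      rw [← commutatorElement_inv]
      refine inv_mem ?_
      have h3 : (⊤ : Subgroup G) ≤ lsub hBC huC := by
        rw [← h.gen, Subgroup.closure_le]
        rintro x (hx | ⟨f, hf, hfx⟩)
        · have h4 : Γ ≤ lsub hBC huC := by
            rw [← h.fg, Subgroup.closure_le]
            intro γ hγ
            exact hPRB γ hγ (Subgroup.subset_closure ⟨u, huC, rfl⟩)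
          exact h4 hx
        · show ⁅x, u⁆ ∈ B.topologicalClosure
          have h5 : ∀ n : ℕ, ∃ k ∈ K, ∃ δ ∈ Del S m, u ^ n = k * δ := fun n => hcov _ (pow_mem huC n)
          choose k hk δ hδ hkδ using h5
          have h6 := tendsto_comm_compact hK hf hk
          have h7 : Tendsto (fun n => ⁅f n, k n⁆⁻¹ * ⁅x, u⁆) atTop (𝓝 ⁅x, u⁆) := by
            have := h6.inv.mul_const ⁅x, u⁆
            rwa [inv_one, one_mul] at this
          refine hBc.mem_of_tendsto h7 ?_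
          filter_upwards [hfx] with n hn
          have h8 : ⁅f n, δ n⁆ ∈ B.topologicalClosure := Del_sub hBC hBc (f n)
            (fun d hd => hPLB d hd (Subgroup.subset_closure ⟨f n, rfl⟩)) (δ n) (hδ n)
          refine pq_eq_of_mem hBC (y := ⁅f n, δ n⁆) ?_ h8
          rw [map_mul, map_inv, inv_mul_eq_iff_eq_mul, ← pq_right (Del_le m (hδ n)), ← hkδ, ← hn]
          have h9 : pq (m + 2) ⁅f n ^ n, u⁆ = pq (m + 2) ⁅f n, u⁆ ^ n := (hL m huC).map_pow (f n) n
          have h10 : pq (m + 2) ⁅f n, u ^ n⁆ = pq (m + 2) ⁅f n, u⁆ ^ n :=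
            (hR m (f n)).map_pow ⟨u, huC⟩ n
          rw [h9, h10]
      exact h3 (Subgroup.mem_top g)
    obtain ⟨K', hK', h11⟩ := hcm
    exact ⟨K', hK', fun x hx => h11 x (hle hx)⟩

/-- **Rationality of the closed lower central series.** -/
theorem RD.rational [T2Space G] (h : RD Γ Q S) {s : ℕ} (hs : LC G s = ⊥) (m : ℕ) :
    ∃ K : Set G, IsCompact K ∧ ∀ x ∈ CC G m, ∃ q ∈ K, ∃ γ ∈ Γ, γ ∈ CC G m ∧ x = q * γ := by
  have key : ∀ j m, s ≤ m + j → ∃ K : Set G, IsCompact K ∧ ∀ x ∈ CC G m, ∃ q ∈ K, ∃ γ ∈ Γ,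
      γ ∈ CC G m ∧ x = q * γ := by
    intro j
    induction j with
    | zero =>
      intro m hm
      refine ⟨{1}, isCompact_singleton, fun x hx => ⟨1, rfl, 1, one_mem _, one_mem _, ?_⟩⟩
      have h1 : LC G m = ⊥ := by
        rw [eq_bot_iff, ← hs]; exact LC_anti (by omega)
      have h2 : CC G m ≤ ⊥ := by
        refine Subgroup.topologicalClosure_minimal _ h1.le ?_
        simp
      have := h2 hx
      rw [Subgroup.mem_bot] at this
      rw [this, mul_one]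
    | succ j ih =>
      intro m hm
      obtain ⟨K1, hK1, h1⟩ := ih (m + 1) (by omega)
      obtain ⟨K, hK, h2⟩ := h.cm m
      have hΛ : IsClosed ((CC G (m + 1) : Set G) * ((Γ ⊓ CC G m : Subgroup G) : Set G)) := by
        have e : (CC G (m + 1) : Set G) * ((Γ ⊓ CC G m : Subgroup G) : Set G) =
            (K1 ∩ CC G (m + 1)) * ((Γ ⊓ CC G m : Subgroup G) : Set G) := by
          apply Set.Subset.antisymm
          · rintro _ ⟨c, hc, γ, hγ, rfl⟩
            obtain ⟨q, hq, γ', hγ', hγC, rfl⟩ := h1 c hc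
            refine ⟨q, ⟨hq, ?_⟩, γ' * γ, mul_mem ⟨hγ', CC_anti m hγC⟩ hγ, by simp [mul_assoc]⟩
            have := mul_mem hc (inv_mem hγC)
            rwa [mul_inv_cancel_right] at this
          · exact Set.mul_subset_mul_right Set.inter_subset_right
        rw [e]
        refine IsClosed.mul_left_of_isCompact ?_ (hK1.inter_right (isClosed_CC _))
        rw [Subgroup.coe_inf]
        exact h.closed.inter (isClosed_CC m)
      have h3 : _root_.closure ((Subgroup.closure (Dm S m : Set G) ⊔ CC G (m + 1) : Subgroup G) : Set G) ⊆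
          (CC G (m + 1) : Set G) * ((Γ ⊓ CC G m : Subgroup G) : Set G) := by
        refine closure_minimal ?_ hΛ
        rw [sup_comm, Subgroup.normal_mul]
        refine Set.mul_subset_mul_left ?_
        rw [SetLike.coe_subset_coe, Subgroup.closure_le]
        exact fun d hd => ⟨h.Dm_mem m d hd, Dm_CC m d hd⟩
      refine ⟨K * K1, hK.mul hK1, fun x hx => ?_⟩
      obtain ⟨k, hk, δ, hδ, rfl⟩ := h2 x hx
      obtain ⟨c, hc, γ, hγ, e⟩ := h3 hδ
      obtain ⟨q, hq, γ', hγ', hγC, rfl⟩ := h1 c hc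
      refine ⟨k * q, ⟨k, hk, q, hq, rfl⟩, γ' * γ, mul_mem hγ' hγ.1,
        mul_mem (CC_anti m hγC) hγ.2, ?_⟩
      rw [← e]; simp [mul_assoc]
  exact key s m (by omega)

end Pool.Agent.K6.H55.NS
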