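import Pool.Agent.K6.H55.NS.R1
import Pool.Agent.K6.H55.NS.B1

/-! The rational filtration. -/

set_option autoImplicit false
set_option linter.unusedSectionVars false

namespace Pool.Agent.K6.H55.NS

open Pool.Agent.V11106 (LC Rooted comm_mem comm_mem' LC_anti LC_succ)
open Set Topology Pointwise Filter
open scoped commutatorElement

section
variable {G : Type*} [Group G]

theorem three {A B C N : Subgroup G} [N.Normal] (h1 : ⁅⁅A, B⁆, C⁆ ≤ N) (h2 : ⁅⁅A, C⁆, B⁆ ≤ N) :
    ⁅A, ⁅B, C⁆⁆ ≤ N := by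
  obtain ⟨π, hπ⟩ : ∃ π : G →* G ⧸ N, π = QuotientGroup.mk' N := ⟨_, rfl⟩
  have hmem : ∀ H : Subgroup G, H.map π = ⊥ ↔ H ≤ N := by
    intro H
    rw [Subgroup.map_eq_bot_iff, hπ, QuotientGroup.ker_mk']
  have h3 := Subgroup.commutator_commutator_eq_bot_of_rotate (H₁ := B.map π) (H₂ := C.map π)
    (H₃ := A.map π) (by
      rw [← Subgroup.map_commutator, ← Subgroup.map_commutator, hmem, Subgroup.commutator_comm C A]
      exact h2) (by
      rw [← Subgroup.map_commutator, ← Subgroup.map_commutator, hmem]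
      exact h1)
  rw [← Subgroup.map_commutator, ← Subgroup.map_commutator, hmem] at h3
  rw [Subgroup.commutator_comm]
  exact h3

theorem LC_LC (j : ℕ) : ∀ i, ⁅LC G i, LC G j⁆ ≤ LC G (i + j + 1) := by
  induction j with
  | zero => intro i; exact le_of_eq (LC_succ i).symm
  | succ j ih =>
    intro i
    rw [LC_succ j]
    refine three ?_ ?_
    · refine (Subgroup.commutator_mono (ih i) le_rfl).trans ?_
      rw [← LC_succ]; exact le_rfl
    · rw [← LC_succ]
      refine (ih (i + 1)).trans (le_of_eq ?_)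
      congr 1; omega

variable [TopologicalSpace G] [IsTopologicalGroup G]

theorem cont_comm_l (g : G) : Continuous fun u : G => ⁅u, g⁆ := by
  have : (fun u : G => ⁅u, g⁆) = fun u => u * g * u⁻¹ * g⁻¹ := rfl
  rw [this]; fun_prop

theorem CC_CC {i j : ℕ} {a b : G} (ha : a ∈ CC G i) (hb : b ∈ CC G j) : ⁅a, b⁆ ∈ CC G (i + j + 1) := by
  have h1 : ∀ a ∈ LC G i, ∀ b ∈ CC G j, ⁅a, b⁆ ∈ CC G (i + j + 1) := by
    intro a ha b hb
    have : _root_.closure (LC G j : Set G) ⊆ {b | ⁅a, b⁆ ∈ CC G (i + j + 1)} :=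
      closure_minimal (fun b hb => Subgroup.le_topologicalClosure _
        (LC_LC j i (Subgroup.commutator_mem_commutator ha hb)))
        ((isClosed_CC _).preimage (cont_comm_r a))
    exact this hb
  have : _root_.closure (LC G i : Set G) ⊆ {a | ⁅a, b⁆ ∈ CC G (i + j + 1)} :=
    closure_minimal (fun a ha => h1 a ha b hb) ((isClosed_CC _).preimage (cont_comm_l b))
  exact this ha

theorem CC_le {m n : ℕ} (h : m ≤ n) : CC G n ≤ CC G m :=
  Subgroup.topologicalClosure_mono (LC_anti h)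

end

variable {G : Type} [Group G] [TopologicalSpace G] [IsTopologicalGroup G] [T2Space G]

/-- the filtration of `G₁` repeated `D'` times, as subgroups of `G` -/
def Ph (G₁ : Subgroup G) (D' : ℕ) (l : ℕ) : Subgroup G := (CC G₁ ((l - 1) / D')).map G₁.subtype

/-- **The rational filtration.** -/
theorem exists_fil {G₁ : Subgroup G} (hG₁ : IsClosed (G₁ : Set G)) {Γ : Subgroup G}
    (hΓ : IsClosed (Γ : Set G)) {Q : Set G₁}
    {S : Finset G₁} (h : RD (Γ.subgroupOf G₁) Q S) {s : ℕ} (hs : LC G₁ s = ⊥) {D' : ℕ} (hD : 0 < D') :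
    ∃ Qs : ℕ → Set G, Fil (Ph G₁ D') Γ Qs (s * D') := by
  choose K hK hcov using h.rational hs
  refine ⟨fun l => G₁.subtype '' K ((l - 1) / D'), ?_⟩
  refine { anti := ?_, comm := ?_, bot := ?_, closed := ?_, comp := ?_, cov := ?_, gclosed := hΓ }
  · intro i
    exact Subgroup.map_mono (CC_le (Nat.div_le_div_right (by omega)))
  · rintro i j _ ⟨a, ha, rfl⟩ _ ⟨b, hb, rfl⟩
    refine ⟨⁅a, b⁆, CC_le ?_ (CC_CC ha hb), by simp [commutatorElement_def]⟩
    have h1 := Nat.lt_mul_div_succ (i - 1) hD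
    have h2 := Nat.lt_mul_div_succ (j - 1) hD
    rw [← Nat.lt_succ_iff, Nat.div_lt_iff_lt_mul hD]
    have h3 : ((i - 1) / D' + (j - 1) / D' + 1).succ * D' =
      D' * ((i - 1) / D' + 1) + D' * ((j - 1) / D' + 1) := by
      rw [Nat.succ_eq_add_one]; ring
    rw [h3]
    omega
  · have h1 : (1 + s * D' - 1) / D' = s := by
      rw [Nat.add_sub_cancel_left, Nat.mul_div_cancel _ hD]
    have h2 : CC G₁ s = ⊥ := by
      rw [eq_bot_iff]
      refine Subgroup.topologicalClosure_minimal _ hs.le ?_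
      simp
    rw [Ph, h1, h2, Subgroup.map_bot]
  · intro i
    exact (hG₁.isClosedEmbedding_subtypeVal).isClosedMap _ (isClosed_CC (G := G₁) _)
  · intro i
    exact (hK _).image continuous_subtype_val
  · rintro i _ ⟨x, hx, rfl⟩
    obtain ⟨q, hq, γ, hγ, hγC, rfl⟩ := hcov _ x hx
    exact ⟨q, ⟨q, hq, rfl⟩, γ, hγ, ⟨γ, hγC, rfl⟩, by simp⟩

theorem Ph_one (G₁ : Subgroup G) (D' : ℕ) : ∀ l ≤ D', Ph G₁ D' l = G₁ := by
  intro l hl
  have h1 : (l - 1) / D' = 0 := by
    rcases Nat.eq_zero_or_pos D' with h | h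
    · simp [h]
    · exact Nat.div_eq_of_lt (by omega)
  rw [Ph, h1, CC_zero, ← MonoidHom.range_eq_map, Subgroup.range_subtype]

end Pool.Agent.K6.H55.NS
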