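import Pool.Agent.K6.H55.NS.R2

/-! The identity component and a cocompact discrete subgroup. -/

set_option autoImplicit false
set_option linter.unusedSectionVars false

namespace Pool.Agent.K6.H55.NS

open Pool.Agent.V11106 (LC Rooted comm_mem comm_mem' LC_anti LC_succ)
open Set Topology Pointwise Filter
open scoped commutatorElement

variable {G : Type} [Group G] [TopologicalSpace G] [IsTopologicalGroup G]

/-- the identity component -/
abbrev G0 (G : Type) [Group G] [TopologicalSpace G] [IsTopologicalGroup G] : Subgroup G :=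
  Subgroup.connectedComponentOfOne G

theorem G0_coe : (G0 G : Set G) = connectedComponent 1 := rfl

instance G0_normal : (G0 G).Normal := by
  constructor
  intro x hx g
  have h1 : IsPreconnected ((fun y : G => g * y * g⁻¹) '' connectedComponent (1 : G)) :=
    isPreconnected_connectedComponent.image _ (by fun_prop)
  have h2 : (1 : G) ∈ (fun y : G => g * y * g⁻¹) '' connectedComponent (1 : G) :=
    ⟨1, mem_connectedComponent, by simp⟩
  exact h1.subset_connectedComponent h2 ⟨x, hx, rfl⟩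

theorem G0_open [LocallyConnectedSpace G] : IsOpen (G0 G : Set G) := isOpen_connectedComponent

theorem G0_gen [LocallyConnectedSpace G] (H : Subgroup G)
    (h : ∃ U ∈ 𝓝 (1 : G), ∀ x ∈ G0 G, x ∈ U → x ∈ H) : G0 G ≤ H := by
  obtain ⟨U, hU, h1⟩ := h
  have h2 : (H : Set G) ∈ 𝓝 (1 : G) := by
    filter_upwards [hU, G0_open.mem_nhds (one_mem (G0 G))] with x hx hx'
    exact h1 x hx' hx
  have h3 := H.isOpen_of_mem_nhds h2
  have h4 : IsClopen (H : Set G) := ⟨H.isClosed_of_isOpen h3, h3⟩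
  exact h4.connectedComponent_subset (one_mem H)

variable [T2Space G] [LocallyCompactSpace G] [LocallyConnectedSpace G] {Γ : Subgroup G}

theorem exists_Q (hcomp : CompactSpace (G ⧸ Γ)) (htr : ∀ x : G, ∃ u ∈ G0 G, ∃ γ ∈ Γ, x = u * γ) :
    ∃ Q : Set G, IsCompact Q ∧ Q ⊆ G0 G ∧ ∀ x, ∃ q ∈ Q, ∃ γ ∈ Γ, x = q * γ := by
  have h1 : ∀ y : G ⧸ Γ, ∃ u ∈ G0 G, (QuotientGroup.mk u : G ⧸ Γ) = y := by
    intro y
    obtain ⟨x, rfl⟩ := QuotientGroup.mk_surjective y
    obtain ⟨u, hu, γ, hγ, rfl⟩ := htr x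
    refine ⟨u, hu, ?_⟩
    rw [QuotientGroup.eq, inv_mul_cancel_left]; exact hγ
  choose u hu huy using h1
  have h2 : ∀ y : G ⧸ Γ, ∃ K, IsCompact K ∧ u y ∈ interior K ∧ K ⊆ G0 G := fun y =>
    exists_compact_subset G0_open (hu y)
  choose K hK hKu hKG using h2
  obtain ⟨t, -, ht⟩ := (isCompact_univ (X := G ⧸ Γ)).elim_nhds_subcover
    (fun y => (QuotientGroup.mk : G → G ⧸ Γ) '' K y) (fun y _ => by
      have h3 : IsOpen ((QuotientGroup.mk : G → G ⧸ Γ) '' interior (K y)) :=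
        QuotientGroup.isOpenMap_coe _ isOpen_interior
      exact mem_of_superset (h3.mem_nhds ⟨u y, hKu y, huy y⟩) (Set.image_mono interior_subset))
  refine ⟨⋃ y ∈ t, K y, t.isCompact_biUnion fun y _ => hK y, ?_, fun x => ?_⟩
  · exact Set.iUnion₂_subset fun y _ => hKG y
  · have h4 := ht (Set.mem_univ (QuotientGroup.mk x : G ⧸ Γ))
    simp only [Set.mem_iUnion] at h4
    obtain ⟨y, hy, q, hq, e⟩ := h4
    refine ⟨q, Set.mem_biUnion hy hq, q⁻¹ * x, ?_, by simp⟩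
    rwa [QuotientGroup.eq] at e

theorem finite_inter (hd : DiscreteTopology Γ) {K : Set G} (hK : IsCompact K) :
    (K ∩ (Γ : Set G)).Finite := by
  have hc : IsClosed (Γ : Set G) := Subgroup.isClosed_of_discrete
  refine (hK.inter_right hc).finite ⟨?_⟩
  exact DiscreteTopology.of_subset (s := (Γ : Set G)) hd Set.inter_subset_right

/-- the intersection with the identity component is finitely generated -/
theorem fg_G0 (hd : DiscreteTopology Γ) {Q : Set G} (hQ : IsCompact Q) (hQG : Q ⊆ G0 G)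
    (hcov : ∀ x, ∃ q ∈ Q, ∃ γ ∈ Γ, x = q * γ) :
    ∃ T : Set G, T.Finite ∧ Subgroup.closure T = Γ ⊓ G0 G := by
  obtain ⟨W0, hW0, hW1, hWG⟩ := exists_compact_subset (G0_open (G := G)) (one_mem (G0 G))
  obtain ⟨W, hW⟩ : ∃ W : Set G, W = W0 ∪ W0⁻¹ := ⟨_, rfl⟩
  have hWc : IsCompact W := by rw [hW]; exact hW0.union hW0.inv
  have hWG' : W ⊆ G0 G := by
    rw [hW]
    rintro x (hx | hx)
    · exact hWG hx
    · have := inv_mem (hWG (Set.mem_inv.1 hx) : x⁻¹ ∈ G0 G)
      rwa [inv_inv] at this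
  have hWi : ∀ w ∈ W, w⁻¹ ∈ W := by
    rw [hW]
    rintro x (hx | hx)
    · right; rw [Set.mem_inv, inv_inv]; exact hx
    · left; exact Set.mem_inv.1 hx
  obtain ⟨Q', hQ'⟩ : ∃ Q' : Set G, Q' = Q ∪ {1} := ⟨_, rfl⟩
  have hQc : IsCompact Q' := by rw [hQ']; exact hQ.union isCompact_singleton
  have hQG' : Q' ⊆ G0 G := by
    rw [hQ']
    rintro x (hx | rfl)
    · exact hQG hx
    · exact one_mem _
  obtain ⟨T1, hT1⟩ : ∃ T : Set G, T = (Q'⁻¹ * W * Q') ∩ Γ := ⟨_, rfl⟩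
  obtain ⟨T2, hT2⟩ : ∃ T : Set G, T = Q' ∩ Γ := ⟨_, rfl⟩
  refine ⟨T1 ∪ T2, ?_, ?_⟩
  · refine Set.Finite.union ?_ ?_
    · rw [hT1]; exact finite_inter hd ((hQc.inv.mul hWc).mul hQc)
    · rw [hT2]; exact finite_inter hd hQc
  apply le_antisymm
  · rw [Subgroup.closure_le]
    rintro x (hx | hx)
    · rw [hT1] at hx
      refine ⟨hx.2, ?_⟩
      obtain ⟨_, ⟨a, ha, w, hw, rfl⟩, q, hq, rfl⟩ := hx.1
      have ha' := inv_mem (hQG' (Set.mem_inv.1 ha) : a⁻¹ ∈ G0 G)
      rw [inv_inv] at ha'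
      exact mul_mem (mul_mem ha' (hWG' hw)) (hQG' hq)
    · rw [hT2] at hx
      exact ⟨hx.2, hQG' hx.1⟩
  · rintro γ ⟨hγ, hγG⟩
    obtain ⟨R, hR⟩ : ∃ R : Set G, R = Q' * (Subgroup.closure (T1 ∪ T2) : Set G) := ⟨_, rfl⟩
    have hWR : ∀ w ∈ W, ∀ y ∈ R, w * y ∈ R := by
      intro w hw y hy
      rw [hR] at hy ⊢
      obtain ⟨q, hq, t, ht, rfl⟩ := hy
      obtain ⟨q', hq', γ', hγ', e⟩ := hcov (w * q)
      refine ⟨q', ?_, γ' * t, mul_mem (Subgroup.subset_closure (Or.inl ?_)) ht, ?_⟩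
      · rw [hQ']; exact Or.inl hq'
      · rw [hT1]
        refine ⟨⟨q'⁻¹ * w, ⟨q'⁻¹, ?_, w, hw, rfl⟩, q, hq, ?_⟩, hγ'⟩
        · rw [Set.mem_inv, inv_inv, hQ']; exact Or.inl hq'
        · show q'⁻¹ * w * q = γ'
          rw [mul_assoc, e, inv_mul_cancel_left]
      · show q' * (γ' * t) = w * (q * t)
        rw [← mul_assoc, ← e, mul_assoc]
    let H' : Subgroup G :=
      { carrier := {x | (∀ y ∈ R, x * y ∈ R) ∧ ∀ y ∈ R, x⁻¹ * y ∈ R}
        mul_mem' := by
          rintro a b ⟨ha, ha'⟩ ⟨hb, hb'⟩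
          exact ⟨fun y hy => by rw [mul_assoc]; exact ha _ (hb y hy),
            fun y hy => by rw [mul_inv_rev, mul_assoc]; exact hb' _ (ha' y hy)⟩
        one_mem' := ⟨fun y hy => by rwa [one_mul], fun y hy => by rwa [inv_one, one_mul]⟩
        inv_mem' := by
          rintro a ⟨ha, ha'⟩
          exact ⟨ha', by rwa [inv_inv]⟩ }
    have hH : G0 G ≤ H' := by
      refine G0_gen H' ⟨W0, mem_interior_iff_mem_nhds.1 hW1, fun x _ hx => ?_⟩
      have hxW : x ∈ W := by rw [hW]; exact Or.inl hx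
      exact ⟨hWR x hxW, hWR _ (hWi x hxW)⟩
    have h1R : (1 : G) ∈ R := by
      rw [hR]
      refine ⟨1, ?_, 1, one_mem _, by simp⟩
      rw [hQ']; exact Or.inr rfl
    have h2 := (hH hγG).1 1 h1R
    rw [mul_one, hR] at h2
    obtain ⟨q, hq, t, ht, e⟩ := h2
    simp only at e
    have htΓ : t ∈ Γ := by
      have h3 : Subgroup.closure (T1 ∪ T2) ≤ Γ := by
        rw [Subgroup.closure_le, hT1, hT2]
        rintro x (hx | hx)
        · exact hx.2
        · exact hx.2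
      exact h3 ht
    rw [← e]
    refine mul_mem (Subgroup.subset_closure (Or.inr ?_)) ht
    rw [hT2]
    refine ⟨hq, ?_⟩
    have : q = γ * t⁻¹ := by rw [← e, mul_inv_cancel_right]
    rw [this]
    exact mul_mem hγ (inv_mem htΓ)

theorem rooted_sub {G₁ : Subgroup G} (hG₁ : IsOpen (G₁ : Set G)) {c : G} (hc : c ∈ G₁)
    (h : Rooted c) : Rooted (⟨c, hc⟩ : G₁) := by
  classical
  obtain ⟨f, hf, hf2⟩ := h
  have hev : ∀ᶠ n in atTop, f n ∈ G₁ := hf.eventually (hG₁.mem_nhds (one_mem G₁))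
  refine ⟨fun n => if h : f n ∈ G₁ then ⟨f n, h⟩ else 1, ?_, ?_⟩
  · rw [tendsto_subtype_rng]
    refine hf.congr' ?_
    filter_upwards [hev] with n hn
    rw [dif_pos hn]
  · filter_upwards [hev, hf2] with n hn hn2
    rw [dif_pos hn]
    exact Subtype.ext hn2

/-- the group generated by the identity component and `g` -/
def G1 (g : G) : Subgroup G := G0 G ⊔ Subgroup.zpowers g

theorem G0_le_G1 (g : G) : G0 G ≤ G1 g := le_sup_left

theorem mem_G1 (g : G) : g ∈ G1 g :=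
  (le_sup_right : Subgroup.zpowers g ≤ G1 g) (Subgroup.mem_zpowers g)

theorem G1_open (g : G) : IsOpen (G1 g : Set G) :=
  Subgroup.isOpen_mono (G0_le_G1 g) G0_open

theorem G1_congr {g u : G} (hu : u ∈ G0 G) : G1 (u * g) = G1 g := by
  apply le_antisymm
  · refine sup_le (G0_le_G1 g) ?_
    rw [Subgroup.zpowers_le]
    exact mul_mem (G0_le_G1 g hu) (mem_G1 g)
  · refine sup_le (G0_le_G1 _) ?_
    rw [Subgroup.zpowers_le]
    have := mul_mem (inv_mem (G0_le_G1 (u * g) hu)) (mem_G1 (u * g))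
    rwa [inv_mul_cancel_left] at this

/-- **The rational filtration of the Lie group.** -/
theorem exists_RD (hroot : ∀ᶠ x in 𝓝 (1 : G), Rooted x) (hd : DiscreteTopology Γ)
    (hcomp : CompactSpace (G ⧸ Γ)) (htr : ∀ x : G, ∃ u ∈ G0 G, ∃ γ ∈ Γ, x = u * γ) (g : G) :
    ∃ (Q : Set (G1 g)) (S : Finset (G1 g)), RD (Γ.subgroupOf (G1 g)) Q S := by
  obtain ⟨Q, hQ, hQG, hcov⟩ := exists_Q hcomp htr
  obtain ⟨T, hT, hTc⟩ := fg_G0 hd hQ hQG hcov
  obtain ⟨u, hu, γ0, hγ0, hg⟩ := htr g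
  have hG1 : G1 g = G1 γ0 := by rw [hg]; exact G1_congr hu
  have hγG : γ0 ∈ G1 g := by rw [hG1]; exact mem_G1 γ0
  have hΓc : IsClosed (Γ : Set G) := Subgroup.isClosed_of_discrete
  have hTG : ∀ x ∈ T, x ∈ Γ ⊓ G0 G := by
    intro x hx; rw [← hTc]; exact Subgroup.subset_closure hx
  have hfin : (insert γ0 T).Finite := hT.insert _
  have hfin' : ((Subtype.val : G1 g → G) ⁻¹' (insert γ0 T)).Finite :=
    hfin.preimage Subtype.val_injective.injOn
  have himg : (G1 g).subtype '' ((Subtype.val : G1 g → G) ⁻¹' (insert γ0 T)) = insert γ0 T := by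
    apply Set.Subset.antisymm
    · rintro _ ⟨x, hx, rfl⟩; exact hx
    · intro x hx
      have hxG : x ∈ G1 g := by
        rcases hx with rfl | hx
        · exact hγG
        · exact G0_le_G1 g (hTG x hx).2
      exact ⟨⟨x, hxG⟩, hx, rfl⟩
  have hcl : Subgroup.closure (insert γ0 T) = Γ ⊓ G1 g := by
    apply le_antisymm
    · rw [Subgroup.closure_le]
      rintro x (rfl | hx)
      · exact ⟨hγ0, hγG⟩
      · exact ⟨(hTG x hx).1, G0_le_G1 g (hTG x hx).2⟩
    · rintro x ⟨hxΓ, hxG⟩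
      rw [hG1] at hxG
      have hxG' : x ∈ ((G0 G ⊔ Subgroup.zpowers γ0 : Subgroup G) : Set G) := hxG
      rw [Subgroup.normal_mul] at hxG'
      obtain ⟨v, hv, w, hw, rfl⟩ := hxG'
      obtain ⟨n, rfl⟩ := Subgroup.mem_zpowers_iff.1 hw
      have hvΓ' : v ∈ Γ := by
        have h5 : v * γ0 ^ n ∈ Γ := hxΓ
        have := mul_mem h5 (inv_mem (zpow_mem hγ0 n))
        rwa [mul_inv_cancel_right] at this
      have hvΓ : v ∈ Γ ⊓ G0 G := ⟨hvΓ', hv⟩
      rw [← hTc] at hvΓ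
      refine mul_mem (Subgroup.closure_mono (Set.subset_insert _ _) hvΓ) (zpow_mem ?_ n)
      exact Subgroup.subset_closure (Or.inl rfl)
  refine ⟨Subtype.val ⁻¹' Q, hfin'.toFinset, ?_⟩
  refine { closed := ?_, comp := ?_, cov := ?_, fg := ?_, gen := ?_ }
  · exact hΓc.preimage continuous_subtype_val
  · exact ((G1 g).isClosed_of_isOpen (G1_open g)).isClosedEmbedding_subtypeVal.isCompact_preimage hQ
  · rintro ⟨x, hx⟩
    obtain ⟨q, hq, γ, hγ, e⟩ := hcov x
    have hqG : q ∈ G1 g := G0_le_G1 g (hQG hq)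
    have hγG : γ ∈ G1 g := by
      have : γ = q⁻¹ * x := by rw [e, inv_mul_cancel_left]
      rw [this]; exact mul_mem (inv_mem hqG) hx
    exact ⟨⟨q, hqG⟩, hq, ⟨γ, hγG⟩, hγ, Subtype.ext e⟩
  · rw [Set.Finite.coe_toFinset]
    have h1 : (Subgroup.closure ((Subtype.val : G1 g → G) ⁻¹' (insert γ0 T))).map (G1 g).subtype =
        Γ ⊓ G1 g := by
      rw [MonoidHom.map_closure, himg, hcl]
    ext x
    constructor
    · intro hx
      have h2 : (G1 g).subtype x ∈ Γ ⊓ G1 g := by rw [← h1]; exact ⟨x, hx, rfl⟩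
      exact h2.1
    · intro hx
      have h2 : (x : G) ∈ Γ ⊓ G1 g := ⟨hx, x.2⟩
      rw [← h1] at h2
      obtain ⟨y, hy, e⟩ := h2
      have : y = x := Subtype.ext e
      rwa [← this]
  · rw [eq_top_iff]
    have h1 : G1 g ≤ (Subgroup.closure (((Γ.subgroupOf (G1 g) : Subgroup (G1 g)) : Set (G1 g)) ∪
        {c | Rooted c})).map (G1 g).subtype := by
      rw [hG1]
      refine sup_le ?_ ?_
      · rw [← hG1]
        refine G0_gen _ ⟨_, hroot, fun x hx hxr => ?_⟩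
        have hxG := G0_le_G1 g hx
        exact ⟨⟨x, hxG⟩, Subgroup.subset_closure (Or.inr (rooted_sub (G1_open g) hxG hxr)), rfl⟩
      · rw [Subgroup.zpowers_le, ← hG1]
        exact ⟨⟨γ0, hγG⟩, Subgroup.subset_closure (Or.inl hγ0), rfl⟩
    rintro x -
    obtain ⟨y, hy, e⟩ := h1 x.2
    have : y = x := Subtype.ext e
    rwa [← this]

/-- translation by a totally minimal element: the identity component acts transitively -/
theorem transitive_G0 (hcomp : CompactSpace (G ⧸ Γ)) (g : G)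
    (hmin : ∀ m : ℕ, 0 < m → ∀ x : G ⧸ Γ, Dense (Set.range (fun n : ℤ => (g ^ m) ^ n • x))) :
    ∀ x : G, ∃ u ∈ G0 G, ∃ γ ∈ Γ, x = u * γ := by
  obtain ⟨M, hM⟩ : ∃ M : Subgroup G, M = G0 G ⊔ Γ := ⟨_, rfl⟩
  have hMo : IsOpen (M : Set G) := by rw [hM]; exact Subgroup.isOpen_mono le_sup_left G0_open
  have hΓM : Γ ≤ M := by rw [hM]; exact le_sup_right
  have hfin : Finite (G ⧸ M) := by
    have h1 : CompactSpace (G ⧸ M) := by
      have h2 : Continuous (Subgroup.quotientMapOfLE hΓM) := by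
        refine continuous_quot_lift _ ?_
        exact QuotientGroup.continuous_mk
      have h3 : Function.Surjective (Subgroup.quotientMapOfLE hΓM) := by
        intro y
        obtain ⟨x, rfl⟩ := QuotientGroup.mk_surjective y
        exact ⟨QuotientGroup.mk x, rfl⟩
      exact h3.compactSpace h2
    have h4 : DiscreteTopology (G ⧸ M) := QuotientGroup.discreteTopology hMo
    exact finite_of_compact_of_discrete
  obtain ⟨a, b, hab, he⟩ : ∃ a b : ℕ, a < b ∧ (QuotientGroup.mk (g ^ a) : G ⧸ M) = QuotientGroup.mk (g ^ b) := by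
    obtain ⟨a, b, hab, he⟩ := Finite.exists_ne_map_eq_of_infinite (fun n : ℕ => (QuotientGroup.mk (g ^ n) : G ⧸ M))
    rcases lt_or_gt_of_ne hab with h | h
    · exact ⟨a, b, h, he⟩
    · exact ⟨b, a, h, he.symm⟩
  have hgm : g ^ (b - a) ∈ M := by
    rw [QuotientGroup.eq] at he
    rw [pow_sub g hab.le]
    have : g ^ b * (g ^ a)⁻¹ = (g ^ a)⁻¹ * g ^ b := by
      rw [← zpow_natCast, ← zpow_natCast, ← zpow_neg, ← zpow_add, ← zpow_add, add_comm]
    rw [this]; exact he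
  have hdense := hmin (b - a) (by omega) (QuotientGroup.mk 1)
  have hcl : IsClosed ((QuotientGroup.mk : G → G ⧸ Γ) '' (M : Set G)) := by
    rw [← isOpen_compl_iff]
    have : ((QuotientGroup.mk : G → G ⧸ Γ) '' (M : Set G))ᶜ =
        (QuotientGroup.mk : G → G ⧸ Γ) '' ((M : Set G)ᶜ) := by
      ext y
      obtain ⟨x, rfl⟩ := QuotientGroup.mk_surjective y
      constructor
      · intro h
        exact ⟨x, fun hx => h ⟨x, hx, rfl⟩, rfl⟩
      · rintro ⟨x', hx', e⟩ ⟨x'', hx'', e'⟩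
        rw [← e', QuotientGroup.eq] at e
        refine hx' ?_
        have h5 := mul_mem hx'' (inv_mem (hΓM e))
        have h6 : x'' * (x'⁻¹ * x'')⁻¹ = x' := by group
        rwa [h6] at h5
    rw [this]
    exact QuotientGroup.isOpenMap_coe _ (M.isClosed_of_isOpen hMo).isOpen_compl
  have hall : (QuotientGroup.mk : G → G ⧸ Γ) '' (M : Set G) = Set.univ := by
    have h7 : Dense ((QuotientGroup.mk : G → G ⧸ Γ) '' (M : Set G)) := by
      refine hdense.mono ?_
      rintro _ ⟨n, rfl⟩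
      exact ⟨(g ^ (b - a)) ^ n * 1, mul_mem (zpow_mem hgm n) (one_mem _), rfl⟩
    exact hcl.closure_eq ▸ h7.closure_eq
  intro x
  have h8 : (QuotientGroup.mk x : G ⧸ Γ) ∈ (QuotientGroup.mk : G → G ⧸ Γ) '' (M : Set G) := by
    rw [hall]; trivial
  obtain ⟨y, hy, e⟩ := h8
  rw [QuotientGroup.eq] at e
  rw [hM, Subgroup.normal_mul] at hy
  obtain ⟨u, hu, γ, hγ, rfl⟩ := hy
  refine ⟨u, hu, γ * ((u * γ)⁻¹ * x), mul_mem hγ e, ?_⟩
  group

end Pool.Agent.K6.H55.NS
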