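import Mathlib
import Pool.Agent.V11106.Nil1

/-! First order calculus at the identity of a Lie group. -/

set_option autoImplicit false
set_option linter.unusedSectionVars false

namespace Pool.Agent.K6.H55.NS

open Set Topology Filter
open scoped commutatorElement
open Pool.Agent.V11106 (LC comm_mem LC_anti)

/-- a chart at the identity -/
structure Ch (E : Type*) [NormedAddCommGroup E] [NormedSpace ℝ E] (G : Type*) [Group G]
    [TopologicalSpace G] where
  φ : G → E
  ψ : E → G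
  φ1 : φ 1 = 0
  ψ0 : ψ 0 = 1
  cφ : ContinuousAt φ 1
  cψ' : ∀ᶠ w in 𝓝 (0 : E), ContinuousAt ψ w
  ψφ : ∀ᶠ x in 𝓝 (1 : G), ψ (φ x) = x
  φψ : ∀ᶠ w in 𝓝 (0 : E), φ (ψ w) = w
  mul : ContDiffAt ℝ 1 (fun p : E × E => φ (ψ p.1 * ψ p.2)) 0
  inv : DifferentiableAt ℝ (fun w => φ ((ψ w)⁻¹)) 0
  conj : ∀ x : G, DifferentiableAt ℝ (fun w => φ (x * ψ w * x⁻¹)) 0

variable {E : Type*} [NormedAddCommGroup E] [NormedSpace ℝ E]
variable {G : Type*} [Group G] [TopologicalSpace G] [IsTopologicalGroup G]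

theorem Ch.cψ (c : Ch E G) : ContinuousAt c.ψ 0 := c.cψ'.self_of_nhds

theorem Ch.ψt (c : Ch E G) : Tendsto c.ψ (𝓝 0) (𝓝 1) := by
  have := c.cψ.tendsto; rwa [c.ψ0] at this

theorem Ch.φt (c : Ch E G) : Tendsto c.φ (𝓝 1) (𝓝 0) := by
  have := c.cφ.tendsto; rwa [c.φ1] at this

theorem Ch.mstrict (c : Ch E G) : HasStrictFDerivAt (fun p : E × E => c.φ (c.ψ p.1 * c.ψ p.2))
    (ContinuousLinearMap.fst ℝ E E + ContinuousLinearMap.snd ℝ E E) 0 := by
  have h := c.mul.hasStrictFDerivAt (by norm_num)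
  obtain ⟨M, hM⟩ : ∃ M, M = fderiv ℝ (fun p : E × E => c.φ (c.ψ p.1 * c.ψ p.2)) 0 := ⟨_, rfl⟩
  rw [← hM] at h
  have h1 : M.comp (ContinuousLinearMap.inl ℝ E E) = ContinuousLinearMap.id ℝ E := by
    have h2 : HasFDerivAt (fun p : E => c.φ (c.ψ p * c.ψ 0)) (M.comp (ContinuousLinearMap.inl ℝ E E)) 0 := by
      have h3 : HasFDerivAt (fun p : E => ((p, 0) : E × E)) (ContinuousLinearMap.inl ℝ E E) 0 :=
        (ContinuousLinearMap.inl ℝ E E).hasFDerivAt
      exact HasFDerivAt.comp (g := fun p : E × E => c.φ (c.ψ p.1 * c.ψ p.2))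
        (f := fun p : E => ((p, 0) : E × E)) (0 : E) h.hasFDerivAt h3
    have h4 : HasFDerivAt (fun p : E => c.φ (c.ψ p * c.ψ 0)) (ContinuousLinearMap.id ℝ E) 0 := by
      refine (hasFDerivAt_id (0 : E)).congr_of_eventuallyEq ?_
      filter_upwards [c.φψ] with w hw
      rw [c.ψ0, mul_one, hw]; rfl
    exact h2.unique h4
  have h1' : M.comp (ContinuousLinearMap.inr ℝ E E) = ContinuousLinearMap.id ℝ E := by
    have h2 : HasFDerivAt (fun p : E => c.φ (c.ψ 0 * c.ψ p)) (M.comp (ContinuousLinearMap.inr ℝ E E)) 0 := by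
      have h3 : HasFDerivAt (fun p : E => ((0, p) : E × E)) (ContinuousLinearMap.inr ℝ E E) 0 :=
        (ContinuousLinearMap.inr ℝ E E).hasFDerivAt
      exact HasFDerivAt.comp (g := fun p : E × E => c.φ (c.ψ p.1 * c.ψ p.2))
        (f := fun p : E => ((0, p) : E × E)) (0 : E) h.hasFDerivAt h3
    have h4 : HasFDerivAt (fun p : E => c.φ (c.ψ 0 * c.ψ p)) (ContinuousLinearMap.id ℝ E) 0 := by
      refine (hasFDerivAt_id (0 : E)).congr_of_eventuallyEq ?_
      filter_upwards [c.φψ] with w hw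
      rw [c.ψ0, one_mul, hw]; rfl
    exact h2.unique h4
  have h5 : M = ContinuousLinearMap.fst ℝ E E + ContinuousLinearMap.snd ℝ E E := by
    ext1
    · rw [h1]; ext x; simp
    · rw [h1']; ext x; simp
  rwa [h5] at h

/-- `f` passes through the identity at `0` with velocity `L` -/
structure Vel (c : Ch E G) (f : E → G) (L : E →L[ℝ] E) : Prop where
  one : f 0 = 1
  cont : ContinuousAt f 0
  der : HasFDerivAt (fun w => c.φ (f w)) L 0

variable {c : Ch E G}

theorem Vel.t {f : E → G} {L : E →L[ℝ] E} (h : Vel c f L) : Tendsto f (𝓝 0) (𝓝 1) := by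
  have := h.cont.tendsto; rwa [h.one] at this

theorem Vel.unique {f : E → G} {L M : E →L[ℝ] E} (h : Vel c f L) (h' : Vel c f M) : L = M :=
  h.der.unique h'.der

theorem Vel.psi (c : Ch E G) : Vel c c.ψ (ContinuousLinearMap.id ℝ E) where
  one := c.ψ0
  cont := c.cψ
  der := (hasFDerivAt_id (0 : E)).congr_of_eventuallyEq (by
    filter_upwards [c.φψ] with w hw; rw [hw]; rfl)

theorem Vel.const (c : Ch E G) : Vel c (fun _ => (1 : G)) 0 where
  one := rfl
  cont := continuousAt_const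
  der := hasFDerivAt_const _ _

theorem Vel.mul {f g : E → G} {L M : E →L[ℝ] E} (hf : Vel c f L) (hg : Vel c g M) :
    Vel c (fun w => f w * g w) (L + M) where
  one := by rw [hf.one, hg.one, one_mul]
  cont := hf.cont.mul hg.cont
  der := by
    have h1 : HasFDerivAt (fun w => (c.φ (f w), c.φ (g w))) (L.prod M) 0 := hf.der.prodMk hg.der
    have h0 : (fun w => (c.φ (f w), c.φ (g w))) 0 = (0 : E × E) := by
      simp only [hf.one, hg.one, c.φ1]; rfl
    have hm := c.mstrict.hasFDerivAt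
    rw [← h0] at hm
    have h2 := hm.comp (0 : E) h1
    have h3 : (ContinuousLinearMap.fst ℝ E E + ContinuousLinearMap.snd ℝ E E).comp (L.prod M) =
        L + M := by ext x; simp
    rw [h3] at h2
    refine h2.congr_of_eventuallyEq ?_
    filter_upwards [hf.t.eventually c.ψφ, hg.t.eventually c.ψφ] with w h4 h5
    simp only [Function.comp_apply, h4, h5]

theorem Ch.iota (c : Ch E G) : HasFDerivAt (fun w => c.φ ((c.ψ w)⁻¹)) (-ContinuousLinearMap.id ℝ E) 0 := by
  obtain ⟨J, hJ⟩ : ∃ J, J = fderiv ℝ (fun w => c.φ ((c.ψ w)⁻¹)) 0 := ⟨_, rfl⟩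
  have h1 := c.inv.hasFDerivAt
  rw [← hJ] at h1
  have h2 : Vel c (fun w => (c.ψ w)⁻¹) J :=
    ⟨by rw [c.ψ0, inv_one], c.cψ.inv, h1⟩
  have h3 := (Vel.psi c).mul h2
  have h4 : (fun w => c.ψ w * (c.ψ w)⁻¹) = fun _ => (1 : G) := by funext w; rw [mul_inv_cancel]
  rw [h4] at h3
  have h5 := h3.unique (Vel.const c)
  have h6 : J = -ContinuousLinearMap.id ℝ E := by
    rw [eq_neg_iff_add_eq_zero, add_comm]; exact h5
  rwa [h6] at h1

theorem Vel.inv {f : E → G} {L : E →L[ℝ] E} (hf : Vel c f L) : Vel c (fun w => (f w)⁻¹) (-L) where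
  one := by rw [hf.one, inv_one]
  cont := hf.cont.inv
  der := by
    have hm := c.iota
    have h0 : (fun w => c.φ (f w)) 0 = (0 : E) := by simp only [hf.one, c.φ1]
    rw [← h0] at hm
    have h2 := hm.comp (0 : E) hf.der
    have h3 : (-ContinuousLinearMap.id ℝ E).comp L = -L := by ext x; simp
    rw [h3] at h2
    refine h2.congr_of_eventuallyEq ?_
    filter_upwards [hf.t.eventually c.ψφ] with w h4
    simp only [Function.comp_apply, h4]

/-- the adjoint action -/
noncomputable def Ad (c : Ch E G) (x : G) : E →L[ℝ] E := fderiv ℝ (fun w => c.φ (x * c.ψ w * x⁻¹)) 0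

theorem Vel.conj {f : E → G} {L : E →L[ℝ] E} (hf : Vel c f L) (x : G) :
    Vel c (fun w => x * f w * x⁻¹) ((Ad c x).comp L) where
  one := by rw [hf.one, mul_one, mul_inv_cancel]
  cont := (continuousAt_const.mul hf.cont).mul continuousAt_const
  der := by
    have hm := (c.conj x).hasFDerivAt
    have h0 : (fun w => c.φ (f w)) 0 = (0 : E) := by simp only [hf.one, c.φ1]
    rw [← h0] at hm
    have h2 := hm.comp (0 : E) hf.der
    rw [h0] at h2
    refine h2.congr_of_eventuallyEq ?_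
    filter_upwards [hf.t.eventually c.ψφ] with w h4
    simp only [Function.comp_apply, h4]

theorem Vel.zpow {f : E → G} {L : E →L[ℝ] E} (hf : Vel c f L) (n : ℤ) :
    Vel c (fun w => f w ^ n) ((n : ℝ) • L) := by
  induction n using Int.induction_on with
  | zero => simpa using Vel.const c
  | succ n ih =>
    have h1 := ih.mul hf
    have e : (fun w => f w ^ ((n : ℤ) + 1)) = fun w => f w ^ (n : ℤ) * f w := by
      funext w; rw [zpow_add_one]
    rw [e]
    have e2 : (((n : ℤ) + 1 : ℤ) : ℝ) • L = ((n : ℤ) : ℝ) • L + L := by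
      push_cast; rw [add_smul, one_smul]
    rw [e2]; exact h1
  | pred n ih =>
    have h1 := ih.mul hf.inv
    have e : (fun w => f w ^ (-(n : ℤ) - 1)) = fun w => f w ^ (-(n : ℤ)) * (f w)⁻¹ := by
      funext w; rw [zpow_sub_one]
    rw [e]
    have e2 : ((-(n : ℤ) - 1 : ℤ) : ℝ) • L = ((-(n : ℤ) : ℤ) : ℝ) • L + -L := by
      push_cast; rw [sub_smul, one_smul, sub_eq_add_neg]
    rw [e2]; exact h1

theorem Vel.comp {f : E → G} {L : E →L[ℝ] E} (hf : Vel c f L) (Y : E →L[ℝ] E) :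
    Vel c (fun w => f (Y w)) (L.comp Y) where
  one := by rw [map_zero, hf.one]
  cont := by
    have h1 : ContinuousAt f (Y 0) := by rw [map_zero]; exact hf.cont
    exact ContinuousAt.comp (f := fun w => Y w) h1 Y.continuous.continuousAt
  der := by
    have h1 := hf.der
    rw [← map_zero Y] at h1
    exact HasFDerivAt.comp (g := fun w => c.φ (f w)) (0 : E) h1 Y.hasFDerivAt

theorem Ad_mul (x y : G) : Ad c (x * y) = (Ad c x).comp (Ad c y) := by
  have h1 := ((Vel.psi c).conj y).conj x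
  have h2 := (Vel.psi c).conj (x * y)
  have e : (fun w => x * (y * c.ψ w * y⁻¹) * x⁻¹) = fun w => x * y * c.ψ w * (x * y)⁻¹ := by
    funext w; group
  rw [e] at h1
  have := h2.unique h1
  simpa using this

theorem Ad_one : Ad c (1 : G) = ContinuousLinearMap.id ℝ E := by
  have h1 := (Vel.psi c).conj 1
  have e : (fun w => (1 : G) * c.ψ w * 1⁻¹) = c.ψ := by funext w; simp
  rw [e] at h1
  have := h1.unique (Vel.psi c)
  simpa using this

/-- unipotence of the adjoint action -/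
theorem Ad_nil {s : ℕ} (hs : LC G s = ⊥) (x : G) : (Ad c x - 1) ^ s = 0 := by
  have key : ∀ k : ℕ, ∃ f : E → G, Vel c f ((Ad c x - 1) ^ k) ∧ ∀ w, f w ∈ LC G k := by
    intro k
    induction k with
    | zero => exact ⟨c.ψ, by rw [pow_zero]; exact Vel.psi c, fun w => Subgroup.mem_top _⟩
    | succ k ih =>
      obtain ⟨f, hf, hfk⟩ := ih
      refine ⟨fun w => ⁅x, f w⁆, ?_, fun w => comm_mem (hfk w) x⟩
      have h1 := (hf.conj x).mul hf.inv
      have e : (fun w => ⁅x, f w⁆) = fun w => x * f w * x⁻¹ * (f w)⁻¹ := rfl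
      rw [e, pow_succ', sub_mul, one_mul, sub_eq_add_neg]
      exact h1
  obtain ⟨f, hf, hfs⟩ := key s
  have e : f = fun _ => 1 := by
    funext w
    have := hfs w
    rwa [hs, Subgroup.mem_bot] at this
  rw [e] at hf
  exact hf.unique (Vel.const c)

end Pool.Agent.K6.H55.NS
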