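import Pool.Agent.K6.H55.NS.V9

/-! The main theorem on totally minimal nilsystems. -/

set_option autoImplicit false
set_option linter.unusedSectionVars false

namespace Pool.Agent.K6.H55.NS

open Set Topology Filter Pointwise Asymptotics
open scoped commutatorElement
open Pool.Agent.V11106 (LC comm_mem LC_anti Rooted rooted_nhds)

variable {G : Type} [Group G] [TopologicalSpace G] [IsTopologicalGroup G]

theorem G0_sub {H : Subgroup G} (hH : G0 G ≤ H) {x : G} (hx : x ∈ G0 G) :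
    (⟨x, hH hx⟩ : H) ∈ G0 H := by
  have h1 : IsPreconnected ((Subtype.val : H → G) ⁻¹' (G0 G : Set G)) := by
    refine Topology.IsInducing.subtypeVal.isPreconnected_image.1 ?_
    convert isPreconnected_connectedComponent (x := (1 : G)) using 1
    apply Set.Subset.antisymm
    · rintro _ ⟨y, hy, rfl⟩; exact hy
    · intro y hy; exact ⟨⟨y, hH hy⟩, hy, rfl⟩
  exact h1.subset_connectedComponent (x := (1 : H)) (show ((1 : H) : G) ∈ G0 G from one_mem _)
    (show x ∈ G0 G from hx)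

variable [T2Space G] [LocallyCompactSpace G] [LocallyConnectedSpace G]
variable {E : Type*} [NormedAddCommGroup E] [NormedSpace ℝ E]

/-- **Polynomial recurrence along progressions in totally minimal nilsystems.** -/
theorem main (ch : Ch E G) (hroot : ∀ᶠ x in 𝓝 (1 : G), Rooted x) [Group.IsNilpotent G]
    (Γ : Subgroup G) (hd : DiscreteTopology Γ) (hcomp : CompactSpace (G ⧸ Γ)) (g : G)
    (hmin : ∀ m : ℕ, 0 < m → ∀ x : G ⧸ Γ, Dense (Set.range (fun n : ℤ => (g ^ m) ^ n • x)))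
    (d : ℕ) (p : Fin d → Polynomial ℤ) (hp : ∀ i, (p i).eval 0 = 0) (k : ℕ) (hk : 0 < k) (j : ℕ)
    (U : Set (G ⧸ Γ)) (hU : IsOpen U) (hU0 : U.Nonempty) :
    ∃ n : ℕ, 0 < n ∧ ∃ x ∈ U, ∀ i, g ^ ((p i).eval ((k : ℤ) * (n : ℤ) + (j : ℤ))) • x ∈ U := by
  have htr := transitive_G0 hcomp g hmin
  have hmin1 : ∀ x : G ⧸ Γ, Dense (Set.range (fun n : ℤ => g ^ n • x)) := by
    intro x
    have := hmin 1 one_pos x
    simpa using this
  obtain ⟨h, hh, γ0, hγ0, hg⟩ := htr g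
  obtain ⟨Q, S, hRD⟩ := exists_RD hroot hd hcomp htr g
  have hHo := G1_open g
  have hγG : γ0 ∈ G1 g := by
    have e : γ0 = h⁻¹ * g := by rw [hg, inv_mul_cancel_left]
    rw [e]
    exact mul_mem (inv_mem (G0_le_G1 g hh)) (mem_G1 g)
  obtain ⟨s, hs⟩ := Subgroup.nilpotent_iff_lowerCentralSeries.1
    (inferInstance : Group.IsNilpotent (G1 g))
  have hLC : LocallyConnectedSpace (G1 g) := hHo.locallyConnectedSpace
  have hminH : ∀ x : G1 g, ∀ O ∈ 𝓝 (1 : G1 g), ∃ v ∈ O, ∃ n : ℤ, ∃ γ ∈ Γ.subgroupOf (G1 g),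
      v * x = (⟨g, mem_G1 g⟩ : G1 g) ^ n * γ := by
    intro x O hO
    have hO' : (Subtype.val : G1 g → G) '' O ∈ 𝓝 (1 : G) := by
      have := hHo.isOpenEmbedding_subtypeVal.isOpenMap.image_mem_nhds hO
      exact this
    have ho : IsOpen ((QuotientGroup.mk : G → G ⧸ Γ) '' ((fun v : G => v * (x : G)) ''
        interior ((Subtype.val : G1 g → G) '' O))) :=
      QuotientGroup.isOpenMap_coe _ (isOpenMap_mul_right (x : G) _ isOpen_interior)
    obtain ⟨_, ⟨n, rfl⟩, hn⟩ := (hmin1 (QuotientGroup.mk 1)).exists_mem_open ho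
      ⟨_, _, ⟨1, mem_interior_iff_mem_nhds.2 hO', rfl⟩, rfl⟩
    obtain ⟨_, ⟨w, hw, rfl⟩, e⟩ := hn
    obtain ⟨v, hv, rfl⟩ := interior_subset hw
    have e' : (QuotientGroup.mk ((v : G) * x) : G ⧸ Γ) = QuotientGroup.mk (g ^ n * 1) := e
    rw [mul_one, QuotientGroup.eq] at e'
    have hγ : (g ^ n)⁻¹ * ((v : G) * x) ∈ Γ := by
      have := inv_mem e'
      rwa [mul_inv_rev, inv_inv] at this
    refine ⟨v, hv, n, (⟨g, mem_G1 g⟩ : G1 g)⁻¹ ^ n * (v * x), ?_, ?_⟩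
    · show (g⁻¹) ^ n * ((v : G) * x) ∈ Γ
      rw [inv_zpow]; exact hγ
    · rw [inv_zpow, mul_inv_cancel_left]
  -- the point
  obtain ⟨_, ⟨m, rfl⟩, hm⟩ := (hmin1 (QuotientGroup.mk 1)).exists_mem_open hU hU0
  have hW : (fun a : G1 g => (QuotientGroup.mk (g ^ m * (a : G)) : G ⧸ Γ)) ⁻¹' U ∈ 𝓝 (1 : G1 g) := by
    have hc : Continuous (fun a : G1 g => (QuotientGroup.mk (g ^ m * (a : G)) : G ⧸ Γ)) :=
      QuotientGroup.continuous_mk.comp (continuous_const.mul continuous_subtype_val)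
    refine hc.continuousAt.preimage_mem_nhds (hU.mem_nhds ?_)
    exact hm
  obtain ⟨n, l, hn, hret⟩ := returns (ι := Option (Fin d)) (ch.sub (G1 g) hHo) hRD
    (g := ⟨g, mem_G1 g⟩) (h := ⟨h, G0_le_G1 g hh⟩) (γ0 := ⟨γ0, hγG⟩) hs (G0_sub (G0_le_G1 g) hh) hγ0
    (Subtype.ext hg) hminH (fun o => o.elim 0 p) (by
      rintro (_ | i)
      · simp
      · exact hp i) (k : ℤ) (by exact_mod_cast hk) (j : ℤ) hW
  refine ⟨n.toNat, by omega, g ^ (m + l) • (QuotientGroup.mk 1 : G ⧸ Γ), ?_, fun i => ?_⟩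
  · obtain ⟨γ, hγ, h1⟩ := hret none
    have h2 : (QuotientGroup.mk (g ^ m * (g ^ (Polynomial.eval ((k : ℤ) * n + j) 0) * g ^ l * γ)) : G ⧸ Γ) ∈ U := h1
    rw [Polynomial.eval_zero, zpow_zero, one_mul] at h2
    have e : (g ^ (m + l) • (QuotientGroup.mk 1 : G ⧸ Γ)) =
        QuotientGroup.mk (g ^ m * (g ^ l * (γ : G))) := by
      show (QuotientGroup.mk (g ^ (m + l) * 1) : G ⧸ Γ) = _
      rw [QuotientGroup.eq, mul_one, zpow_add]
      have : (g ^ m * g ^ l)⁻¹ * (g ^ m * (g ^ l * (γ : G))) = γ := by group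
      rw [this]; exact hγ
    rw [e]; exact h2
  · obtain ⟨γ, hγ, h1⟩ := hret (some i)
    have h2 : (QuotientGroup.mk (g ^ m * (g ^ (Polynomial.eval ((k : ℤ) * n + j) (p i)) * g ^ l * γ)) : G ⧸ Γ) ∈ U := h1
    have hnn : ((n.toNat : ℕ) : ℤ) = n := Int.toNat_of_nonneg (by omega)
    rw [hnn]
    obtain ⟨q, hq⟩ : ∃ q : ℤ, q = Polynomial.eval ((k : ℤ) * n + j) (p i) := ⟨_, rfl⟩
    rw [← hq] at h2 ⊢
    have e : (g ^ q • g ^ (m + l) • (QuotientGroup.mk 1 : G ⧸ Γ)) =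
        QuotientGroup.mk (g ^ m * (g ^ q * g ^ l * (γ : G))) := by
      show (QuotientGroup.mk (g ^ q * (g ^ (m + l) * 1)) : G ⧸ Γ) = _
      rw [QuotientGroup.eq, mul_one]
      have : (g ^ q * g ^ (m + l))⁻¹ * (g ^ m * (g ^ q * g ^ l * (γ : G))) = γ := by
        rw [← zpow_add, ← zpow_add, ← zpow_neg, ← mul_assoc, ← mul_assoc, ← zpow_add, ← zpow_add]
        rw [show -(q + (m + l)) + m + (q + l) = 0 by ring, zpow_zero, one_mul]
      rw [this]; exact hγ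
    rw [e]; exact h2

end Pool.Agent.K6.H55.NS
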