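import Pool.Agent.K6.H55.NS.V1

/-! Velocities of powers. -/

set_option autoImplicit false
set_option linter.unusedSectionVars false

namespace Pool.Agent.K6.H55.NS

open Set Topology Filter
open scoped commutatorElement
open Pool.Agent.V11106 (LC comm_mem LC_anti)

section alg
variable {R : Type*} [Ring R] [Algebra ℝ R]

/-- powers of `1 + N` -/
noncomputable def TS (s : ℕ) (N : R) (P : ℤ) : R :=
  ∑ l ∈ Finset.range (s + 1), ((Ring.choose P l : ℤ) : ℝ) • N ^ l

/-- sums of powers of `1 + N` -/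
noncomputable def SS (s : ℕ) (N : R) (P : ℤ) : R :=
  ∑ l ∈ Finset.range (s + 1), ((Ring.choose P (l + 1) : ℤ) : ℝ) • N ^ l

theorem SS_succ (s : ℕ) (N : R) (P : ℤ) : SS s N (P + 1) = SS s N P + TS s N P := by
  unfold SS TS
  rw [← Finset.sum_add_distrib]
  refine Finset.sum_congr rfl fun l _ => ?_
  rw [Ring.choose_succ_succ, ← add_smul]
  push_cast; rw [add_comm]

theorem TS_succ {s : ℕ} {N : R} (hN : N ^ s = 0) (P : ℤ) : TS s N (P + 1) = TS s N P * (1 + N) := by
  have h1 : TS s N P * N = ∑ l ∈ Finset.range s, ((Ring.choose P l : ℤ) : ℝ) • N ^ (l + 1) := by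
    unfold TS
    rw [Finset.sum_range_succ, hN, smul_zero, add_zero, Finset.sum_mul]
    refine Finset.sum_congr rfl fun l _ => ?_
    rw [smul_mul_assoc, pow_succ]
  have h2 : TS s N (P + 1) = (∑ l ∈ Finset.range s, ((Ring.choose (P + 1) (l + 1) : ℤ) : ℝ) • N ^ (l + 1)) + 1 := by
    unfold TS
    rw [Finset.sum_range_succ']
    simp
  have h3 : TS s N P = (∑ l ∈ Finset.range s, ((Ring.choose P (l + 1) : ℤ) : ℝ) • N ^ (l + 1)) + 1 := by
    unfold TS
    rw [Finset.sum_range_succ']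
    simp
  rw [mul_add, mul_one, h1, h2]
  nth_rewrite 1 [h3]
  rw [add_right_comm, ← Finset.sum_add_distrib]
  congr 1
  refine Finset.sum_congr rfl fun l _ => ?_
  rw [Ring.choose_succ_succ, ← add_smul]
  push_cast; rw [add_comm]

theorem TS_zero (s : ℕ) (N : R) : TS s N 0 = 1 := by
  unfold TS
  rw [Finset.sum_range_succ']
  simp [Ring.choose_zero_succ]

theorem SS_zero (s : ℕ) (N : R) : SS s N 0 = 0 := by
  unfold SS
  refine Finset.sum_eq_zero fun l _ => ?_
  rw [Ring.choose_zero_succ]; simp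

/-- the binomial polynomials -/
noncomputable def BB (l : ℕ) : Polynomial ℚ :=
  Polynomial.C (((l + 1).factorial : ℚ)⁻¹) * descPochhammer ℚ (l + 1)

theorem BB_eval (l : ℕ) (z : ℤ) : (BB l).eval (z : ℚ) = ((Ring.choose z (l + 1) : ℤ) : ℚ) := by
  have h1 : (descPochhammer ℤ (l + 1)).eval z = ((l + 1).factorial : ℤ) * Ring.choose z (l + 1) := by
    rw [Polynomial.eval_eq_smeval, Ring.descPochhammer_eq_factorial_smul_choose, nsmul_eq_mul]
  have h2 : (descPochhammer ℚ (l + 1)).eval (z : ℚ) = ((descPochhammer ℤ (l + 1)).eval z : ℤ) := by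
    rw [← descPochhammer_map (Int.castRingHom ℚ), Polynomial.eval_intCast_map]
    rfl
  have h3 : ((l + 1).factorial : ℚ) ≠ 0 := by positivity
  rw [BB, Polynomial.eval_mul, Polynomial.eval_C, h2, h1]
  push_cast
  field_simp

theorem BB_natDegree (l : ℕ) : (BB l).natDegree ≤ l + 1 := by
  refine (Polynomial.natDegree_C_mul_le _ _).trans ?_
  rw [descPochhammer_natDegree]

theorem BB_zero : BB 0 = Polynomial.X := by
  simp [BB]

/-- the linear coefficients of the binomial polynomials -/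
noncomputable def bb (l : ℕ) : ℚ := (BB l).derivative.eval 0

theorem bb_zero : bb 0 = 1 := by simp [bb, BB_zero]

/-- extraction of the linear coefficient by integer evaluations -/
theorem exists_funct (K : ℕ) : ∃ (c : ℕ → ℤ) (N₀ : ℕ), 0 < N₀ ∧ ∀ R : Polynomial ℚ, R.natDegree ≤ K →
    ∑ m ∈ Finset.range (K + 1), (c m : ℚ) * R.eval (m : ℚ) = N₀ * R.derivative.eval 0 := by
  obtain ⟨a, ha⟩ : ∃ a : ℕ → ℚ, a = fun m => (Lagrange.basis (Finset.range (K + 1)) (Nat.cast : ℕ → ℚ) m).derivative.eval 0 := ⟨_, rfl⟩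
  obtain ⟨N₀, hN₀⟩ : ∃ N₀ : ℕ, N₀ = ∏ m ∈ Finset.range (K + 1), (a m).den := ⟨_, rfl⟩
  have hpos : 0 < N₀ := by
    rw [hN₀]; exact Finset.prod_pos fun m _ => (a m).den_pos
  have hint : ∀ m ∈ Finset.range (K + 1), ∃ z : ℤ, (z : ℚ) = N₀ * a m := by
    intro m hm
    obtain ⟨k, hk⟩ : (a m).den ∣ N₀ := by rw [hN₀]; exact Finset.dvd_prod_of_mem _ hm
    refine ⟨k * (a m).num, ?_⟩
    rw [hk]
    push_cast
    have := Rat.mul_den_eq_num (a m)
    calc (k : ℚ) * (a m).num = k * (a m * (a m).den) := by rw [this]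
      _ = _ := by ring
  choose! c hc using hint
  refine ⟨c, N₀, hpos, fun R hR => ?_⟩
  have h1 : R = Lagrange.interpolate (Finset.range (K + 1)) (Nat.cast : ℕ → ℚ) fun i => R.eval (i : ℚ) := by
    refine Lagrange.eq_interpolate (Nat.cast_injective.injOn) ?_
    rw [Finset.card_range]
    refine lt_of_le_of_lt Polynomial.degree_le_natDegree ?_
    exact_mod_cast Nat.lt_succ_of_le hR
  have h2 : R.derivative.eval 0 = ∑ m ∈ Finset.range (K + 1), R.eval (m : ℚ) * a m := by
    conv_lhs => rw [h1, Lagrange.interpolate_apply]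
    rw [Polynomial.derivative_sum, Polynomial.eval_finsetSum]
    refine Finset.sum_congr rfl fun m _ => ?_
    rw [Polynomial.derivative_C_mul, Polynomial.eval_mul, Polynomial.eval_C, ha]
  rw [h2, Finset.mul_sum]
  refine Finset.sum_congr rfl fun m hm => ?_
  rw [hc m hm]; ring

theorem comb {K : ℕ} {c : ℕ → ℤ} {N₀ : ℕ} (hc : ∀ R : Polynomial ℚ, R.natDegree ≤ K →
    ∑ m ∈ Finset.range (K + 1), (c m : ℚ) * R.eval (m : ℚ) = N₀ * R.derivative.eval 0)
    (p : Polynomial ℤ) (t : ℤ) (l : ℕ) (hl : (l + 1) * p.natDegree ≤ K) :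
    ∑ m ∈ Finset.range (K + 1), (c m : ℚ) *
      ((Ring.choose (p.eval (t + m) - p.eval t) (l + 1) : ℤ) : ℚ) =
      N₀ * (bb l * (p.derivative.eval t : ℤ)) := by
  obtain ⟨q, hq⟩ : ∃ q : Polynomial ℚ, q = (Polynomial.taylor t p - Polynomial.C (p.eval t)).map
    (Int.castRingHom ℚ) := ⟨_, rfl⟩
  have hqe : ∀ m : ℕ, q.eval (m : ℚ) = ((p.eval (t + m) - p.eval t : ℤ) : ℚ) := by
    intro m
    have : ((m : ℕ) : ℚ) = ((m : ℤ) : ℚ) := by push_cast; rfl
    rw [hq, this, Polynomial.eval_intCast_map, Polynomial.eval_sub, Polynomial.eval_C,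
      Polynomial.taylor_eval, add_comm]
    rfl
  have hq0 : q.eval 0 = 0 := by
    have := hqe 0
    rw [Nat.cast_zero] at this
    rw [this]; simp
  have hqd : q.natDegree ≤ p.natDegree := by
    rw [hq]
    refine (Polynomial.natDegree_map_le).trans ?_
    refine (Polynomial.natDegree_sub_le _ _).trans ?_
    rw [Polynomial.natDegree_taylor, Polynomial.natDegree_C]
    simp
  have hq' : q.derivative.eval 0 = ((p.derivative.eval t : ℤ) : ℚ) := by
    have h0 : (0 : ℚ) = ((0 : ℤ) : ℚ) := by simp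
    rw [hq, Polynomial.derivative_map, h0, Polynomial.eval_intCast_map, Polynomial.derivative_sub,
      Polynomial.derivative_C, sub_zero]
    have : (Polynomial.taylor t p).derivative = Polynomial.taylor t p.derivative := by
      rw [Polynomial.taylor_apply, Polynomial.taylor_apply, Polynomial.derivative_comp]
      simp
    rw [this, Polynomial.taylor_eval]; simp
  have h1 := hc ((BB l).comp q) (by
    rw [Polynomial.natDegree_comp]
    exact (Nat.mul_le_mul (BB_natDegree l) hqd).trans hl)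
  have h2 : ((BB l).comp q).derivative.eval 0 = bb l * (p.derivative.eval t : ℤ) := by
    rw [Polynomial.derivative_comp, Polynomial.eval_mul, Polynomial.eval_comp, hq0, hq', bb]
    ring
  rw [h2] at h1
  rw [← h1]
  refine Finset.sum_congr rfl fun m _ => ?_
  rw [Polynomial.eval_comp, hqe, BB_eval]

/-- the logarithmic operator -/
noncomputable def LL (s : ℕ) (N : R) : R := ∑ l ∈ Finset.range (s + 1), ((bb l : ℚ) : ℝ) • N ^ l

/-- its remainder -/
noncomputable def RR' (s : ℕ) (N : R) : R := ∑ l ∈ Finset.range s, ((bb (l + 1) : ℚ) : ℝ) • N ^ l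

theorem LL_eq (s : ℕ) (N : R) : LL s N = 1 + N * RR' s N := by
  unfold LL RR'
  rw [Finset.sum_range_succ', bb_zero, Finset.mul_sum, add_comm]
  simp only [pow_zero, Rat.cast_one, one_smul]
  congr 1
  refine Finset.sum_congr rfl fun l _ => ?_
  rw [mul_smul_comm, pow_succ']

theorem LL_unit {s : ℕ} {N : R} (hN : N ^ s = 0) : ∃ U : R, LL s N * U = 1 := by
  have hc : Commute N (RR' s N) := by
    unfold RR'
    refine Commute.sum_right _ _ _ fun l _ => ?_
    exact ((Commute.refl N).pow_right l).smul_right _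
  have h1 : IsNilpotent (N * RR' s N) := hc.isNilpotent_mul_right ⟨s, hN⟩
  rw [LL_eq]
  obtain ⟨u, hu⟩ := h1.isUnit_one_add
  exact ⟨u⁻¹.1, by rw [← hu]; exact u.mul_inv⟩

theorem sum_SS {K : ℕ} {c : ℕ → ℤ} {N₀ : ℕ} (hc : ∀ R : Polynomial ℚ, R.natDegree ≤ K →
    ∑ m ∈ Finset.range (K + 1), (c m : ℚ) * R.eval (m : ℚ) = N₀ * R.derivative.eval 0)
    (p : Polynomial ℤ) (t : ℤ) (s : ℕ) (N : R) (hK : (s + 1) * p.natDegree ≤ K) :
    ∑ m ∈ Finset.range (K + 1), ((c m : ℤ) : ℝ) • SS s N (p.eval (t + m) - p.eval t) =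
      ((N₀ : ℝ) * ((p.derivative.eval t : ℤ) : ℝ)) • LL s N := by
  unfold SS LL
  simp_rw [Finset.smul_sum, smul_smul]
  rw [Finset.sum_comm]
  refine Finset.sum_congr rfl fun l hl => ?_
  rw [← Finset.sum_smul]
  congr 1
  have h1 := comb hc p t l ((Nat.mul_le_mul_right _ (by
    rw [Finset.mem_range] at hl; omega)).trans hK)
  have h2 := congrArg (fun x : ℚ => (x : ℝ)) h1
  simp only [Rat.cast_sum, Rat.cast_mul, Rat.cast_intCast, Rat.cast_natCast] at h2
  rw [h2]; ring

end alg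

variable {E : Type*} [NormedAddCommGroup E] [NormedSpace ℝ E]
variable {G : Type*} [Group G] [TopologicalSpace G] [IsTopologicalGroup G]
variable {c : Ch E G}

theorem Ad_zpow {s : ℕ} (hs : LC G s = ⊥) (x : G) (P : ℤ) :
    Ad c (x ^ P) = TS s (Ad c x - 1) P := by
  have hN := Ad_nil (c := c) hs x
  have hA : (1 : E →L[ℝ] E) + (Ad c x - 1) = Ad c x := by abel
  have hinv : Ad c x * Ad c x⁻¹ = 1 := by
    have := Ad_mul (c := c) x x⁻¹
    rw [mul_inv_cancel, Ad_one] at this
    exact this.symm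
  induction P using Int.induction_on with
  | zero => rw [zpow_zero, Ad_one, TS_zero]; rfl
  | succ P ih =>
    rw [TS_succ hN, hA, ← ih, zpow_add_one, Ad_mul]; rfl
  | pred P ih =>
    have h1 := TS_succ hN (-(P : ℤ) - 1)
    rw [sub_add_cancel, hA, ← ih] at h1
    have h2 : Ad c (x ^ (-(P : ℤ))) = Ad c (x ^ (-(P : ℤ) - 1)) * Ad c x := by
      have := Ad_mul (c := c) (x ^ (-(P : ℤ) - 1)) x
      rw [zpow_sub_one, inv_mul_cancel_right] at this
      rw [zpow_sub_one]
      exact this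
    rw [h2] at h1
    have h3 := congrArg (fun z => z * Ad c x⁻¹) h1
    simp only [mul_assoc, hinv, mul_one] at h3
    exact h3

/-- the velocity of powers -/
theorem Vel.pow_div {s : ℕ} (hs : LC G s = ⊥) (x : G) (P : ℤ) :
    Vel c (fun w => (c.ψ w * x) ^ P * (x ^ P)⁻¹) (SS s (Ad c x - 1) P) := by
  induction P using Int.induction_on with
  | zero => rw [SS_zero]; simpa using Vel.const c
  | succ P ih =>
    have h1 := ih.mul ((Vel.psi c).conj (x ^ (P : ℤ)))
    rw [Ad_zpow hs, ContinuousLinearMap.comp_id, ← SS_succ] at h1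
    have e : (fun w => (c.ψ w * x) ^ ((P : ℤ) + 1) * (x ^ ((P : ℤ) + 1))⁻¹) =
        fun w => (c.ψ w * x) ^ (P : ℤ) * (x ^ (P : ℤ))⁻¹ * (x ^ (P : ℤ) * c.ψ w * (x ^ (P : ℤ))⁻¹) := by
      funext w
      rw [zpow_add_one, zpow_add_one]; group
    rw [e]; exact h1
  | pred P ih =>
    have h1 := ih.mul ((Vel.psi c).conj (x ^ (-(P : ℤ) - 1))).inv
    have h2 := SS_succ s (Ad c x - 1) (-(P : ℤ) - 1)
    rw [sub_add_cancel] at h2
    rw [Ad_zpow hs, ContinuousLinearMap.comp_id, h2, add_neg_cancel_right] at h1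
    have e : (fun w => (c.ψ w * x) ^ (-(P : ℤ) - 1) * (x ^ (-(P : ℤ) - 1))⁻¹) =
        fun w => (c.ψ w * x) ^ (-(P : ℤ)) * (x ^ (-(P : ℤ)))⁻¹ *
          (x ^ (-(P : ℤ) - 1) * c.ψ w * (x ^ (-(P : ℤ) - 1))⁻¹)⁻¹ := by
      funext w
      rw [zpow_sub_one, zpow_sub_one]
      group
    rw [e]; exact h1

end Pool.Agent.K6.H55.NS
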