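import Pool.Agent.K6.H55.NS.V2
import Pool.Agent.K6.H55.NS.A3

/-! Lipschitz estimates for characters, and paths. -/

set_option autoImplicit false
set_option linter.unusedSectionVars false

namespace Pool.Agent.K6.H55.NS

open Set Topology Filter Asymptotics

variable {E : Type*} [NormedAddCommGroup E] [NormedSpace ℝ E]
variable {G : Type*} [Group G] [TopologicalSpace G] [IsTopologicalGroup G]

theorem Ch.m_est (c : Ch E G) : ∀ᶠ p : E × E in 𝓝 0, ‖c.φ (c.ψ p.1 * c.ψ p.2)‖ ≤ ‖p.1‖ + 2 * ‖p.2‖ := by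
  have h1 := c.mstrict.isLittleO.bound (zero_lt_one)
  have h2 : Tendsto (fun p : E × E => (p, ((p.1, 0) : E × E))) (𝓝 0) (𝓝 ((0 : E × E), (0 : E × E))) := by
    have : Continuous (fun p : E × E => (p, ((p.1, 0) : E × E))) := by fun_prop
    exact this.tendsto' _ _ (by simp)
  have h3 : ∀ᶠ p : E × E in 𝓝 0, c.φ (c.ψ p.1) = p.1 := by
    have : Tendsto (fun p : E × E => p.1) (𝓝 0) (𝓝 0) := continuous_fst.tendsto' _ _ rfl
    exact this.eventually c.φψ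
  filter_upwards [h2.eventually h1, h3] with p hp hp3
  simp only [one_mul, _root_.add_apply, ContinuousLinearMap.coe_fst',
    ContinuousLinearMap.coe_snd', Prod.fst_sub, Prod.snd_sub, sub_self, zero_add, sub_zero,
    c.ψ0, mul_one, hp3] at hp
  have h5 : ‖p - (p.1, 0)‖ ≤ ‖p.2‖ := by
    rw [Prod.norm_def]
    simp
  have h6 : c.φ (c.ψ p.1 * c.ψ p.2) = (c.φ (c.ψ p.1 * c.ψ p.2) - p.1 - p.2) + p.1 + p.2 := by abel
  rw [h6]
  calc _ ≤ ‖c.φ (c.ψ p.1 * c.ψ p.2) - p.1 - p.2‖ + ‖p.1‖ + ‖p.2‖ := norm_add₃_le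
    _ ≤ ‖p.2‖ + ‖p.1‖ + ‖p.2‖ := by gcongr; exact hp.trans h5
    _ = _ := by ring

theorem Ch.pow_est (c : Ch E G) {O : Set G} (hO : O ∈ 𝓝 (1 : G)) :
    ∃ r > 0, ∃ O' ∈ 𝓝 (1 : G), ∀ x ∈ O', ∀ κ : ℝ, ‖c.φ x‖ ≤ κ → ∀ n : ℕ, 2 * n * κ ≤ r →
      x ^ n ∈ O ∧ ‖c.φ (x ^ n)‖ ≤ 2 * n * κ := by
  have h1 : ∀ᶠ p : E × E in 𝓝 0, c.ψ p.1 * c.ψ p.2 ∈ O ∧
      c.ψ (c.φ (c.ψ p.1 * c.ψ p.2)) = c.ψ p.1 * c.ψ p.2 := by
    have h2 : Tendsto (fun p : E × E => c.ψ p.1 * c.ψ p.2) (𝓝 0) (𝓝 1) := by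
      have h3 : Tendsto (fun p : E × E => c.ψ p.1) (𝓝 0) (𝓝 1) :=
        c.ψt.comp (continuous_fst.tendsto' _ _ rfl)
      have h4 : Tendsto (fun p : E × E => c.ψ p.2) (𝓝 0) (𝓝 1) :=
        c.ψt.comp (continuous_snd.tendsto' _ _ rfl)
      have := h3.mul h4
      rwa [one_mul] at this
    exact (h2.eventually hO).and (h2.eventually c.ψφ)
  obtain ⟨δ, hδ, hball⟩ := Metric.eventually_nhds_iff_ball.1 (h1.and c.m_est)
  refine ⟨δ / 2, by positivity, {x | c.ψ (c.φ x) = x}, c.ψφ, ?_⟩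
  intro x hx κ hκ
  have hκ0 : 0 ≤ κ := (norm_nonneg _).trans hκ
  intro n
  have key : 2 * n * κ ≤ δ / 2 → (x ^ n ∈ O ∧ ‖c.φ (x ^ n)‖ ≤ 2 * n * κ) ∧
      c.ψ (c.φ (x ^ n)) = x ^ n := by
    induction n with
    | zero =>
      intro _
      rw [pow_zero]
      refine ⟨⟨mem_of_mem_nhds hO, by rw [c.φ1]; simp⟩, by rw [c.φ1, c.ψ0]⟩
    | succ n ih =>
      intro hn
      push_cast at hn
      obtain ⟨⟨_, h3⟩, h4⟩ := ih (by nlinarith)
      have h5 : ‖c.φ (x ^ n)‖ < δ := by nlinarith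
      have h6 : ‖c.φ x‖ < δ := by
        have : (0 : ℝ) ≤ 2 * n * κ := by positivity
        nlinarith
      have h7 := hball (c.φ (x ^ n), c.φ x) (by
        rw [mem_ball_zero_iff, Prod.norm_def]; exact max_lt h5 h6)
      simp only [h4] at h7
      rw [show c.ψ (c.φ x) = x from hx, ← pow_succ] at h7
      refine ⟨⟨h7.1.1, ?_⟩, h7.1.2⟩
      push_cast
      nlinarith [h7.2]
  exact fun h => (key h).1

theorem circle_sum {z : Circle} {n : ℕ} (h : ∀ j < n, ‖((z : ℂ)) ^ j - 1‖ < 1 / 2) :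
    (n : ℝ) / 2 * ‖(z : ℂ) - 1‖ ≤ ‖(z : ℂ) ^ n - 1‖ := by
  have h1 : (z : ℂ) ^ n - 1 = (∑ j ∈ Finset.range n, (z : ℂ) ^ j) * ((z : ℂ) - 1) := (geom_sum_mul _ n).symm
  rw [h1, norm_mul]
  refine mul_le_mul_of_nonneg_right ?_ (norm_nonneg _)
  have h2 : (n : ℝ) / 2 ≤ (∑ j ∈ Finset.range n, (z : ℂ) ^ j).re := by
    rw [Complex.re_sum]
    have h3 : ∀ j ∈ Finset.range n, (1 / 2 : ℝ) ≤ ((z : ℂ) ^ j).re := by
      intro j hj
      have h4 := h j (Finset.mem_range.1 hj)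
      have h5 : |((z : ℂ) ^ j - 1).re| ≤ ‖(z : ℂ) ^ j - 1‖ := Complex.abs_re_le_norm _
      rw [Complex.sub_re, Complex.one_re] at h5
      have := abs_le.1 (h5.trans h4.le)
      linarith [this.1]
    have h6 := Finset.sum_le_sum h3
    rw [Finset.sum_const, Finset.card_range, nsmul_eq_mul] at h6
    linarith
  exact h2.trans (Complex.re_le_norm _)

/-- **Characters are Lipschitz.** -/
theorem Ch.lip (c : Ch E G) {M : Type*} [Group M] (β : M →* Circle) {ι : Type*} (F : Finset ι)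
    (ev : ι → M →* G) {O : Set G} (hO : O ∈ 𝓝 (1 : G))
    (hβ : ∀ m, (∀ k ∈ F, ev k m ∈ O) → β m ∈ nbd) :
    ∃ C > 0, ∃ r > 0, ∃ O' ∈ 𝓝 (1 : G), ∀ m, ∀ κ : ℝ, 0 < κ → κ ≤ r →
      (∀ k ∈ F, ev k m ∈ O' ∧ ‖c.φ (ev k m)‖ ≤ κ) → ‖(β m : ℂ) - 1‖ ≤ C * κ := by
  obtain ⟨r, hr, O', hO', h1⟩ := c.pow_est hO
  refine ⟨4 / r, by positivity, r / 2, by positivity, O', hO', fun m κ hκ hκr hm => ?_⟩
  obtain ⟨n, hn⟩ : ∃ n : ℕ, n = ⌊r / (2 * κ)⌋₊ := ⟨_, rfl⟩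
  have hx : 1 ≤ r / (2 * κ) := by rw [le_div_iff₀ (by positivity)]; linarith
  have hn1 : 1 ≤ n := by rw [hn]; exact Nat.one_le_floor_iff _ |>.2 hx
  have hn2 : (n : ℝ) ≤ r / (2 * κ) := by rw [hn]; exact Nat.floor_le (by positivity)
  have hn3 : r / (2 * κ) < n + 1 := by rw [hn]; exact Nat.lt_floor_add_one _
  have hj : ∀ j ≤ n, ‖((β m : Circle) : ℂ) ^ j - 1‖ < 1 / 2 := by
    intro j hj
    have h2 : β (m ^ j) ∈ nbd := by
      refine hβ _ fun k hk => ?_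
      rw [map_pow]
      refine (h1 _ (hm k hk).1 κ (hm k hk).2 j ?_).1
      have h3 : (j : ℝ) ≤ n := by exact_mod_cast hj
      rw [le_div_iff₀ (by positivity)] at hn2
      nlinarith
    rw [map_pow] at h2
    simpa [nbd] using h2
  have h4 := circle_sum (z := β m) (n := n) (fun j hj' => hj j hj'.le)
  have h5 := (h4.trans (hj n le_rfl).le)
  have hn0 : (0 : ℝ) < n := by exact_mod_cast hn1
  have hn4 : r / (2 * κ) ≤ 2 * n := by
    have : (1 : ℝ) ≤ n := by exact_mod_cast hn1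
    linarith
  rw [div_le_iff₀ (by positivity)] at hn4
  have h6 : ‖(β m : ℂ) - 1‖ * n ≤ 1 := by linarith
  have h7 : ‖(β m : ℂ) - 1‖ ≤ 1 / n := by rw [le_div_iff₀ hn0]; exact h6
  refine h7.trans ?_
  rw [div_mul_eq_mul_div, div_le_div_iff₀ hn0 hr]
  nlinarith

/-- characters of elements with velocity zero -/
theorem Ch.lip_o (c : Ch E G) {M : Type*} [Group M] (β : M →* Circle) {ι : Type*} (F : Finset ι)
    (ev : ι → M →* G) {O : Set G} (hO : O ∈ 𝓝 (1 : G))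
    (hβ : ∀ m, (∀ k ∈ F, ev k m ∈ O) → β m ∈ nbd) {ρ : E → M}
    (hρ : ∀ k, Vel c (fun w => ev k (ρ w)) 0) :
    (fun w => (β (ρ w) : ℂ) - 1) =o[𝓝 0] (fun w => w) := by
  obtain ⟨C, hC, r, hr, O', hO', h1⟩ := c.lip β F ev hO hβ
  rw [isLittleO_iff]
  intro ε hε
  have hev1 : ∀ᶠ w in 𝓝 (0 : E), ∀ k ∈ F, ev k (ρ w) ∈ O' := by
    rw [Filter.eventually_all_finset]
    intro k _
    exact (hρ k).t.eventually hO'
  have hev2 : ∀ᶠ w in 𝓝 (0 : E), ∀ k ∈ F, ‖c.φ (ev k (ρ w))‖ ≤ ε / C * ‖w‖ := by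
    rw [Filter.eventually_all_finset]
    intro k _
    have h2 := (hρ k).der.isLittleO.bound (show 0 < ε / C by positivity)
    filter_upwards [h2] with w hw
    simpa [(hρ k).one, c.φ1] using hw
  have hev3 : ∀ᶠ w in 𝓝 (0 : E), ε / C * ‖w‖ ≤ r := by
    have : Tendsto (fun w : E => ε / C * ‖w‖) (𝓝 0) (𝓝 0) := by
      have h3 : Continuous (fun w : E => ε / C * ‖w‖) := by fun_prop
      exact h3.tendsto' _ _ (by simp)
    exact this.eventually (Iic_mem_nhds hr)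
  filter_upwards [hev1, hev2, hev3] with w hw1 hw2 hw3
  by_cases hw : w = 0
  · have h4 : ∀ κ : ℝ, 0 < κ → κ ≤ r → ‖(β (ρ w) : ℂ) - 1‖ ≤ C * κ := by
      intro κ hκ hκr
      refine h1 _ κ hκ hκr fun k hk => ⟨hw1 k hk, ?_⟩
      have := hw2 k hk
      rw [hw, norm_zero, mul_zero] at this
      rw [hw]
      exact this.trans hκ.le
    rw [hw, norm_zero, mul_zero]
    rw [hw] at h4
    refine le_of_forall_pos_le_add fun η hη => ?_
    rw [zero_add]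
    refine (h4 (min r (η / C)) (lt_min hr (by positivity)) (min_le_left _ _)).trans ?_
    calc C * min r (η / C) ≤ C * (η / C) := by gcongr; exact min_le_right _ _
      _ = η := by field_simp
  · have hpos : 0 < ε / C * ‖w‖ := by
      have := norm_pos_iff.2 hw
      positivity
    refine (h1 _ _ hpos hw3 fun k hk => ⟨hw1 k hk, hw2 k hk⟩).trans ?_
    have : C * (ε / C * ‖w‖) = ε * ‖w‖ := by field_simp
    rw [this]

/-- roots of little-o -/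
theorem circle_root_o {D : E → Circle} {N : ℕ} (hN : 0 < N) (h1 : Tendsto D (𝓝 0) (𝓝 1))
    (h2 : (fun w => ((D w : ℂ)) ^ N - 1) =o[𝓝 0] (fun w => w)) :
    (fun w => (D w : ℂ) - 1) =o[𝓝 0] (fun w => w) := by
  have h3 : ∀ᶠ w in 𝓝 (0 : E), ∀ j ∈ Finset.range N, ‖((D w : ℂ)) ^ j - 1‖ < 1 / 2 := by
    rw [Filter.eventually_all_finset]
    intro j _
    have h4 : Tendsto (fun w => ‖((D w : ℂ)) ^ j - 1‖) (𝓝 0) (𝓝 0) := by
      have h5 : Continuous (fun z : Circle => ‖((z : ℂ)) ^ j - 1‖) := by fun_prop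
      have h6 := h5.tendsto (1 : Circle)
      simp only [Circle.coe_one, one_pow, sub_self, norm_zero] at h6
      exact h6.comp h1
    exact h4.eventually (Iio_mem_nhds (by norm_num))
  refine IsBigO.trans_isLittleO ?_ h2
  rw [isBigO_iff]
  refine ⟨2, ?_⟩
  filter_upwards [h3] with w hw
  have h7 := circle_sum (z := D w) (n := N) (fun j hj => hw j (Finset.mem_range.2 hj))
  have h8 : (1 : ℝ) ≤ N := by exact_mod_cast hN
  nlinarith [norm_nonneg ((D w : ℂ) - 1)]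

/-- **Functions with vanishing logarithmic derivative are locally constant.** -/
theorem Ch.path (c : Ch E G) {S : Set G} (hS : S ∈ 𝓝 (1 : G)) :
    ∃ O ∈ 𝓝 (1 : G), O ⊆ S ∧ ∀ H : G → Circle,
      (∀ u ∈ S, (fun z : E => ((H (c.ψ z * u) * (H u)⁻¹ : Circle) : ℂ) - 1) =o[𝓝 0] (fun z => z)) →
      ∀ u ∈ O, H u = H 1 := by
  have hx : Tendsto (fun w => (c.ψ w)⁻¹) (𝓝 0) (𝓝 1) := by
    have := c.ψt.inv; rwa [inv_one] at this
  have hd : ∀ᶠ p : E × E in 𝓝 0, DifferentiableAt ℝ (fun p : E × E => c.φ (c.ψ p.1 * c.ψ p.2)) p := by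
    have h1 := c.mul.eventually (by simp)
    filter_upwards [h1] with p hp
    exact hp.differentiableAt (by norm_num)
  have hd' : ∀ᶠ w in 𝓝 (0 : E), DifferentiableAt ℝ (fun p : E × E => c.φ (c.ψ p.1 * c.ψ p.2))
      (w, c.φ ((c.ψ w)⁻¹)) := by
    have h1 : Tendsto (fun w : E => (w, c.φ ((c.ψ w)⁻¹))) (𝓝 0) (𝓝 0) := by
      have h2 : Tendsto (fun w : E => c.φ ((c.ψ w)⁻¹)) (𝓝 0) (𝓝 0) := c.φt.comp hx
      have := (tendsto_id (α := E) (x := 𝓝 0)).prodMk_nhds h2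
      exact this
    exact h1.eventually hd
  obtain ⟨r, hr, hball⟩ := Metric.eventually_nhds_iff_ball.1
    ((c.ψt.eventually hS).and (c.cψ'.and (c.φψ.and ((hx.eventually c.ψφ).and hd'))))
  refine ⟨{x | c.ψ (c.φ x) = x} ∩ c.φ ⁻¹' (Metric.ball 0 r), ?_, ?_, ?_⟩
  · exact inter_mem c.ψφ (c.φt (Metric.ball_mem_nhds _ hr))
  · rintro u ⟨hu, hur⟩
    have := (hball _ hur).1
    rwa [show c.ψ (c.φ u) = u from hu] at this
  intro H hH u hu
  obtain ⟨F, hF⟩ : ∃ F : E → ℂ, F = fun w => (H (c.ψ w) : ℂ) := ⟨_, rfl⟩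
  have hder : ∀ w ∈ Metric.ball (0 : E) r, HasFDerivAt F (0 : E →L[ℝ] ℂ) w := by
    intro w hw
    obtain ⟨h1, h2, h3, h4, h5⟩ := hball w hw
    -- the displacement
    have hν : Tendsto (fun w' => c.ψ w' * (c.ψ w)⁻¹) (𝓝 w) (𝓝 1) := by
      have := h2.tendsto.mul_const (c.ψ w)⁻¹
      rwa [mul_inv_cancel] at this
    have hz : (fun w' => c.φ (c.ψ w' * (c.ψ w)⁻¹)) =O[𝓝 w] fun w' => w' - w := by
      have h6 : DifferentiableAt ℝ (fun w' : E => c.φ (c.ψ w' * c.ψ (c.φ ((c.ψ w)⁻¹)))) w := by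
        have h7 : DifferentiableAt ℝ (fun w' : E => ((w', c.φ ((c.ψ w)⁻¹)) : E × E)) w := by fun_prop
        exact DifferentiableAt.comp (g := fun p : E × E => c.φ (c.ψ p.1 * c.ψ p.2)) w h5 h7
      have h8 := h6.hasFDerivAt.isBigO_sub
      rw [h4] at h8
      simp only [mul_inv_cancel, c.φ1, sub_zero] at h8
      exact h8
    have hz0 : Tendsto (fun w' => c.φ (c.ψ w' * (c.ψ w)⁻¹)) (𝓝 w) (𝓝 0) := c.φt.comp hν
    have h9 := (hH (c.ψ w) h1).comp_tendsto hz0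
    have h10 := h9.trans_isBigO hz
    rw [hasFDerivAt_iff_isLittleO]
    refine IsLittleO.congr' (f₁ := fun w' => (H (c.ψ w) : ℂ) *
      (((H (c.ψ (c.φ (c.ψ w' * (c.ψ w)⁻¹)) * c.ψ w) * (H (c.ψ w))⁻¹ : Circle) : ℂ) - 1))
      (h10.const_mul_left (H (c.ψ w) : ℂ)) ?_ (EventuallyEq.refl _ _)
    filter_upwards [hν.eventually c.ψφ] with w' hw'
    have h11 : ((H (c.ψ w)) : ℂ) ≠ 0 := Circle.coe_ne_zero _
    rw [hw', inv_mul_cancel_right, hF, Circle.coe_mul, Circle.coe_inv]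
    simp only [_root_.zero_apply, sub_zero]
    field_simp
  have hconst := (convex_ball (0 : E) r).is_const_of_fderivWithin_eq_zero (𝕜 := ℝ) (f := F)
    (fun w hw => (hder w hw).differentiableAt.differentiableWithinAt)
    (fun w hw => by
      rw [fderivWithin_of_isOpen Metric.isOpen_ball hw]
      exact (hder w hw).fderiv) hu.2 (Metric.mem_ball_self hr)
  rw [hF] at hconst
  simp only [c.ψ0] at hconst
  rw [show c.ψ (c.φ u) = u from hu.1] at hconst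
  exact Subtype.ext hconst

end Pool.Agent.K6.H55.NS
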