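import Pool.Agent.K6.H55.NS.B2
import Pool.Agent.K6.H55.NS.R3
import Pool.Agent.K6.H55.NS.V3

/-! The group generated by the difference sequences. -/

set_option autoImplicit false
set_option linter.unusedSectionVars false

namespace Pool.Agent.K6.H55.NS

open Set Topology Filter Pointwise
open scoped commutatorElement

variable {ι G : Type} [Group G] {Φ : ℕ → Subgroup G}

/-- the standing data: a filtration and polynomials -/
structure PD (ι : Type) {G : Type} [Group G] (Φ : ℕ → Subgroup G) : Type where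
  fil : Fil0 Φ
  p : ι → Polynomial ℤ
  hP : ∀ i, ∀ x : G, PP Φ 1 (fun t => x ^ ((p i).eval (t + 1) - (p i).eval t))
  hD : ∀ x : G, PP Φ 1 (fun _ => x)

namespace PD

variable (d : PD ι Φ)

/-- the group of polynomial sequences -/
abbrev N : Type := NN ι d.fil

/-- the difference sequence -/
def sg (x : G) : d.N := ⟨⟨fun i t => x ^ ((d.p i).eval (t + 1) - (d.p i).eval t), 1⟩, fun i => d.hP i x⟩

/-- the constant sequence -/
def dg : G →* d.N where
  toFun x := ⟨⟨fun _ _ => x, 0⟩, fun _ => d.hD x⟩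
  map_one' := rfl
  map_mul' x y := Subtype.ext (Sg.ext' (fun _ _ => rfl) (by simp))

@[simp] theorem dg_f (x : G) (i : ι) (t : ℤ) : (d.dg x).1.f i t = x := rfl
@[simp] theorem dg_n (x : G) : (d.dg x).1.n = 0 := rfl
@[simp] theorem sg_f (x : G) (i : ι) (t : ℤ) :
    (d.sg x).1.f i t = x ^ ((d.p i).eval (t + 1) - (d.p i).eval t) := rfl
@[simp] theorem sg_n (x : G) : (d.sg x).1.n = 1 := rfl

theorem sg_zpow (x : G) (m : ℤ) :
    (∀ i t, ((d.sg x) ^ m).1.f i t = x ^ ((d.p i).eval (t + m) - (d.p i).eval t)) ∧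
      ((d.sg x) ^ m).1.n = m := by
  induction m using Int.induction_on with
  | zero => simp
  | succ m ih =>
    rw [zpow_add_one]
    refine ⟨fun i t => ?_, ?_⟩
    · rw [Subgroup.coe_mul, Sg.mul_f, ih.1, ih.2, sg_f, ← zpow_add]
      congr 1
      rw [← add_assoc]; ring
    · rw [Subgroup.coe_mul, Sg.mul_n, ih.2, sg_n]
  | pred m ih =>
    rw [zpow_sub_one]
    refine ⟨fun i t => ?_, ?_⟩
    · rw [Subgroup.coe_mul, Sg.mul_f, ih.1, ih.2, Subgroup.coe_inv, Sg.inv_f, sg_n, sg_f,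
        ← zpow_neg, ← zpow_add]
      congr 1
      rw [show t + -(m : ℤ) - 1 + 1 = t + -(m : ℤ) by ring,
        show t + (-(m : ℤ) - 1) = t + -(m : ℤ) - 1 by ring]
      ring
    · rw [Subgroup.coe_mul, Sg.mul_n, ih.2, Subgroup.coe_inv, Sg.inv_n, sg_n]; ring

theorem ext {a b : d.N} (h : ∀ i t, a.1.f i t = b.1.f i t) (h' : a.1.n = b.1.n) : a = b :=
  Subtype.ext (Sg.ext' h h')

theorem sg_comm (g : G) : Commute (d.sg g) (d.dg g) := by
  refine d.ext (fun i t => ?_) ?_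
  · show g ^ _ * g = g * g ^ _
    rw [dg_n, add_zero]
    exact ((Commute.refl g).zpow_left _).eq
  · show (1 : ℤ) + 0 = 0 + 1
    rfl

theorem dg_conj (x y : G) : d.dg x * d.sg y * (d.dg x)⁻¹ = d.sg (x * y * x⁻¹) := by
  refine d.ext (fun i t => ?_) ?_
  · rw [← map_inv]
    show x * y ^ _ * x⁻¹ = (x * y * x⁻¹) ^ _
    rw [conj_zpow, dg_n, add_zero]
  · rw [← map_inv]
    show (0 : ℤ) + 1 + 0 = 1
    rfl

/-- the first generators -/
def E0 [TopologicalSpace G] [IsTopologicalGroup G] (g : G) : Set d.N :=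
  {e | ∃ u ∈ G0 G, e = d.dg u} ∪ {e | ∃ u ∈ G0 G, ∃ v ∈ G0 G, e = d.sg (u * (v * g)) * (d.sg (v * g))⁻¹}

/-- the group `K` -/
def K [TopologicalSpace G] [IsTopologicalGroup G] (g : G) : Subgroup d.N :=
  Subgroup.closure ({d.dg g} ∪ {e | ∃ u ∈ G0 G, e = d.dg u} ∪ {e | ∃ v ∈ G0 G, e = d.sg (v * g)})

/-- the group `E` -/
def EE [TopologicalSpace G] [IsTopologicalGroup G] (g : G) : Subgroup d.N :=
  Subgroup.closure {x | ∃ κ ∈ d.K g, ∃ e ∈ d.E0 g, x = κ * e * κ⁻¹}

section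
variable [TopologicalSpace G] [IsTopologicalGroup G] (g : G)

theorem dg_g_mem : d.dg g ∈ d.K g := Subgroup.subset_closure (Or.inl (Or.inl rfl))

theorem dg_mem {u : G} (hu : u ∈ G0 G) : d.dg u ∈ d.K g :=
  Subgroup.subset_closure (Or.inl (Or.inr ⟨u, hu, rfl⟩))

theorem sg_mem {v : G} (hv : v ∈ G0 G) : d.sg (v * g) ∈ d.K g :=
  Subgroup.subset_closure (Or.inr ⟨v, hv, rfl⟩)

theorem sg_g_mem : d.sg g ∈ d.K g := by
  have := d.sg_mem g (one_mem (G0 G))
  rwa [one_mul] at this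

theorem E0_le : d.E0 g ⊆ d.K g := by
  rintro e (⟨u, hu, rfl⟩ | ⟨u, hu, v, hv, rfl⟩)
  · exact d.dg_mem g hu
  · refine mul_mem ?_ (inv_mem (d.sg_mem g hv))
    rw [← mul_assoc]
    exact d.sg_mem g (mul_mem hu hv)

theorem EE_le : d.EE g ≤ d.K g := by
  rw [EE, Subgroup.closure_le]
  rintro x ⟨κ, hκ, e, he, rfl⟩
  exact mul_mem (mul_mem hκ (d.E0_le g he)) (inv_mem hκ)

theorem EE_norm : ∀ v ∈ d.K g, ∀ e ∈ d.EE g, v * e * v⁻¹ ∈ d.EE g := by
  intro v hv e he
  have h1 : d.EE g ≤ (d.EE g).comap (MulAut.conj v).toMonoidHom := by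
    conv_lhs => rw [EE]
    rw [Subgroup.closure_le]
    rintro x ⟨κ, hκ, e, he, rfl⟩
    refine Subgroup.subset_closure ⟨v * κ, mul_mem hv hκ, e, he, ?_⟩
    show v * (κ * e * κ⁻¹) * v⁻¹ = _
    group
  exact h1 he

theorem E0_le_EE : d.E0 g ⊆ d.EE g := fun e he =>
  Subgroup.subset_closure ⟨1, one_mem _, e, he, by simp⟩

theorem EE_n : ∀ e ∈ d.EE g, e.1.n = 0 := by
  intro e he
  induction he using Subgroup.closure_induction with
  | mem x hx =>
    obtain ⟨κ, hκ, e, he, rfl⟩ := hx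
    have h1 : e.1.n = 0 := by
      rcases he with ⟨u, hu, rfl⟩ | ⟨u, hu, v, hv, rfl⟩
      · rfl
      · simp
    simp [h1]
  | one => rfl
  | mul x y _ _ hx hy => simp [hx, hy]
  | inv x _ hx => simp [hx]

theorem continuous_dg : Continuous d.dg := by
  refine Continuous.subtype_mk ?_ _
  rw [Sg.continuous_iff]
  exact ⟨fun i t => continuous_id, continuous_const⟩

theorem continuous_sg : Continuous d.sg := by
  refine Continuous.subtype_mk ?_ _
  rw [Sg.continuous_iff]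
  exact ⟨fun i t => continuous_zpow _, continuous_const⟩

end

variable [TopologicalSpace G] [IsTopologicalGroup G] [LocallyConnectedSpace G]

theorem _root_.Pool.Agent.K6.H55.NS.clopen_ind (P : G → Prop) (h1 : P 1)
    (hloc : ∀ u ∈ G0 G, ∃ O ∈ 𝓝 (1 : G), ∀ v ∈ O, v ∈ G0 G → (P (v * u) ↔ P u)) :
    ∀ u ∈ G0 G, P u := by
  have hopen : ∀ P' : G → Prop, (∀ u ∈ G0 G, ∃ O ∈ 𝓝 (1 : G), ∀ v ∈ O, v ∈ G0 G → (P' u → P' (v * u))) →
      IsOpen {u : G | u ∈ G0 G ∧ P' u} := by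
    intro P' hP'
    rw [isOpen_iff_mem_nhds]
    rintro u ⟨hu, hPu⟩
    obtain ⟨O, hO, h2⟩ := hP' u hu
    have h3 : Tendsto (fun w : G => w * u⁻¹) (𝓝 u) (𝓝 1) := by
      have := (continuous_mul_const u⁻¹).tendsto u
      rwa [mul_inv_cancel] at this
    filter_upwards [h3.eventually hO, h3.eventually (G0_open.mem_nhds (one_mem (G0 G)))] with w hw hw'
    have h4 := h2 _ hw hw' hPu
    rw [inv_mul_cancel_right] at h4
    refine ⟨?_, h4⟩
    have := mul_mem hw' hu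
    rwa [inv_mul_cancel_right] at this
  have ho1 := hopen P (fun u hu => by
    obtain ⟨O, hO, h2⟩ := hloc u hu
    exact ⟨O, hO, fun v hv hv' => (h2 v hv hv').2⟩)
  have ho2 := hopen (fun u => ¬ P u) (fun u hu => by
    obtain ⟨O, hO, h2⟩ := hloc u hu
    exact ⟨O, hO, fun v hv hv' h3 h4 => h3 ((h2 v hv hv').1 h4)⟩)
  have h5 : connectedComponent (1 : G) ⊆ {u : G | u ∈ G0 G ∧ P u} := by
    refine IsPreconnected.subset_left_of_subset_union ho1 ho2 ?_ ?_ ?_ isPreconnected_connectedComponent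
    · rw [Set.disjoint_left]
      exact fun u hu hu' => hu'.2 hu.2
    · intro u hu
      by_cases hPu : P u
      · exact Or.inl ⟨hu, hPu⟩
      · exact Or.inr ⟨hu, hPu⟩
    · exact ⟨1, mem_connectedComponent, mem_connectedComponent, h1⟩
  exact fun u hu => (h5 hu).2

variable [T2Space G] {Γ : Subgroup G} {Qs : ℕ → Set G} {D : ℕ}

/-- **The data of the invariance theorem.** -/
theorem dat (h : Fil Φ Γ Qs D) (g : G) :
    Dat (GN ι d.fil Γ) {a : NN ι d.fil | a.1.n = 0 ∧ ∀ i, a.1.f i ∈ KK Qs D} (FF ι d.fil) (D + 1)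
      (AA (d.sg_comm g) 1) (d.K g) (d.EE g) where
  ser := h.ser ι
  hA := by
    rintro _ ⟨n, l, rfl⟩
    exact mul_mem (zpow_mem (d.sg_g_mem g) _) (zpow_mem (d.dg_g_mem g) _)
  hE := d.EE_le g
  norm := d.EE_norm g
  gen := by
    have hσ : d.sg g ∈ AA (d.sg_comm g) 1 := ⟨1, 0, by simp⟩
    have hτ : d.dg g ∈ AA (d.sg_comm g) 1 := ⟨0, 1, by simp⟩
    conv_lhs => rw [K]
    rw [Subgroup.closure_le]
    rintro x ((hx | ⟨u, hu, rfl⟩) | ⟨v, hv, rfl⟩)
    · rw [Set.mem_singleton_iff] at hx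
      rw [hx]
      exact (le_sup_right : AA (d.sg_comm g) 1 ≤ _) hτ
    · exact (le_sup_left : d.EE g ≤ _) (d.E0_le_EE g (Or.inl ⟨u, hu, rfl⟩))
    · have h1 : d.sg (v * (1 * g)) * (d.sg (1 * g))⁻¹ ∈ d.EE g :=
        d.E0_le_EE g (Or.inr ⟨v, hv, 1, one_mem _, rfl⟩)
      have h2 : d.sg (v * g) = (d.sg (v * (1 * g)) * (d.sg (1 * g))⁻¹) * d.sg g := by
        rw [one_mul, inv_mul_cancel_right]
      rw [h2]
      exact mul_mem ((le_sup_left : d.EE g ≤ d.EE g ⊔ AA (d.sg_comm g) 1) h1)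
        ((le_sup_right : AA (d.sg_comm g) 1 ≤ d.EE g ⊔ AA (d.sg_comm g) 1) hσ)
  small := by
    rintro H' ⟨U, hU, hUH⟩
    conv_lhs => rw [EE]
    rw [Subgroup.closure_le]
    rintro x ⟨κ, hκ, e, he, rfl⟩
    rcases he with ⟨u, hu, rfl⟩ | ⟨u, hu, v, hv, rfl⟩
    · have h1 : G0 G ≤ H'.comap (((MulAut.conj κ).toMonoidHom).comp d.dg) := by
        refine G0_gen _ ⟨(fun x : G => κ * d.dg x * κ⁻¹) ⁻¹' U, ?_, ?_⟩
        · have h2 : Continuous (fun x : G => κ * d.dg x * κ⁻¹) :=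
            (continuous_const.mul d.continuous_dg).mul continuous_const
          refine h2.continuousAt.preimage_mem_nhds ?_
          rw [map_one, mul_one, mul_inv_cancel]; exact hU
        · intro x hx hxU
          refine hUH _ ?_ hxU
          exact Subgroup.subset_closure ⟨κ, hκ, _, Or.inl ⟨x, hx, rfl⟩, rfl⟩
      exact h1 hu
    · refine clopen_ind (fun u => κ * (d.sg (u * (v * g)) * (d.sg (v * g))⁻¹) * κ⁻¹ ∈ H') ?_ ?_ u hu
      · rw [one_mul, mul_inv_cancel, mul_one, mul_inv_cancel]; exact one_mem _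
      · intro u hu
        have h2 : Continuous (fun w : G => κ * (d.sg (w * (u * (v * g))) * (d.sg (u * (v * g)))⁻¹) * κ⁻¹) := by
          have h3 : Continuous (fun w : G => d.sg (w * (u * (v * g)))) :=
            d.continuous_sg.comp (continuous_mul_const _)
          exact (continuous_const.mul (h3.mul continuous_const)).mul continuous_const
        refine ⟨(fun w : G => κ * (d.sg (w * (u * (v * g))) * (d.sg (u * (v * g)))⁻¹) * κ⁻¹) ⁻¹' U, ?_, ?_⟩
        · refine h2.continuousAt.preimage_mem_nhds ?_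
          rw [one_mul, mul_inv_cancel, mul_one, mul_inv_cancel]; exact hU
        · intro w hw hwG
          have h4 : κ * (d.sg (w * (u * (v * g))) * (d.sg (u * (v * g)))⁻¹) * κ⁻¹ ∈ H' := by
            refine hUH _ ?_ hw
            refine Subgroup.subset_closure ⟨κ, hκ, _, Or.inr ⟨w, hwG, u * v, mul_mem hu hv, rfl⟩, ?_⟩
            rw [mul_assoc u v g]
          have h5 : κ * (d.sg (w * u * (v * g)) * (d.sg (v * g))⁻¹) * κ⁻¹ =
              (κ * (d.sg (w * (u * (v * g))) * (d.sg (u * (v * g)))⁻¹) * κ⁻¹) *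
              (κ * (d.sg (u * (v * g)) * (d.sg (v * g))⁻¹) * κ⁻¹) := by
            rw [mul_assoc w u]; group
          rw [h5]
          exact Subgroup.mul_mem_cancel_left H' h4

end PD

end Pool.Agent.K6.H55.NS
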