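import Pool.Agent.K6.H55.NS.V4

/-! Characters of the group of difference sequences: additivity. -/

set_option autoImplicit false
set_option linter.unusedSectionVars false

namespace Pool.Agent.K6.H55.NS

open Set Topology Filter Pointwise Asymptotics
open scoped commutatorElement
open Pool.Agent.V11106 (LC comm_mem LC_anti)

theorem Vel.congr {E : Type*} [NormedAddCommGroup E] [NormedSpace ℝ E]
    {G : Type*} [Group G] [TopologicalSpace G] [IsTopologicalGroup G] {c : Ch E G}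
    {f f' : E → G} {L : E →L[ℝ] E} (h : Vel c f L) (he : f =ᶠ[𝓝 0] f') : Vel c f' L where
  one := by rw [← he.eq_of_nhds]; exact h.one
  cont := h.cont.congr he
  der := h.der.congr_of_eventuallyEq (by filter_upwards [he] with w hw; rw [hw])

variable {ι G : Type} [Group G] [TopologicalSpace G] [IsTopologicalGroup G] [T2Space G]
  [LocallyConnectedSpace G] {Φ : ℕ → Subgroup G}

/-- neighbourhoods of the identity in the group of sequences -/
theorem PD.nhds_one (d : PD ι Φ) {U : Set d.N} (hU : U ∈ 𝓝 (1 : d.N)) :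
    ∃ F : Finset (ι × ℤ), ∃ O ∈ 𝓝 (1 : G), ∀ e : d.N, e.1.n = 0 →
      (∀ k ∈ F, e.1.f k.1 k.2 ∈ O) → e ∈ U := by
  classical
  rw [nhds_subtype_eq_comap] at hU
  obtain ⟨U1, hU1, hU1'⟩ := Filter.mem_comap.1 hU
  rw [Sg.isEmbedding_pr.nhds_eq_comap] at hU1
  obtain ⟨U2, hU2, hU2'⟩ := Filter.mem_comap.1 hU1
  have hU3 : U2 ∈ 𝓝 ((fun (_ : ι) (_ : ℤ) => (1 : G)), (0 : ℤ)) := hU2
  rw [nhds_prod_eq, Filter.mem_prod_iff] at hU3
  obtain ⟨A, hA, Z, hZ, hAZ⟩ := hU3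
  rw [nhds_pi, Filter.mem_pi] at hA
  obtain ⟨I, hI, t, ht, htA⟩ := hA
  have h1 : ∀ i, ∃ J : Set ℤ, J.Finite ∧ ∃ r : ℤ → Set G, (∀ j, r j ∈ 𝓝 (1 : G)) ∧ J.pi r ⊆ t i := by
    intro i
    have := ht i
    rw [nhds_pi, Filter.mem_pi] at this
    exact this
  choose J hJ r hr hrt using h1
  refine ⟨hI.toFinset.sigma (fun i => (hJ i).toFinset) |>.image (fun x => (x.1, x.2)),
    ⋂ i ∈ hI.toFinset, ⋂ j ∈ (hJ i).toFinset, r i j, ?_, ?_⟩
  · rw [Filter.biInter_finset_mem]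
    intro i _
    rw [Filter.biInter_finset_mem]
    intro j _
    exact hr i j
  · intro e he hF
    apply hU1'
    apply hU2'
    refine hAZ ⟨htA ?_, ?_⟩
    · intro i hi
      refine hrt i ?_
      intro j hj
      have h2 := hF (i, j) (by
        rw [Finset.mem_image]
        exact ⟨⟨i, j⟩, by simp [hi, hj], rfl⟩)
      simp only [Set.mem_iInter] at h2
      exact h2 i (by simpa using hi) j (by simpa using hj)
    · show e.1.n ∈ Z
      rw [he]; exact mem_of_mem_nhds hZ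

/-- a character of `K` -/
structure Chr (d : PD ι Φ) (Γ : Subgroup G) (g : G) (B : d.N → Circle) : Prop where
  mul : ∀ x ∈ d.K g, ∀ y ∈ d.K g, B (x * y) = B x * B y
  cont : ∀ V ∈ 𝓝 (1 : Circle), ∃ U ∈ 𝓝 (1 : d.N), ∀ e ∈ d.EE g, e ∈ U → B e ∈ V
  onA : ∀ a ∈ AA (d.sg_comm g) 1, B a = 1
  oncl : ∀ x ∈ d.K g, x ∈ cl (AA (d.sg_comm g) 1) (GN ι d.fil Γ) → B x = 1

section
variable {d : PD ι Φ} {Γ : Subgroup G} {g : G} {B : d.N → Circle} (hB : Chr d Γ g B)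
include hB

theorem Chr.one : B 1 = 1 := by
  have h := hB.mul 1 (one_mem _) 1 (one_mem _)
  rw [mul_one] at h
  exact (mul_eq_left.1 h.symm)

theorem Chr.inv {x : d.N} (hx : x ∈ d.K g) : B x⁻¹ = (B x)⁻¹ := by
  have h := hB.mul x hx x⁻¹ (inv_mem hx)
  rw [mul_inv_cancel, hB.one] at h
  exact eq_inv_of_mul_eq_one_right h.symm

theorem Chr.conj {x y : d.N} (hx : x ∈ d.K g) (hy : y ∈ d.K g) : B (x * y * x⁻¹) = B y := by
  rw [hB.mul _ (mul_mem hx hy) _ (inv_mem hx), hB.mul x hx y hy, hB.inv hx, mul_comm (B x),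
    mul_inv_cancel_right]

theorem Chr.zpow {x : d.N} (hx : x ∈ d.K g) (n : ℤ) : B (x ^ n) = B x ^ n := by
  induction n using Int.induction_on with
  | zero => rw [zpow_zero, zpow_zero, hB.one]
  | succ n ih => rw [zpow_add_one, zpow_add_one, hB.mul _ (zpow_mem hx _) _ hx, ih]
  | pred n ih =>
    rw [zpow_sub_one, zpow_sub_one, hB.mul _ (zpow_mem hx _) _ (inv_mem hx), ih, hB.inv hx]

end

/-- integer combinations of quotients of powers -/
def PD.eps (d : PD ι Φ) (c : ℕ → ℤ) (y x : G) : ℕ → d.N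
  | 0 => 1
  | k + 1 => d.eps c y x k * ((d.sg y) ^ (k : ℤ) * ((d.sg x) ^ (k : ℤ))⁻¹) ^ (c k)

theorem zpow_f {a : Sg ι G} (ha : a.n = 0) (m : ℤ) :
    (∀ i t, (a ^ m).f i t = (a.f i t) ^ m) ∧ (a ^ m).n = 0 := by
  induction m using Int.induction_on with
  | zero => simp
  | succ m ih =>
    rw [zpow_add_one]
    refine ⟨fun i t => ?_, by rw [Sg.mul_n, ih.2, ha]; rfl⟩
    rw [Sg.mul_f, ih.1, ih.2, add_zero, zpow_add_one]
  | pred m ih =>
    rw [zpow_sub_one]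
    refine ⟨fun i t => ?_, by rw [Sg.mul_n, ih.2, Sg.inv_n, ha]; rfl⟩
    rw [Sg.mul_f, ih.1, ih.2, add_zero, Sg.inv_f, ha, sub_zero, zpow_sub_one]

theorem PD.quot_f (d : PD ι Φ) (y x : G) (m : ℤ) :
    (∀ i t, ((d.sg y) ^ m * ((d.sg x) ^ m)⁻¹).1.f i t =
      y ^ ((d.p i).eval (t + m) - (d.p i).eval t) * (x ^ ((d.p i).eval (t + m) - (d.p i).eval t))⁻¹) ∧
      ((d.sg y) ^ m * ((d.sg x) ^ m)⁻¹).1.n = 0 := by
  obtain ⟨hy1, hy2⟩ := d.sg_zpow y m
  obtain ⟨hx1, hx2⟩ := d.sg_zpow x m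
  refine ⟨fun i t => ?_, ?_⟩
  · rw [Subgroup.coe_mul, Sg.mul_f, hy1, hy2, Subgroup.coe_inv, Sg.inv_f, hx2, hx1]
    rw [show t + m - m = t by ring]
  · rw [Subgroup.coe_mul, Sg.mul_n, hy2, Subgroup.coe_inv, Sg.inv_n, hx2]; ring

theorem PD.eps_f (d : PD ι Φ) (c : ℕ → ℤ) (y x : G) (k : ℕ) :
    (∀ i t, (d.eps c y x (k + 1)).1.f i t = (d.eps c y x k).1.f i t *
      (y ^ ((d.p i).eval (t + k) - (d.p i).eval t) *
        (x ^ ((d.p i).eval (t + k) - (d.p i).eval t))⁻¹) ^ (c k)) ∧ (d.eps c y x k).1.n = 0 := by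
  have h2 : (d.eps c y x k).1.n = 0 := by
    induction k with
    | zero => rfl
    | succ k ih =>
      rw [PD.eps, Subgroup.coe_mul, Sg.mul_n, ih, zero_add, Subgroup.coe_zpow]
      exact (zpow_f (d.quot_f y x k).2 _).2
  refine ⟨fun i t => ?_, h2⟩
  rw [PD.eps, Subgroup.coe_mul, Sg.mul_f, h2, add_zero, Subgroup.coe_zpow,
    (zpow_f (d.quot_f y x k).2 _).1, (d.quot_f y x k).1]

variable {E : Type*} [NormedAddCommGroup E] [NormedSpace ℝ E] {ch : Ch E G}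

theorem PD.eps_vel (d : PD ι Φ) (c : ℕ → ℤ) {s : ℕ} (hs : LC G s = ⊥) (x : G) (k : ℕ) (i : ι) (t : ℤ) :
    Vel ch (fun w => (d.eps c (ch.ψ w * x) x k).1.f i t)
      (∑ m ∈ Finset.range k, ((c m : ℤ) : ℝ) •
        SS s (Ad ch x - 1) ((d.p i).eval (t + m) - (d.p i).eval t)) := by
  induction k with
  | zero => exact Vel.const ch
  | succ k ih =>
    rw [Finset.sum_range_succ]
    have h1 := ih.mul ((Vel.pow_div (c := ch) hs x ((d.p i).eval (t + k) - (d.p i).eval t)).zpow (c k))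
    refine h1.congr (Eventually.of_forall fun w => ?_)
    exact ((d.eps_f c (ch.ψ w * x) x k).1 i t).symm

theorem PD.quot_mem (d : PD ι Φ) {g : G} {u v : G} (hu : u ∈ G0 G) (hv : v ∈ G0 G) (m : ℕ) :
    (d.sg (u * (v * g))) ^ (m : ℤ) * ((d.sg (v * g)) ^ (m : ℤ))⁻¹ ∈ d.EE g := by
  have hy : d.sg (u * (v * g)) ∈ d.K g := by
    rw [← mul_assoc]; exact d.sg_mem g (mul_mem hu hv)
  induction m with
  | zero => simp
  | succ m ih =>
    have e : (d.sg (u * (v * g))) ^ ((m + 1 : ℕ) : ℤ) * ((d.sg (v * g)) ^ ((m + 1 : ℕ) : ℤ))⁻¹ =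
        ((d.sg (u * (v * g))) ^ (m : ℤ) * (d.sg (u * (v * g)) * (d.sg (v * g))⁻¹) *
          ((d.sg (u * (v * g))) ^ (m : ℤ))⁻¹) *
        ((d.sg (u * (v * g))) ^ (m : ℤ) * ((d.sg (v * g)) ^ (m : ℤ))⁻¹) := by
      push_cast
      rw [zpow_add_one, zpow_add_one]; group
    rw [e]
    refine mul_mem (d.EE_norm g _ (zpow_mem hy _) _ ?_) ih
    exact d.E0_le_EE g (Or.inr ⟨u, hu, v, hv, rfl⟩)

theorem PD.eps_mem (d : PD ι Φ) (c : ℕ → ℤ) {g : G} {u v : G} (hu : u ∈ G0 G) (hv : v ∈ G0 G) (k : ℕ) :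
    d.eps c (u * (v * g)) (v * g) k ∈ d.EE g := by
  induction k with
  | zero => exact one_mem _
  | succ k ih => exact mul_mem ih (zpow_mem (d.quot_mem hu hv k) _)

theorem Chr.eps {d : PD ι Φ} {Γ : Subgroup G} {g : G} {B : d.N → Circle} (hB : Chr d Γ g B)
    (c : ℕ → ℤ) {u v : G} (hu : u ∈ G0 G) (hv : v ∈ G0 G) (k : ℕ) :
    B (d.eps c (u * (v * g)) (v * g) k) =
      (B (d.sg (u * (v * g))) * (B (d.sg (v * g)))⁻¹) ^ (∑ m ∈ Finset.range k, c m * m) := by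
  have hy : d.sg (u * (v * g)) ∈ d.K g := by
    rw [← mul_assoc]; exact d.sg_mem g (mul_mem hu hv)
  have hx : d.sg (v * g) ∈ d.K g := d.sg_mem g hv
  induction k with
  | zero => rw [Finset.sum_range_zero, zpow_zero]; exact hB.one
  | succ k ih =>
    rw [PD.eps, hB.mul _ (d.EE_le g (d.eps_mem c hu hv k)) _
      (zpow_mem (d.EE_le g (d.quot_mem hu hv k)) _), ih,
      hB.zpow (d.EE_le g (d.quot_mem hu hv k)), hB.mul _ (zpow_mem hy _) _ (inv_mem (zpow_mem hx _)),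
      hB.inv (zpow_mem hx _), hB.zpow hy, hB.zpow hx, Finset.sum_range_succ, zpow_add,
      mul_comm (c k) (k : ℤ), zpow_mul]
    simp only [mul_zpow, inv_zpow]

end Pool.Agent.K6.H55.NS
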