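import Pool.Agent.K6.H55.NS.V5

/-! Characters of the group of difference sequences: the main estimate. -/

set_option autoImplicit false
set_option linter.unusedSectionVars false

namespace Pool.Agent.K6.H55.NS

open Set Topology Filter Pointwise Asymptotics
open scoped commutatorElement
open Pool.Agent.V11106 (LC comm_mem LC_anti)

variable {ι G : Type} [Group G] [TopologicalSpace G] [IsTopologicalGroup G] [T2Space G]
  [LocallyConnectedSpace G] {Φ : ℕ → Subgroup G}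
variable {E : Type*} [NormedAddCommGroup E] [NormedSpace ℝ E] {ch : Ch E G}

/-- the correction by a commutator with a constant -/
def PD.R (d : PD ι Φ) (a b : d.N) (x : G) : d.N := a * (d.dg x * b * (d.dg x)⁻¹ * b⁻¹)⁻¹

theorem PD.R_f (d : PD ι Φ) {a b : d.N} (ha : a.1.n = 0) (hb : b.1.n = 0) (x : G) :
    (∀ i t, (d.R a b x).1.f i t = a.1.f i t * (x * b.1.f i t * x⁻¹ * (b.1.f i t)⁻¹)⁻¹) ∧
      (d.R a b x).1.n = 0 := by
  have h1 : (d.dg x * b * (d.dg x)⁻¹ * b⁻¹).1.n = 0 := by simp [hb]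
  refine ⟨fun i t => ?_, ?_⟩
  · rw [PD.R, Subgroup.coe_mul, Sg.mul_f, Subgroup.coe_inv, Sg.inv_f, h1, ha]
    simp [hb]
  · rw [PD.R, Subgroup.coe_mul, Sg.mul_n, Subgroup.coe_inv, Sg.inv_n, h1, ha]; rfl

/-- **The main estimate.** -/
theorem Chr.additive {d : PD ι Φ} {Γ : Subgroup G} {g : G} {B : d.N → Circle} (hB : Chr d Γ g B)
    {s : ℕ} (hs : LC G s = ⊥) {D₁ : ℕ} (hdeg : ∀ i, (d.p i).natDegree ≤ D₁) {v v' : G}
    (hv : v ∈ G0 G) (hv' : v' ∈ G0 G) :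
    (fun w : E => (((B (d.sg (ch.ψ w * (v * g))) * (B (d.sg (v * g)))⁻¹) *
      (B (d.sg (ch.ψ w * (v' * g))) * (B (d.sg (v' * g)))⁻¹)⁻¹ : Circle) : ℂ) - 1) =o[𝓝 0]
      fun w => w := by
  classical
  obtain ⟨c, N₀, hN₀, hc⟩ := exists_funct ((s + 1) * D₁ + 1)
  obtain ⟨K1, hK1⟩ : ∃ K1, K1 = (s + 1) * D₁ + 1 + 1 := ⟨_, rfl⟩
  have hsum : ∑ m ∈ Finset.range K1, c m * (m : ℤ) = N₀ := by
    have h1 := hc Polynomial.X (by rw [Polynomial.natDegree_X]; omega)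
    simp only [Polynomial.eval_X, Polynomial.derivative_X, Polynomial.eval_one, mul_one] at h1
    rw [hK1]
    have h2 : ((∑ m ∈ Finset.range ((s + 1) * D₁ + 1 + 1), c m * (m : ℤ) : ℤ) : ℚ) = ((N₀ : ℤ) : ℚ) := by
      push_cast; exact h1
    exact_mod_cast h2
  obtain ⟨A, hA⟩ : ∃ A : G → E → d.N, A = fun x w => d.eps c (ch.ψ w * x) x K1 := ⟨_, rfl⟩
  have hAn : ∀ x w, (A x w).1.n = 0 := by
    intro x w; rw [hA]; exact (d.eps_f c _ _ K1).2
  have hAv : ∀ x i t, Vel ch (fun w => (A x w).1.f i t)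
      (((N₀ : ℝ) * (((d.p i).derivative.eval t : ℤ) : ℝ)) • LL s (Ad ch x - 1)) := by
    intro x i t
    have h1 := d.eps_vel (ch := ch) c hs x K1 i t
    have h2 := sum_SS hc (d.p i) t s (Ad ch x - 1)
      ((Nat.mul_le_mul_left (s + 1) (hdeg i)).trans (Nat.le_succ _))
    rw [← hK1] at h2
    rw [h2] at h1
    rw [hA]; exact h1
  have hY : ∀ x : G, ∃ Y : E →L[ℝ] E, LL s (Ad ch x - 1) * Y = RR' s (Ad ch x - 1) := by
    intro x
    obtain ⟨U, hU⟩ := LL_unit (Ad_nil (c := ch) hs x)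
    exact ⟨U * RR' s (Ad ch x - 1), by rw [← mul_assoc, hU, one_mul]⟩
  choose Y hY using hY
  obtain ⟨R, hR⟩ : ∃ R : G → E → d.N, R = fun x w => d.R (A x w) (A x (Y x w)) x := ⟨_, rfl⟩
  have hRn : ∀ x w, (R x w).1.n = 0 := by
    intro x w; rw [hR]; exact (d.R_f (hAn _ _) (hAn _ _) x).2
  have hRv : ∀ x i t, Vel ch (fun w => (R x w).1.f i t)
      (((N₀ : ℝ) * (((d.p i).derivative.eval t : ℤ) : ℝ)) • (1 : E →L[ℝ] E)) := by
    intro x i t
    have h1 := hAv x i t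
    have h2 := h1.comp (Y x)
    have h3 := h1.mul (((h2.conj x).mul h2.inv).inv)
    refine Vel.congr (f := fun w => (A x w).1.f i t * (x * (A x (Y x w)).1.f i t * x⁻¹ *
      ((A x (Y x w)).1.f i t)⁻¹)⁻¹) ?_ (Eventually.of_forall fun w => ?_)
    · convert h3 using 1
      obtain ⟨a, ha⟩ : ∃ a : ℝ, a = (N₀ : ℝ) * (((d.p i).derivative.eval t : ℤ) : ℝ) := ⟨_, rfl⟩
      rw [← ha]
      obtain ⟨L, hL⟩ : ∃ L, L = LL s (Ad ch x - 1) := ⟨_, rfl⟩
      rw [← hL]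
      have h4 : L = 1 + (Ad ch x - 1) * (L * Y x) := by
        conv_lhs => rw [hL, LL_eq]
        rw [hL, hY]
      have h5 : (Ad ch x).comp ((a • L).comp (Y x)) + -((a • L).comp (Y x)) =
          a • ((Ad ch x - 1) * (L * Y x)) := by
        have e1 : (a • L).comp (Y x) = a • (L * Y x) := by
          rw [ContinuousLinearMap.smul_comp]; rfl
        rw [e1]
        have e2 : (Ad ch x).comp (a • (L * Y x)) = a • (Ad ch x * (L * Y x)) := by
          rw [ContinuousLinearMap.comp_smul]; rfl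
        rw [e2, sub_mul, one_mul, smul_sub, sub_eq_add_neg]
      rw [h5]
      conv_rhs => rw [h4]
      rw [smul_add, ← h4, add_neg_cancel_right]
    · rw [hR]; exact ((d.R_f (hAn _ _) (hAn _ _) x).1 i t).symm
  -- membership and values
  have hG0 : ∀ᶠ w in 𝓝 (0 : E), ch.ψ w ∈ G0 G := ch.ψt.eventually (G0_open.mem_nhds (one_mem (G0 G)))
  have hmem : ∀ x, (∃ u ∈ G0 G, x = u * g) → ∀ᶠ w in 𝓝 (0 : E), R x w ∈ d.EE g ∧
      B (R x w) = (B (d.sg (ch.ψ w * x)) * (B (d.sg x))⁻¹) ^ N₀ := by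
    rintro x ⟨u, hu, rfl⟩
    have h1 : Tendsto (fun w => Y (u * g) w) (𝓝 0) (𝓝 0) :=
      (Y (u * g)).continuous.tendsto' _ _ (map_zero _)
    filter_upwards [hG0, h1.eventually hG0] with w hw hw'
    have h2 : A (u * g) w ∈ d.EE g := by rw [hA]; exact d.eps_mem c hw hu K1
    have h3 : A (u * g) (Y (u * g) w) ∈ d.EE g := by rw [hA]; exact d.eps_mem c hw' hu K1
    have hx : d.dg (u * g) ∈ d.K g := by
      rw [map_mul]; exact mul_mem (d.dg_mem g hu) (d.dg_g_mem g)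
    have h4 : d.dg (u * g) * A (u * g) (Y (u * g) w) * (d.dg (u * g))⁻¹ ∈ d.EE g :=
      d.EE_norm g _ hx _ h3
    have h3K := d.EE_le g h3
    have h4K := d.EE_le g h4
    rw [hR]
    refine ⟨mul_mem h2 (inv_mem (mul_mem h4 (inv_mem h3))), ?_⟩
    show B (A (u * g) w * (d.dg (u * g) * A (u * g) (Y (u * g) w) * (d.dg (u * g))⁻¹ *
      (A (u * g) (Y (u * g) w))⁻¹)⁻¹) = _
    rw [hB.mul _ (d.EE_le g h2) _ (inv_mem (mul_mem h4K (inv_mem h3K))),
      hB.inv (mul_mem h4K (inv_mem h3K)), hB.mul _ h4K _ (inv_mem h3K), hB.conj hx h3K,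
      hB.inv h3K, mul_inv_cancel, inv_one, mul_one, hA]
    show B (d.eps c (ch.ψ w * (u * g)) (u * g) K1) = _
    rw [hB.eps c hw hu K1, hsum, zpow_natCast]
  have hx := hmem (v * g) ⟨v, hv, rfl⟩
  have hx' := hmem (v' * g) ⟨v', hv', rfl⟩
  -- the path in `E`
  obtain ⟨ρ, hρ⟩ : ∃ ρ : E → d.EE g, ρ = fun w =>
    if h : R (v * g) w * (R (v' * g) w)⁻¹ ∈ d.EE g then ⟨_, h⟩ else 1 := ⟨_, rfl⟩
  have hρe : ∀ᶠ w in 𝓝 (0 : E), ((ρ w : d.EE g) : d.N) = R (v * g) w * (R (v' * g) w)⁻¹ := by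
    filter_upwards [hx, hx'] with w hw hw'
    rw [hρ]
    simp only
    rw [dif_pos (mul_mem hw.1 (inv_mem hw'.1))]
  let β : d.EE g →* Circle :=
    { toFun := fun e => B e
      map_one' := hB.one
      map_mul' := fun x y => hB.mul _ (d.EE_le g x.2) _ (d.EE_le g y.2) }
  let ev : ι × ℤ → d.EE g →* G := fun k =>
    { toFun := fun e => e.1.1.f k.1 k.2
      map_one' := rfl
      map_mul' := fun x y => by
        show x.1.1.f k.1 k.2 * y.1.1.f k.1 (k.2 + x.1.1.n) = _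
        rw [d.EE_n g _ x.2, add_zero] }
  obtain ⟨U, hU, hUB⟩ := hB.cont nbd nbd_mem
  obtain ⟨F, O, hO, hFO⟩ := d.nhds_one hU
  have hlip := ch.lip_o β F ev hO (fun m hm => hUB m.1 m.2 (hFO m.1 (d.EE_n g _ m.2) hm)) (ρ := ρ) (by
    rintro ⟨i, t⟩
    have h1 := (hRv (v * g) i t).mul (hRv (v' * g) i t).inv
    rw [add_neg_cancel] at h1
    refine h1.congr ?_
    filter_upwards [hρe] with w hw
    show _ = ((ρ w : d.EE g) : d.N).1.f i t
    rw [hw, Subgroup.coe_mul, Sg.mul_f, hRn, add_zero, Subgroup.coe_inv, Sg.inv_f, hRn, sub_zero])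
  refine circle_root_o hN₀ ?_ ?_
  · -- continuity
    have h1 : ∀ u ∈ G0 G, Tendsto (fun w : E => B (d.sg (ch.ψ w * (u * g))) * (B (d.sg (u * g)))⁻¹)
        (𝓝 0) (𝓝 1) := by
      intro u hu V hV
      obtain ⟨U', hU', hUB'⟩ := hB.cont V hV
      have h2 : Tendsto (fun w : E => d.sg (ch.ψ w * (u * g)) * (d.sg (u * g))⁻¹) (𝓝 0) (𝓝 1) := by
        have h3 : Continuous (fun y : G => d.sg (y * (u * g)) * (d.sg (u * g))⁻¹) :=
          (d.continuous_sg.comp (continuous_mul_const _)).mul continuous_const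
        have h4 := h3.tendsto 1
        rw [one_mul, mul_inv_cancel] at h4
        exact h4.comp ch.ψt
      rw [mem_map]
      filter_upwards [h2.eventually hU', hG0] with w hw hw'
      have h5 : d.sg (ch.ψ w * (u * g)) ∈ d.K g := by
        rw [← mul_assoc]; exact d.sg_mem g (mul_mem hw' hu)
      have h6 := hUB' _ (d.E0_le_EE g (Or.inr ⟨ch.ψ w, hw', u, hu, rfl⟩)) hw
      rwa [hB.mul _ h5 _ (inv_mem (d.sg_mem g hu)), hB.inv (d.sg_mem g hu)] at h6
    have h2 := (h1 v hv).mul (h1 v' hv').inv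
    rw [inv_one, mul_one] at h2
    exact h2
  · refine hlip.congr' ?_ (EventuallyEq.refl _ _)
    filter_upwards [hρe, hx, hx'] with w hw hw1 hw2
    show ((B (ρ w) : Circle) : ℂ) - 1 = _
    rw [hw, hB.mul _ (d.EE_le g hw1.1) _ (inv_mem (d.EE_le g hw2.1)), hB.inv (d.EE_le g hw2.1),
      hw1.2, hw2.2, ← inv_pow, ← mul_pow, Circle.coe_pow]

end Pool.Agent.K6.H55.NS
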