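import Pool.Agent.K6.H55.NS.V6

/-! No character lives on the identity component. -/

set_option autoImplicit false
set_option linter.unusedSectionVars false

namespace Pool.Agent.K6.H55.NS

open Set Topology Filter Pointwise Asymptotics
open scoped commutatorElement
open Pool.Agent.V11106 (LC comm_mem LC_anti)

variable {ι G : Type} [Group G] [TopologicalSpace G] [IsTopologicalGroup G] [T2Space G]
  [LocallyConnectedSpace G] {Φ : ℕ → Subgroup G}
variable {E : Type*} [NormedAddCommGroup E] [NormedSpace ℝ E]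

/-- **Characters vanishing on the orbit closure are trivial on `E`.** -/
theorem Chr.trivial (ch : Ch E G) {d : PD ι Φ} {Γ : Subgroup G} {g h γ0 : G} {B : d.N → Circle}
    (hB : Chr d Γ g B) {s : ℕ} (hs : LC G s = ⊥) {D₁ : ℕ} (hdeg : ∀ i, (d.p i).natDegree ≤ D₁)
    (hh : h ∈ G0 G) (hγ0 : γ0 ∈ Γ) (hg : g = h * γ0)
    (hmin : ∀ x : G, ∀ O ∈ 𝓝 (1 : G), ∃ v ∈ O, ∃ n : ℤ, ∃ γ ∈ Γ, v * x = g ^ n * γ) :
    ∀ e ∈ d.EE g, B e = 1 := by
  obtain ⟨a, ha⟩ : ∃ a : G → Circle, a = fun x => B (d.sg x) := ⟨_, rfl⟩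
  have hag : a g = 1 := by rw [ha]; exact hB.onA _ ⟨1, 0, by simp⟩
  have hG0n : (G0 G : Set G) ∈ 𝓝 (1 : G) := G0_open.mem_nhds (one_mem (G0 G))
  -- local additivity
  obtain ⟨O, hO, hOG, hpath⟩ := ch.path hG0n
  have h2 : ∀ u ∈ O, ∀ v ∈ G0 G, ∀ v' ∈ G0 G,
      a (u * (v * g)) * (a (u * (v' * g)))⁻¹ = a (v * g) * (a (v' * g))⁻¹ := by
    intro u hu v hv v' hv'
    have h3 := hpath (fun u => a (u * (v * g)) * (a (u * (v' * g)))⁻¹) (by
      intro u hu
      have h4 := hB.additive (ch := ch) hs hdeg (mul_mem hu hv) (mul_mem hu hv')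
      refine h4.congr' (Eventually.of_forall fun w => ?_) (EventuallyEq.refl _ _)
      have e1 : ∀ v : G, ch.ψ w * (u * v * g) = ch.ψ w * u * (v * g) := by
        intro v; simp only [mul_assoc]
      simp only [ha]
      rw [e1 v, e1 v', mul_assoc u v g, mul_assoc u v' g]
      have e3 : ∀ z1 z2 z3 z4 : Circle, z1 * z2⁻¹ * (z3 * z4⁻¹)⁻¹ = z1 * z3⁻¹ * (z2 * z4⁻¹)⁻¹ := by
        intro z1 z2 z3 z4
        simp only [← div_eq_mul_inv]
        exact div_div_div_comm _ _ _ _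
      rw [e3]) u hu
    simp only [one_mul] at h3
    exact h3
  obtain ⟨lam, hlam⟩ : ∃ lam : G → Circle, lam = fun u => a (u * g) := ⟨_, rfl⟩
  have hl1 : lam 1 = 1 := by rw [hlam]; simp only [one_mul]; exact hag
  let HH : Subgroup G :=
    { carrier := {u | u ∈ G0 G ∧ ∀ v ∈ G0 G, lam (u * v) = lam u * lam v}
      mul_mem' := by
        rintro x y ⟨hx, hx'⟩ ⟨hy, hy'⟩
        refine ⟨mul_mem hx hy, fun v hv => ?_⟩
        rw [mul_assoc, hx' _ (mul_mem hy hv), hy' v hv, hx' y hy, mul_assoc]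
      one_mem' := ⟨one_mem _, fun v _ => by rw [hl1, one_mul, one_mul]⟩
      inv_mem' := by
        rintro x ⟨hx, hx'⟩
        have h3 : ∀ v ∈ G0 G, lam (x⁻¹ * v) = (lam x)⁻¹ * lam v := by
          intro v hv
          have h4 := hx' (x⁻¹ * v) (mul_mem (inv_mem hx) hv)
          rw [mul_inv_cancel_left] at h4
          rw [h4, inv_mul_cancel_left]
        refine ⟨inv_mem hx, fun v hv => ?_⟩
        have h5 := h3 1 (one_mem _)
        rw [mul_one, hl1, mul_one] at h5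
        rw [h3 v hv, h5] }
  have hHH : G0 G ≤ HH := by
    refine G0_gen HH ⟨O, hO, fun u hu huO => ⟨hu, fun v hv => ?_⟩⟩
    have h3 := h2 u huO v hv 1 (one_mem _)
    rw [one_mul, hag, inv_one, mul_one] at h3
    rw [hlam]
    simp only
    rw [mul_assoc u v g, ← h3, mul_comm (a (u * g)), inv_mul_cancel_right]
  have hmul : ∀ u ∈ G0 G, ∀ v ∈ G0 G, lam (u * v) = lam u * lam v := fun u hu v hv => (hHH hu).2 v hv
  have hlinv : ∀ u ∈ G0 G, lam u⁻¹ = (lam u)⁻¹ := by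
    intro u hu
    have h3 := hmul u hu u⁻¹ (inv_mem hu)
    rw [mul_inv_cancel, hl1] at h3
    exact eq_inv_of_mul_eq_one_right h3.symm
  -- conjugation by `g`
  have hconj : ∀ u ∈ G0 G, lam (g * u * g⁻¹) = lam u := by
    intro u hu
    rw [hlam, ha]
    simp only
    rw [inv_mul_cancel_right]
    have h3 := hB.conj (d.dg_g_mem g) (d.sg_mem g hu)
    rw [d.dg_conj] at h3
    rw [show g * (u * g) * g⁻¹ = g * u by group] at h3
    exact h3
  -- the values on the lattice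
  have haΓ : ∀ γ ∈ Γ, (∃ u ∈ G0 G, γ = u * g) → a γ = 1 := by
    rintro γ hγ ⟨u, hu, e⟩
    rw [ha]
    refine hB.oncl _ (by rw [e]; exact d.sg_mem g hu) ?_
    have h3 : d.sg γ ∈ GN ι d.fil Γ := fun i t => zpow_mem hγ _
    have := (inv_cl (AA (d.sg_comm g) 1) (GN ι d.fil Γ)).right 1 (one_mem_cl _ _) _ h3
    rwa [one_mul] at this
  have hγh : γ0 = h⁻¹ * g := by rw [hg, inv_mul_cancel_left]
  have hlh : lam h = 1 := by
    have h3 := haΓ γ0 hγ0 ⟨h⁻¹, inv_mem hh, hγh⟩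
    have h4 : lam h⁻¹ = 1 := by rw [hlam]; simp only; rw [← hγh]; exact h3
    rw [hlinv h hh, inv_eq_one] at h4
    exact h4
  have hlΓ : ∀ γ ∈ Γ, γ ∈ G0 G → lam γ = 1 := by
    intro γ hγ hγG
    have h3 := haΓ (γ * γ0) (mul_mem hγ hγ0) ⟨γ * h⁻¹, mul_mem hγG (inv_mem hh), by
      rw [mul_assoc, ← hγh]⟩
    have h4 : lam (γ * h⁻¹) = 1 := by
      rw [hlam]; simp only; rw [mul_assoc, ← hγh]; exact h3
    rw [hmul γ hγG _ (inv_mem hh), hlinv h hh, hlh, inv_one, mul_one] at h4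
    exact h4
  have hstep : ∀ (n : ℤ), ∀ γ ∈ Γ, g ^ n * γ ∈ G0 G →
      g ^ (n + 1) * (γ * γ0⁻¹) ∈ G0 G ∧ lam (g ^ (n + 1) * (γ * γ0⁻¹)) = lam (g ^ n * γ) := by
    intro n γ hγ hx
    have e : g ^ (n + 1) * (γ * γ0⁻¹) = (g * (g ^ n * γ) * g⁻¹) * h := by
      rw [hγh, zpow_add_one]
      have : g ^ n * g = g * g ^ n := ((Commute.refl g).zpow_left n).eq
      rw [this]; group
    have h3 : g * (g ^ n * γ) * g⁻¹ ∈ G0 G := G0_normal.conj_mem _ hx g
    rw [e]
    exact ⟨mul_mem h3 hh, by rw [hmul _ h3 _ hh, hlh, mul_one, hconj _ hx]⟩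
  have hstep' : ∀ (n : ℤ), ∀ γ ∈ Γ, g ^ (n + 1) * γ ∈ G0 G → g ^ n * (γ * γ0) ∈ G0 G := by
    intro n γ hγ hx
    have e : g ^ n * (γ * γ0) = g⁻¹ * ((g ^ (n + 1) * γ) * h⁻¹) * g⁻¹⁻¹ := by
      rw [hγh, zpow_add_one]
      have : g ^ n * g = g * g ^ n := ((Commute.refl g).zpow_left n).eq
      rw [this]; group
    rw [e]
    exact G0_normal.conj_mem _ (mul_mem hx (inv_mem hh)) g⁻¹
  have hpow : ∀ (n : ℤ), ∀ γ ∈ Γ, g ^ n * γ ∈ G0 G → lam (g ^ n * γ) = 1 := by
    intro n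
    induction n using Int.induction_on with
    | zero =>
      intro γ hγ hx
      rw [zpow_zero, one_mul] at hx ⊢
      exact hlΓ γ hγ hx
    | succ n ih =>
      intro γ hγ hx
      have h3 := hstep' n γ hγ hx
      have h4 := hstep n (γ * γ0) (mul_mem hγ hγ0) h3
      rw [mul_inv_cancel_right] at h4
      rw [h4.2]
      exact ih _ (mul_mem hγ hγ0) h3
    | pred n ih =>
      intro γ hγ hx
      have h4 := hstep _ γ hγ hx
      rw [sub_add_cancel] at h4
      rw [← h4.2]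
      exact ih _ (mul_mem hγ (inv_mem hγ0)) h4.1
  -- continuity
  have hcont : ∀ V ∈ 𝓝 (1 : Circle), ∃ O ∈ 𝓝 (1 : G), ∀ u ∈ O, u ∈ G0 G → lam u ∈ V := by
    intro V hV
    obtain ⟨U, hU, hUB⟩ := hB.cont V hV
    have h3 : Continuous (fun y : G => d.sg (y * (1 * g)) * (d.sg (1 * g))⁻¹) :=
      (d.continuous_sg.comp (continuous_mul_const _)).mul continuous_const
    refine ⟨(fun y : G => d.sg (y * (1 * g)) * (d.sg (1 * g))⁻¹) ⁻¹' U, ?_, ?_⟩
    · refine h3.continuousAt.preimage_mem_nhds ?_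
      rw [one_mul, one_mul, mul_inv_cancel]; exact hU
    · intro u hu huG
      have h4 := hUB _ (d.E0_le_EE g (Or.inr ⟨u, huG, 1, one_mem _, rfl⟩)) hu
      rw [one_mul, hB.mul _ (d.sg_mem g huG) _ (inv_mem (d.sg_g_mem g)), hB.inv (d.sg_g_mem g)] at h4
      have h5 : B (d.sg g) = 1 := by rw [ha] at hag; exact hag
      rw [h5, inv_one, mul_one] at h4
      rw [hlam, ha]; exact h4
  have hl : ∀ u ∈ G0 G, lam u = 1 := by
    intro u hu
    by_contra hne
    have hV : {z : Circle | z * lam u ≠ 1} ∈ 𝓝 (1 : Circle) := by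
      have h3 : IsOpen {z : Circle | z * lam u ≠ 1} :=
        isOpen_ne_fun (continuous_mul_const _) continuous_const
      exact h3.mem_nhds (by simpa using hne)
    obtain ⟨O', hO', h3⟩ := hcont _ hV
    obtain ⟨v, hv, n, γ, hγ, e⟩ := hmin u (O' ∩ G0 G) (inter_mem hO' hG0n)
    have h4 := h3 v hv.1 hv.2
    have h5 : lam (v * u) = 1 := by
      rw [e]
      refine hpow n γ hγ ?_
      rw [← e]; exact mul_mem hv.2 hu
    rw [hmul v hv.2 u hu] at h5
    exact h4 h5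
  -- constants
  have hdg : ∀ u ∈ G0 G, B (d.dg u) = 1 := by
    intro u hu
    refine hB.oncl _ (d.dg_mem g hu) ?_
    rw [cl, mem_closure_iff_nhds]
    intro W hW
    have h3 : Tendsto (fun v : G => d.dg (v * u)) (𝓝 1) (𝓝 (d.dg u)) := by
      have h4 : Continuous (fun v : G => d.dg (v * u)) := d.continuous_dg.comp (continuous_mul_const _)
      have := h4.tendsto 1
      rwa [one_mul] at this
    obtain ⟨v, hv, n, γ, hγ, e⟩ := hmin u _ (h3 hW)
    refine ⟨d.dg (v * u), hv, d.dg g ^ n, ⟨0, n, by simp⟩, d.dg γ, fun i t => hγ, ?_⟩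
    show d.dg g ^ n * d.dg γ = d.dg (v * u)
    rw [e, map_mul, map_zpow]
  -- conclusion
  intro e he
  induction he using Subgroup.closure_induction with
  | mem x hx =>
    obtain ⟨κ, hκ, e, he, rfl⟩ := hx
    rw [hB.conj hκ (d.E0_le g he)]
    rcases he with ⟨u, hu, rfl⟩ | ⟨u, hu, v, hv, rfl⟩
    · exact hdg u hu
    · have hy : d.sg (u * (v * g)) ∈ d.K g := by
        rw [← mul_assoc]; exact d.sg_mem g (mul_mem hu hv)
      rw [hB.mul _ hy _ (inv_mem (d.sg_mem g hv)), hB.inv (d.sg_mem g hv)]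
      have h3 := hl (u * v) (mul_mem hu hv)
      have h4 := hl v hv
      rw [hlam, ha] at h3 h4
      simp only [mul_assoc] at h3 h4
      rw [h3, h4, inv_one, mul_one]
  | one => exact hB.one
  | mul x y hx hy hx' hy' =>
    have h3 : x ∈ d.EE g := hx
    have h4 : y ∈ d.EE g := hy
    rw [hB.mul _ (d.EE_le g h3) _ (d.EE_le g h4), hx', hy', mul_one]
  | inv x hx hx' =>
    have h3 : x ∈ d.EE g := hx
    rw [hB.inv (d.EE_le g h3), hx', inv_one]

end Pool.Agent.K6.H55.NS
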