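import Pool.Agent.K6.H55.NS.V7

/-! Polynomial returns along progressions in nilsystems. -/

set_option autoImplicit false
set_option linter.unusedSectionVars false

namespace Pool.Agent.K6.H55.NS

open Set Topology Filter Pointwise Asymptotics
open scoped commutatorElement
open Pool.Agent.V11106 (LC comm_mem LC_anti)

variable {ι G : Type} [Group G] [TopologicalSpace G] [IsTopologicalGroup G] [T2Space G]

/-- the filtration of `G` -/
def Pg (G : Type) [Group G] [TopologicalSpace G] [IsTopologicalGroup G] (D' l : ℕ) : Subgroup G :=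
  CC G ((l - 1) / D')

theorem exists_fil' {Γ : Subgroup G} {Q : Set G} {S : Finset G} (h : RD Γ Q S) {s : ℕ}
    (hs : LC G s = ⊥) {D' : ℕ} (hD : 0 < D') : ∃ Qs : ℕ → Set G, Fil (Pg G D') Γ Qs (s * D') := by
  choose K hK hcov using h.rational hs
  refine ⟨fun l => K ((l - 1) / D'), ?_⟩
  refine { anti := ?_, comm := ?_, bot := ?_, closed := ?_, comp := ?_, cov := ?_, gclosed := h.closed }
  · intro i
    exact CC_le (Nat.div_le_div_right (by omega))
  · intro i j a ha b hb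
    refine CC_le ?_ (CC_CC ha hb)
    have h1 := Nat.lt_mul_div_succ (i - 1) hD
    have h2 := Nat.lt_mul_div_succ (j - 1) hD
    rw [← Nat.lt_succ_iff, Nat.div_lt_iff_lt_mul hD]
    have h3 : ((i - 1) / D' + (j - 1) / D' + 1).succ * D' =
      D' * ((i - 1) / D' + 1) + D' * ((j - 1) / D' + 1) := by
      rw [Nat.succ_eq_add_one]; ring
    rw [h3]
    omega
  · have h1 : (1 + s * D' - 1) / D' = s := by
      rw [Nat.add_sub_cancel_left, Nat.mul_div_cancel _ hD]
    rw [Pg, h1, eq_bot_iff]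
    refine Subgroup.topologicalClosure_minimal _ hs.le ?_
    simp
  · exact fun i => isClosed_CC _
  · exact fun i => hK _
  · exact fun i x hx => hcov _ x hx

theorem Pg_top (D' l : ℕ) (h : l ≤ D') : Pg G D' l = ⊤ := by
  have h1 : (l - 1) / D' = 0 := by
    rcases Nat.eq_zero_or_pos D' with h | h
    · simp [h]
    · exact Nat.div_eq_of_lt (by omega)
  rw [Pg, h1, CC_zero]

/-- the data attached to polynomials -/
def mkPD (p : ι → Polynomial ℤ) (D₁ : ℕ) (hdeg : ∀ i, (p i).natDegree ≤ D₁)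
    (hf : Fil0 (Pg G (D₁ + 1))) : PD ι (Pg G (D₁ + 1)) where
  fil := hf
  p := p
  hP := by
    intro i x
    refine hf.PP_pow D₁ (by rw [Pg_top _ _ (by omega)]; exact Subgroup.mem_top x) ?_
    have e : (fun t => (p i).eval (t + 1) - (p i).eval t) =
        fun t => (Polynomial.taylor 1 (p i) - p i).eval t := by
      funext t
      rw [Polynomial.eval_sub, Polynomial.taylor_eval]
    rw [e]
    refine degLT_poly _ _ (Or.inr ?_)
    have h1 := Polynomial.natDegree_sub_le (Polynomial.taylor 1 (p i)) (p i)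
    rw [Polynomial.natDegree_taylor, max_self] at h1
    have := hdeg i
    omega
  hD := by
    intro x
    have h1 := hf.PP_pow (i := 1) 0 (a := x) (by rw [Pg_top _ _ (by omega)]; exact Subgroup.mem_top x)
      (u := fun _ => 1) (fun s t => by simp)
    simpa using h1

variable [LocallyConnectedSpace G]
variable {E : Type*} [NormedAddCommGroup E] [NormedSpace ℝ E]

/-- **Polynomial returns along progressions.** -/
theorem returns [Finite ι] (ch : Ch E G) {Γ : Subgroup G} {Q : Set G} {S : Finset G}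
    (hRD : RD Γ Q S) {g h γ0 : G} {s : ℕ} (hs : LC G s = ⊥)
    (hh : h ∈ G0 G) (hγ0 : γ0 ∈ Γ) (hg : g = h * γ0)
    (hmin : ∀ x : G, ∀ O ∈ 𝓝 (1 : G), ∃ v ∈ O, ∃ n : ℤ, ∃ γ ∈ Γ, v * x = g ^ n * γ)
    (p : ι → Polynomial ℤ) (hp : ∀ i, (p i).eval 0 = 0) (k : ℤ) (hk : 0 < k) (j : ℤ)
    {O : Set G} (hO : O ∈ 𝓝 (1 : G)) :
    ∃ n l : ℤ, 1 ≤ n ∧ ∀ i, ∃ γ ∈ Γ, g ^ ((p i).eval (k * n + j)) * g ^ l * γ ∈ O := by
  classical
  obtain ⟨D₁, hD₁⟩ : ∃ D₁, ∀ i, (p i).natDegree ≤ D₁ := by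
    cases nonempty_fintype ι
    exact ⟨Finset.univ.sup (fun i => (p i).natDegree), fun i =>
      Finset.le_sup (f := fun i => (p i).natDegree) (Finset.mem_univ i)⟩
  obtain ⟨Qs, hF⟩ := exists_fil' hRD hs (Nat.succ_pos D₁)
  obtain ⟨d, hd⟩ : ∃ d, d = mkPD p D₁ hD₁ hF.toFil0 := ⟨_, rfl⟩
  have hdp : d.p = p := by rw [hd]; rfl
  have hdat := d.dat hF g
  have hinv := hdat.invariant (by
    intro β hβA hβc hβcl
    obtain ⟨B, hBdef⟩ : ∃ B : d.N → Circle, B = fun x => if hx : x ∈ d.K g then β ⟨x, hx⟩ else 1 :=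
      ⟨_, rfl⟩
    have hBK : ∀ x (hx : x ∈ d.K g), B x = β ⟨x, hx⟩ := by
      intro x hx; rw [hBdef]; simp only; rw [dif_pos hx]
    have hB : Chr d Γ g B :=
      { mul := by
          intro x hx y hy
          rw [hBK _ (mul_mem hx hy), hBK _ hx, hBK _ hy, ← map_mul]; rfl
        cont := by
          intro V hV
          obtain ⟨U, hU, h1⟩ := hβc V hV
          exact ⟨U, hU, fun e he heU => by rw [hBK _ (d.EE_le g he)]; exact h1 e he heU⟩
        onA := by
          intro a ha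
          rw [hBK _ (hdat.hA ha)]; exact hβA a ha
        oncl := by
          intro x hx hx'
          rw [hBK _ hx]; exact hβcl x hx hx' }
    intro e he
    rw [← hBK _ (hdat.hE he)]
    exact hB.trivial ch hs (D₁ := D₁) (by rw [hdp]; exact hD₁) hh hγ0 hg hmin e he)
  have hγh : γ0 = h⁻¹ * g := by rw [hg, inv_mul_cancel_left]
  have hU : {e : d.N | ∀ i, e.1.f i 0 ∈ O} ∈ 𝓝 (1 : d.N) := by
    have h1 : ∀ᶠ e in 𝓝 (1 : d.N), ∀ i, e.1.f i 0 ∈ O := by
      rw [Filter.eventually_all]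
      intro i
      exact (continuous_nf (hΦ := d.fil) i 0).continuousAt.preimage_mem_nhds hO
    exact h1
  obtain ⟨n, l, hn, γ, hγ, hmem⟩ := hdat.final (d.sg_comm g) hinv
    ⟨d.sg (h * (h⁻¹ * g)) * (d.sg (h⁻¹ * g))⁻¹,
      d.E0_le_EE g (Or.inr ⟨h, hh, h⁻¹, inv_mem hh, rfl⟩), d.sg (h⁻¹ * g),
      fun i t => zpow_mem (by rw [← hγh]; exact hγ0) _, by
        rw [inv_mul_cancel_right, mul_inv_cancel_left]⟩ k hk j hU
  refine ⟨n, l, hn, fun i => ⟨γ.1.f i (k * n + j), hγ i _, ?_⟩⟩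
  have h2 := hmem i
  rw [Subgroup.coe_mul, Subgroup.coe_mul, Sg.mul_f, Sg.mul_f, (d.sg_zpow g (k * n + j)).1,
    Sg.mul_n, (d.sg_zpow g (k * n + j)).2, ← map_zpow, d.dg_f, d.dg_n, hdp, hp, sub_zero, zero_add,
    zero_add, add_zero] at h2
  exact h2

end Pool.Agent.K6.H55.NS
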