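import Pool.Agent.K6.H55.NS.V8
import Pool.Agent.V11106.Nil8

/-! Charts of Lie groups, and the main theorem. -/

set_option autoImplicit false
set_option linter.unusedSectionVars false

namespace Pool.Agent.K6.H55.NS

open Set Topology Filter Pointwise Asymptotics
open scoped commutatorElement Manifold ContDiff
open Pool.Agent.V11106 (LC comm_mem LC_anti Rooted rooted_nhds)

section lie
variable {E : Type*} [NormedAddCommGroup E] [NormedSpace ℝ E]
variable {G : Type*} [Group G] [TopologicalSpace G] [ChartedSpace E G]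

/-- the chart of a Lie group at the identity -/
theorem exists_chart [LieGroup 𝓘(ℝ, E) ∞ G] [IsTopologicalGroup G] : Nonempty (Ch E G) := by
  set φ := extChartAt 𝓘(ℝ, E) (1 : G) with hφ
  set e0 : E := φ 1 with he0
  set ψ : E → G := fun x => φ.symm (x + e0) with hψ
  have hsrc : (1 : G) ∈ φ.source := mem_extChartAt_source (I := 𝓘(ℝ, E)) (1 : G)
  have hψ0 : ψ 0 = 1 := by
    simp only [hψ, zero_add, he0]
    exact φ.left_inv hsrc
  have htgt : φ.target ∈ 𝓝 e0 := extChartAt_target_mem_nhds (I := 𝓘(ℝ, E)) (1 : G)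
  have hψs : ContMDiffAt 𝓘(ℝ, E) 𝓘(ℝ, E) ∞ ψ 0 := by
    have h1 : ContMDiffAt 𝓘(ℝ, E) 𝓘(ℝ, E) ∞ φ.symm (0 + e0) := by
      rw [zero_add]
      exact (contMDiffOn_extChartAt_symm (I := 𝓘(ℝ, E)) (n := ∞) (1 : G)).contMDiffAt htgt
    have h2 : ContMDiffAt 𝓘(ℝ, E) 𝓘(ℝ, E) ∞ (fun x : E => x + e0) 0 :=
      (contDiff_id.add contDiff_const).contMDiff.contMDiffAt
    exact ContMDiffAt.comp (0 : E) h1 h2
  have htr : ∀ᶠ x in 𝓝 (0 : E), x + e0 ∈ φ.target := by
    have hc : ContinuousAt (fun x : E => x + e0) 0 := by fun_prop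
    exact hc.preimage_mem_nhds (by simpa using htgt)
  have hφ1 : ContMDiffAt 𝓘(ℝ, E) 𝓘(ℝ, E) ∞ φ (1 : G) := contMDiffAt_extChartAt
  -- smoothness of maps through the chart
  have key : ∀ {F : Type _} [NormedAddCommGroup F] [NormedSpace ℝ F] (f : F → G),
      ContMDiffAt 𝓘(ℝ, F) 𝓘(ℝ, E) ∞ f 0 → f 0 = 1 → ContDiffAt ℝ ∞ (fun x => φ (f x) - e0) 0 := by
    intro F _ _ f hf hf0
    have h1 : ContMDiffAt 𝓘(ℝ, E) 𝓘(ℝ, E) ∞ φ (f 0) := by rw [hf0]; exact hφ1
    have h2 : ContMDiffAt 𝓘(ℝ, F) 𝓘(ℝ, E) ∞ (fun x => φ (f x)) 0 := ContMDiffAt.comp (0 : F) h1 hf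
    exact (contMDiffAt_iff_contDiffAt.1 h2).sub contDiffAt_const
  refine ⟨Ch.mk (fun x => φ x - e0) ψ ?_ hψ0 ?_ ?_ ?_ ?_ ?_ ?_ ?_⟩
  · simp [he0]
  · exact (continuousAt_extChartAt (I := 𝓘(ℝ, E)) (1 : G)).sub continuousAt_const
  · filter_upwards [htr] with x hx
    have h1 : ContinuousAt φ.symm (x + e0) := continuousAt_extChartAt_symm'' hx
    exact ContinuousAt.comp (f := fun x : E => x + e0) h1 (by fun_prop)
  · filter_upwards [extChartAt_source_mem_nhds (I := 𝓘(ℝ, E)) (1 : G)] with x hx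
    simp only [hψ, sub_add_cancel]
    exact φ.left_inv hx
  · filter_upwards [htr] with x hx
    simp only [hψ]
    rw [φ.right_inv hx, add_sub_cancel_right]
  · have hf : ContMDiffAt 𝓘(ℝ, E × E) 𝓘(ℝ, E) ∞ (fun p : E × E => ψ p.1) 0 := by
      have h2 : ContMDiffAt 𝓘(ℝ, E × E) 𝓘(ℝ, E) ∞ (fun p : E × E => p.1) 0 :=
        contDiff_fst.contMDiff.contMDiffAt
      exact ContMDiffAt.comp (g := ψ) (0 : E × E) hψs h2
    have hg : ContMDiffAt 𝓘(ℝ, E × E) 𝓘(ℝ, E) ∞ (fun p : E × E => ψ p.2) 0 := by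
      have h2 : ContMDiffAt 𝓘(ℝ, E × E) 𝓘(ℝ, E) ∞ (fun p : E × E => p.2) 0 :=
        contDiff_snd.contMDiff.contMDiffAt
      exact ContMDiffAt.comp (g := ψ) (0 : E × E) hψs h2
    exact (key (fun p : E × E => ψ p.1 * ψ p.2) (hf.mul hg) (by simp [hψ0])).of_le (by simp)
  · have h1 : ContMDiffAt 𝓘(ℝ, E) 𝓘(ℝ, E) ∞ (fun w => (ψ w)⁻¹) 0 := hψs.inv
    exact (key (fun w => (ψ w)⁻¹) h1 (by simp [hψ0])).differentiableAt (by simp)
  · intro x
    have h1 : ContMDiffAt 𝓘(ℝ, E) 𝓘(ℝ, E) ∞ (fun w => x * ψ w * x⁻¹) 0 :=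
      (contMDiffAt_const.mul hψs).mul contMDiffAt_const
    exact (key (fun w => x * ψ w * x⁻¹) h1 (by simp [hψ0])).differentiableAt (by simp)

end lie

section sub
variable {E : Type*} [NormedAddCommGroup E] [NormedSpace ℝ E]
variable {G : Type*} [Group G] [TopologicalSpace G] [IsTopologicalGroup G]

open Classical in
/-- restriction of a chart to an open subgroup -/
noncomputable def Ch.sub (c : Ch E G) (H : Subgroup G) (hH : IsOpen (H : Set G)) : Ch E H :=
  have hev : ∀ᶠ w in 𝓝 (0 : E), c.ψ w ∈ H := c.ψt.eventually (hH.mem_nhds (one_mem H))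
  have hcoe : ∀ w, c.ψ w ∈ H → (((if h : c.ψ w ∈ H then ⟨c.ψ w, h⟩ else 1 : H) : H) : G) = c.ψ w := by
    intro w hw; rw [dif_pos hw]
  Ch.mk (fun x => c.φ x) (fun w => if h : c.ψ w ∈ H then ⟨c.ψ w, h⟩ else 1)
    c.φ1
    (by
      have h0 : c.ψ 0 ∈ H := by rw [c.ψ0]; exact one_mem H
      rw [dif_pos h0]
      exact Subtype.ext c.ψ0)
    (by
      have h1 : ContinuousAt c.φ ((1 : H) : G) := c.cφ
      exact ContinuousAt.comp (f := fun x : H => (x : G)) h1 continuous_subtype_val.continuousAt)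
    (by
      filter_upwards [c.cψ', hev.eventually_nhds] with w hw hw'
      rw [Topology.IsInducing.subtypeVal.continuousAt_iff]
      refine hw.congr ?_
      filter_upwards [hw'] with w' hw''
      exact (hcoe _ hw'').symm)
    (by
      have h1 : ∀ᶠ x : H in 𝓝 1, c.ψ (c.φ x) = x := by
        have : Tendsto (fun x : H => (x : G)) (𝓝 1) (𝓝 1) :=
          continuous_subtype_val.tendsto' _ _ rfl
        exact this.eventually c.ψφ
      filter_upwards [h1] with x hx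
      have h2 : c.ψ (c.φ x) ∈ H := by rw [hx]; exact x.2
      rw [dif_pos h2]
      exact Subtype.ext hx)
    (by
      filter_upwards [c.φψ, hev] with w hw hw'
      rw [dif_pos hw']
      exact hw)
    (by
      refine c.mul.congr_of_eventuallyEq ?_
      have h1 : ∀ᶠ p : E × E in 𝓝 0, c.ψ p.1 ∈ H := (continuous_fst.tendsto' _ _ rfl :
        Tendsto (fun p : E × E => p.1) (𝓝 0) (𝓝 0)).eventually hev
      have h2 : ∀ᶠ p : E × E in 𝓝 0, c.ψ p.2 ∈ H := (continuous_snd.tendsto' _ _ rfl :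
        Tendsto (fun p : E × E => p.2) (𝓝 0) (𝓝 0)).eventually hev
      filter_upwards [h1, h2] with p hp1 hp2
      rw [Subgroup.coe_mul, hcoe _ hp1, hcoe _ hp2])
    (by
      refine c.inv.congr_of_eventuallyEq ?_
      filter_upwards [hev] with w hw
      rw [Subgroup.coe_inv, hcoe _ hw])
    (by
      intro x
      refine (c.conj x).congr_of_eventuallyEq ?_
      filter_upwards [hev] with w hw
      rw [Subgroup.coe_mul, Subgroup.coe_mul, Subgroup.coe_inv, hcoe _ hw])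

end sub

end Pool.Agent.K6.H55.NS
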